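import Mathlib

set_option autoImplicit false

/-! Averages over finite products and coordinate shifts. -/

namespace Pool.Agent.H585Z.LF

open Finset Function

/-- uniform average over a finite type -/
noncomputable def av {Ω : Type} [Fintype Ω] (f : Ω → ℝ) : ℝ := (∑ ω, f ω) / Fintype.card Ω

section basic
variable {Ω : Type} [Fintype Ω]

theorem av_sub (f g : Ω → ℝ) : av (fun ω => f ω - g ω) = av f - av g := by
  unfold av; rw [Finset.sum_sub_distrib, sub_div]

theorem av_add (f g : Ω → ℝ) : av (fun ω => f ω + g ω) = av f + av g := by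
  unfold av; rw [Finset.sum_add_distrib, add_div]

theorem av_mul (c : ℝ) (f : Ω → ℝ) : av (fun ω => c * f ω) = c * av f := by
  unfold av; rw [← Finset.mul_sum, mul_div_assoc]

theorem av_div (c : ℝ) (f : Ω → ℝ) : av (fun ω => f ω / c) = av f / c := by
  unfold av; rw [← Finset.sum_div, div_right_comm]

theorem av_const [Nonempty Ω] (c : ℝ) : av (fun _ : Ω => c) = c := by
  unfold av
  have : (Fintype.card Ω : ℝ) ≠ 0 := by exact_mod_cast Fintype.card_ne_zero
  rw [Finset.sum_const, card_univ, nsmul_eq_mul]; field_simp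

theorem abs_av_le [Nonempty Ω] {f : Ω → ℝ} {M : ℝ} (h : ∀ ω, |f ω| ≤ M) : |av f| ≤ M := by
  unfold av
  have hc : (0 : ℝ) < Fintype.card Ω := by exact_mod_cast Fintype.card_pos
  rw [abs_div, abs_of_pos hc, div_le_iff₀ hc]
  calc |∑ ω, f ω| ≤ ∑ ω, |f ω| := Finset.abs_sum_le_sum_abs _ _
    _ ≤ ∑ _ω : Ω, M := Finset.sum_le_sum fun ω _ => h ω
    _ = M * Fintype.card Ω := by rw [Finset.sum_const, card_univ, nsmul_eq_mul, mul_comm]

end basic

section prod
variable {ι : Type} [Fintype ι] [DecidableEq ι] {A : ι → Type} [∀ i, Fintype (A i)]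
  [∀ i, Nonempty (A i)]

theorem av_update (i : ι) (H : (∀ j, A j) → ℝ) :
    av H = av (fun ω : ∀ j, A j => (∑ a : A i, H (update ω i a)) / Fintype.card (A i)) := by
  have hc : (Fintype.card (A i) : ℝ) ≠ 0 := by exact_mod_cast Fintype.card_ne_zero
  rw [av_div]
  let e : ((∀ j, A j) × A i) ≃ ((∀ j, A j) × A i) :=
    { toFun := fun p => (update p.1 i p.2, p.1 i)
      invFun := fun p => (update p.1 i p.2, p.1 i)
      left_inv := by rintro ⟨ω, a⟩; simp
      right_inv := by rintro ⟨ω, a⟩; simp }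
  have h1 : ∑ p : (∀ j, A j) × A i, H (e p).1 = ∑ p : (∀ j, A j) × A i, H p.1 :=
    Equiv.sum_comp e (fun p => H p.1)
  rw [Fintype.sum_prod_type, Fintype.sum_prod_type] at h1
  simp only [Finset.sum_const, card_univ, nsmul_eq_mul] at h1
  rw [← Finset.mul_sum] at h1
  unfold av
  have h2 : ∑ ω : ∀ j, A j, ∑ a : A i, H (update ω i a) =
      Fintype.card (A i) * ∑ ω, H ω := h1
  rw [h2]; field_simp

variable (u : ∀ i, A i → A i)

/-- shift of one coordinate -/
def sh (i : ι) (ω : ∀ j, A j) : ∀ j, A j := update ω i (u i (ω i))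

/-- shift of the coordinates in `S` -/
def shS (S : Finset ι) (ω : ∀ j, A j) : ∀ j, A j := fun j => if j ∈ S then u j (ω j) else ω j

omit [Fintype ι] [∀ i, Fintype (A i)] [∀ i, Nonempty (A i)] in
theorem shS_insert_left {S : Finset ι} {i : ι} (hi : i ∉ S) (ω : ∀ j, A j) :
    shS u (insert i S) ω = shS u S (sh u i ω) := by
  funext j
  unfold shS sh
  by_cases h : j = i
  · subst h; simp [hi]
  · simp [h]

omit [Fintype ι] [∀ i, Fintype (A i)] [∀ i, Nonempty (A i)] in
theorem shS_insert_right {S : Finset ι} {i : ι} (hi : i ∉ S) (ω : ∀ j, A j) :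
    shS u (insert i S) ω = sh u i (shS u S ω) := by
  funext j
  unfold shS sh
  by_cases h : j = i
  · subst h; simp [hi]
  · simp [h]

variable (s e : ∀ i, A i)

theorem av_sh (hu : ∀ i (φ : A i → ℝ), ∑ a, φ (u i a) - ∑ a, φ a = φ (e i) - φ (s i))
    (i : ι) (F : (∀ j, A j) → ℝ) :
    av (fun ω => F (sh u i ω)) - av F =
      (av (fun ω => F (update ω i (e i))) - av (fun ω => F (update ω i (s i)))) /
        Fintype.card (A i) := by
  rw [← av_sub, ← av_sub, av_update i, ← av_div]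
  congr 1
  funext ω
  congr 1
  have h1 : ∀ a : A i, sh u i (update ω i a) = update ω i (u i a) := by
    intro a; unfold sh; simp
  simp only [h1]
  rw [Finset.sum_sub_distrib]
  exact hu i (fun a => F (update ω i a))

theorem abs_av_sh (hu : ∀ i (φ : A i → ℝ), ∑ a, φ (u i a) - ∑ a, φ a = φ (e i) - φ (s i))
    {ε M : ℝ} (hε : ∀ i, 2 ≤ ε * Fintype.card (A i)) (i : ι) {F : (∀ j, A j) → ℝ}
    (hF : ∀ ω, |F ω| ≤ M) : |av (fun ω => F (sh u i ω)) - av F| ≤ ε * M := by
  have hc : (0 : ℝ) < Fintype.card (A i) := by exact_mod_cast Fintype.card_pos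
  rw [av_sh u s e hu, abs_div, abs_of_pos hc, div_le_iff₀ hc]
  have h1 : |av (fun ω => F (update ω i (e i)))| ≤ M := abs_av_le fun ω => hF _
  have h2 : |av (fun ω => F (update ω i (s i)))| ≤ M := abs_av_le fun ω => hF _
  have hM : 0 ≤ M := (abs_nonneg _).trans h1
  have h3 := abs_sub (av (fun ω => F (update ω i (e i)))) (av (fun ω => F (update ω i (s i))))
  have h4 := mul_le_mul_of_nonneg_right (hε i) hM
  nlinarith

theorem abs_av_shS (hu : ∀ i (φ : A i → ℝ), ∑ a, φ (u i a) - ∑ a, φ a = φ (e i) - φ (s i))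
    {ε M : ℝ} (hε : ∀ i, 2 ≤ ε * Fintype.card (A i)) {F : (∀ j, A j) → ℝ}
    (hF : ∀ ω, |F ω| ≤ M) (S : Finset ι) :
    |av (fun ω => F (shS u S ω)) - av F| ≤ S.card * (ε * M) := by
  induction S using Finset.induction_on with
  | empty =>
    have : (fun ω => F (shS u ∅ ω)) = F := by funext ω; unfold shS; simp
    rw [this]; simp
  | insert i S hi ih =>
    have h1 := abs_av_sh u s e hu hε i (F := fun ω => F (shS u S ω)) (fun ω => hF _)
    simp only [shS_insert_left u hi]
    rw [Finset.card_insert_of_notMem hi]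
    push_cast
    have h2 := abs_sub_le (av (fun ω => F (shS u S (sh u i ω)))) (av (fun ω => F (shS u S ω))) (av F)
    linarith

theorem abs_av_tele (hu : ∀ i (φ : A i → ℝ), ∑ a, φ (u i a) - ∑ a, φ a = φ (e i) - φ (s i))
    {ε M : ℝ} (hε0 : 0 ≤ ε) (hM : 0 ≤ M) (hε : ∀ i, 2 ≤ ε * Fintype.card (A i))
    {F : (∀ j, A j) → ℝ}
    (hF : ∀ i ω, |F (sh u i ω) - F ω| ≤ M) (S : Finset ι) :
    |av (fun ω => F (shS u S ω)) - av F - ∑ i ∈ S, (av (fun ω => F (sh u i ω)) - av F)| ≤
      (S.card : ℝ) ^ 2 * (ε * M) := by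
  induction S using Finset.induction_on with
  | empty =>
    have : (fun ω => F (shS u ∅ ω)) = F := by funext ω; unfold shS; simp
    rw [this]; simp
  | insert i S hi ih =>
    have h1 := abs_av_shS u s e hu hε (F := fun ω => F (sh u i ω) - F ω) (hF i) S
    rw [av_sub, av_sub] at h1
    simp only [shS_insert_right u hi]
    rw [Finset.card_insert_of_notMem hi, Finset.sum_insert hi]
    push_cast
    have h0 : 0 ≤ ε * M := mul_nonneg hε0 hM
    have hS : (0 : ℝ) ≤ S.card := Nat.cast_nonneg _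
    rw [abs_le] at h1 ih ⊢
    constructor <;> nlinarith [h1.1, h1.2, ih.1, ih.2, mul_nonneg hS h0]

/-- the key averaging estimate -/
theorem abs_sum_ends (hu : ∀ i (φ : A i → ℝ), ∑ a, φ (u i a) - ∑ a, φ a = φ (e i) - φ (s i))
    {ε M M' : ℝ} (hε0 : 0 ≤ ε) (hM : 0 ≤ M) (hε : ∀ i, 2 ≤ ε * Fintype.card (A i))
    {F : (∀ j, A j) → ℝ}
    (hF : ∀ i ω, |F (sh u i ω) - F ω| ≤ M) (S : Finset ι)
    (hF' : ∀ ω, |F (shS u S ω) - F ω| ≤ M') :
    |∑ i ∈ S, (av (fun ω => F (update ω i (e i))) - av (fun ω => F (update ω i (s i)))) /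
        Fintype.card (A i)| ≤ M' + (S.card : ℝ) ^ 2 * (ε * M) := by
  have h1 := abs_av_tele u s e hu hε0 hM hε hF S
  have h2 := abs_av_le hF'
  rw [av_sub] at h2
  simp only [av_sh u s e hu] at h1
  rw [abs_le] at h1 h2 ⊢
  constructor <;> linarith [h1.1, h1.2, h2.1, h2.2]

end prod

/-- the capped successor on `Fin (n + 1)` -/
def capSucc {n : ℕ} (k : Fin (n + 1)) : Fin (n + 1) :=
  if h : (k : ℕ) < n then ⟨k + 1, by omega⟩ else k

theorem sum_capSucc {n : ℕ} (φ : Fin (n + 1) → ℝ) :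
    ∑ k, φ (capSucc k) - ∑ k, φ k = φ (Fin.last n) - φ 0 := by
  rw [Fin.sum_univ_castSucc (fun k => φ (capSucc k)), Fin.sum_univ_succ φ]
  have h1 : ∀ k : Fin n, capSucc k.castSucc = k.succ := by
    intro k; unfold capSucc; simp; rfl
  have h2 : capSucc (Fin.last n) = Fin.last n := by unfold capSucc; simp
  simp only [h1, h2]
  ring

theorem capSucc_val {n : ℕ} (k : Fin (n + 1)) :
    ((capSucc k : Fin (n + 1)) : ℕ) = k + 1 ∨ capSucc k = k := by
  unfold capSucc
  split_ifs
  · left; rfl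
  · right; rfl

end Pool.Agent.H585Z.LF
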