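import Mathlib

set_option autoImplicit false
set_option linter.unusedSectionVars false

/-! The one-level geometry: hubs, meeting places and wires. -/

namespace Pool.Agent.H585Z.LF

open Finset Function

/-- clamp to the unit interval -/
noncomputable def cl (t : ℝ) : ℝ := max 0 (min 1 t)

theorem cl_nonneg (t : ℝ) : 0 ≤ cl t := le_max_left _ _

theorem cl_le_one (t : ℝ) : cl t ≤ 1 := max_le zero_le_one (min_le_left _ _)

theorem cl_of_nonpos {t : ℝ} (h : t ≤ 0) : cl t = 0 :=
  max_eq_left ((min_le_right _ _).trans h)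

theorem cl_of_one_le {t : ℝ} (h : 1 ≤ t) : cl t = 1 := by
  unfold cl; rw [min_eq_left h]; exact max_eq_right zero_le_one

theorem pos_of_cl_ne {t : ℝ} (h : cl t ≠ 0) : 0 < t := by
  by_contra h'; exact h (cl_of_nonpos (not_lt.1 h'))

theorem abs_cl_sub (s t : ℝ) : |cl s - cl t| ≤ |s - t| := by
  unfold cl
  refine (abs_max_sub_max_le_max _ _ _ _).trans ?_
  rw [sub_self, abs_zero]
  refine max_le (abs_nonneg _) ?_
  refine (abs_min_sub_min_le_max _ _ _ _).trans ?_
  rw [sub_self, abs_zero]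
  exact max_le (abs_nonneg _) le_rfl

theorem abs_cl_le (t : ℝ) : |cl t| ≤ 1 := by
  rw [abs_of_nonneg (cl_nonneg t)]; exact cl_le_one t

theorem abs_mul_sub_mul (a b a' b' : ℝ) :
    |a * b - a' * b'| ≤ |a| * |b - b'| + |a - a'| * |b'| := by
  have : a * b - a' * b' = a * (b - b') + (a - a') * b' := by ring
  rw [this]
  refine (abs_add_le _ _).trans ?_
  rw [abs_mul, abs_mul]

section sel
variable {I : Type} [Fintype I] [DecidableEq I]

/-- excess of coordinate `i` over all the others -/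
noncomputable def sel (x : I → ℝ) (i : I) : ℝ := x i - ‖update x i 0‖

theorem sel_le (x : I → ℝ) (i : I) : sel x i ≤ x i := by
  unfold sel; linarith [norm_nonneg (update x i 0)]

theorem abs_sel_sub (x x' : I → ℝ) (i : I) : |sel x i - sel x' i| ≤ 2 * ‖x - x'‖ := by
  unfold sel
  have h1 : |x i - x' i| ≤ ‖x - x'‖ := by
    have := norm_le_pi_norm (x - x') i
    simpa using this
  have h2 : |‖update x i 0‖ - ‖update x' i 0‖| ≤ ‖x - x'‖ := by
    refine (abs_norm_sub_norm_le _ _).trans ?_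
    refine (pi_norm_le_iff_of_nonneg (norm_nonneg _)).2 fun j => ?_
    by_cases h : j = i
    · subst h; simp
    · have := norm_le_pi_norm (x - x') j
      simpa [h] using this
  rw [abs_le] at h1 h2 ⊢
  constructor <;> linarith [h1.1, h1.2, h2.1, h2.2]

theorem sel_disj (x : I → ℝ) {i j : I} (h : i ≠ j) (hi : 0 < sel x i) (hj : 0 < sel x j) :
    False := by
  unfold sel at hi hj
  have h1 : |x j| ≤ ‖update x i 0‖ := by
    have := norm_le_pi_norm (update x i 0) j
    simpa [h.symm] using this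
  have h2 : |x i| ≤ ‖update x j 0‖ := by
    have := norm_le_pi_norm (update x j 0) i
    simpa [h] using this
  linarith [le_abs_self (x i), le_abs_self (x j)]

theorem sel_single (i : I) (a : ℝ) : sel (Pi.single i a : I → ℝ) i = a := by
  unfold sel
  have : update (Pi.single i a : I → ℝ) i 0 = 0 := by
    funext j
    by_cases h : j = i
    · subst h; simp
    · simp [h]
  rw [this]; simp

theorem le_sel_of_near {x : I → ℝ} {i : I} {a ρ : ℝ} (h : ‖x - Pi.single i a‖ ≤ ρ) :
    a - 2 * ρ ≤ sel x i := by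
  have := abs_sel_sub x (Pi.single i a) i
  rw [sel_single, abs_le] at this
  linarith [this.1]

theorem sel_le_of_near {x : I → ℝ} {i j : I} {a ρ : ℝ} (h : ‖x - Pi.single i a‖ ≤ ρ)
    (hj : j ≠ i) : sel x j ≤ ρ := by
  have h1 := norm_le_pi_norm (x - Pi.single i a) j
  simp only [Pi.sub_apply, Pi.single_eq_of_ne hj, sub_zero, Real.norm_eq_abs] at h1
  linarith [sel_le x j, le_abs_self (x j)]

end sel

section disj
variable {I Y : Type} [Fintype I] [Nonempty I]

theorem exists_sum_eq (f : I → ℝ) (h : ∀ i j, i ≠ j → f i = 0 ∨ f j = 0) :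
    ∃ i, ∑ j, f j = f i ∧ ∀ j, j ≠ i → f j = 0 := by
  by_cases h0 : ∃ i, f i ≠ 0
  · obtain ⟨i, hi⟩ := h0
    have h1 : ∀ j, j ≠ i → f j = 0 := fun j hj => (h j i hj).resolve_right hi
    exact ⟨i, Finset.sum_eq_single i (fun j _ hj => h1 j hj) (by simp), h1⟩
  · push Not at h0
    obtain ⟨i⟩ := ‹Nonempty I›
    exact ⟨i, by simp [h0], fun j _ => h0 j⟩

theorem abs_sum_disj_le (f : I → ℝ) (h : ∀ i j, i ≠ j → f i = 0 ∨ f j = 0) {B : ℝ}
    (hB : ∀ i, |f i| ≤ B) : |∑ j, f j| ≤ B := by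
  obtain ⟨i, hi, -⟩ := exists_sum_eq f h
  rw [hi]; exact hB i

theorem abs_sum_disj_sub (f f' : I → ℝ) (h : ∀ i j, i ≠ j → f i = 0 ∨ f j = 0)
    (h' : ∀ i j, i ≠ j → f' i = 0 ∨ f' j = 0) {B : ℝ}
    (hB : ∀ i, |f i - f' i| ≤ B) : |∑ j, f j - ∑ j, f' j| ≤ 2 * B := by
  obtain ⟨i, hi, hi0⟩ := exists_sum_eq f h
  obtain ⟨i', hi', hi0'⟩ := exists_sum_eq f' h'
  rw [hi, hi']
  have hB0 : 0 ≤ B := (abs_nonneg _).trans (hB i)
  by_cases e : i = i'
  · subst e; linarith [hB i]
  · have h1 := hB i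
    have h2 := hB i'
    rw [hi0' i e] at h1
    rw [hi0 i' (Ne.symm e)] at h2
    rw [abs_le] at h1 h2 ⊢
    constructor <;> linarith [h1.1, h1.2, h2.1, h2.2]

end disj

section geom
variable {V : Type} [Fintype V] [DecidableEq V]

/-- coordinates of one level -/
abbrev KK (V : Type) : Type := V ⊕ (V × V) ⊕ Unit

/-- hub coordinates -/
def hub (y : KK V → ℝ) : V → ℝ := fun v => y (Sum.inl v)
/-- meeting place coordinates -/
def mt (y : KK V → ℝ) : V × V → ℝ := fun p => y (Sum.inr (Sum.inl p))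
/-- offset coordinate -/
def off (y : KK V → ℝ) : ℝ := y (Sum.inr (Sum.inr ()))

omit [DecidableEq V] in
theorem norm_hub (y y' : KK V → ℝ) : ‖hub y - hub y'‖ ≤ ‖y - y'‖ :=
  (pi_norm_le_iff_of_nonneg (norm_nonneg _)).2 fun v => norm_le_pi_norm (y - y') (Sum.inl v)

omit [DecidableEq V] in
theorem norm_mt (y y' : KK V → ℝ) : ‖mt y - mt y'‖ ≤ ‖y - y'‖ :=
  (pi_norm_le_iff_of_nonneg (norm_nonneg _)).2 fun p =>
    norm_le_pi_norm (y - y') (Sum.inr (Sum.inl p))

omit [DecidableEq V] in
theorem norm_off (y y' : KK V → ℝ) : |off y - off y'| ≤ ‖y - y'‖ :=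
  norm_le_pi_norm (y - y') (Sum.inr (Sum.inr ()))

variable (d : V → V → ℝ) (D : ℝ)

/-- hub weights -/
noncomputable def al (y : KK V → ℝ) (v : V) : ℝ := cl (sel (hub y) v / (2 * D) - 4)
/-- meeting place weights -/
noncomputable def am (y : KK V → ℝ) (p : V × V) : ℝ := cl (sel (mt y) p / (2 * D) - 1)
/-- interpolation across a meeting place -/
noncomputable def be (y : KK V → ℝ) (p : V × V) : ℝ := cl (8 * off y / d p.1 p.2 - 1)

/-- the one-level extension operator -/
noncomputable def J0 : (V → ℝ) →ₗ[ℝ] ((KK V → ℝ) → ℝ) where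
  toFun g y := ∑ v, al D y v * g v +
    (1 - ∑ v, al D y v) * ∑ p, am D y p * (g p.1 + be d y p * (g p.2 - g p.1))
  map_add' g g' := by
    funext y
    simp only [Pi.add_apply, mul_add, Finset.sum_add_distrib]
    have : ∀ p : V × V, am D y p * (be d y p * (g p.2 + g' p.2 - (g p.1 + g' p.1))) =
        am D y p * (be d y p * (g p.2 - g p.1)) + am D y p * (be d y p * (g' p.2 - g' p.1)) := by
      intro p; ring
    simp only [this, Finset.sum_add_distrib]
    ring
  map_smul' c g := by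
    funext y
    simp only [Pi.smul_apply, smul_eq_mul, RingHom.id_apply, mul_add, Finset.mul_sum,
      Finset.sum_add_distrib]
    congr 1
    · exact Finset.sum_congr rfl fun v _ => by ring
    · congr 1 <;> exact Finset.sum_congr rfl fun v _ => by ring

theorem J0_apply (g : V → ℝ) (y : KK V → ℝ) : J0 d D g y = ∑ v, al D y v * g v +
    (1 - ∑ v, al D y v) * ∑ p, am D y p * (g p.1 + be d y p * (g p.2 - g p.1)) := rfl

variable {D}

theorem al_disj (hD : 0 < D) (y : KK V → ℝ) (u v : V) (h : u ≠ v) :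
    al D y u = 0 ∨ al D y v = 0 := by
  by_contra hc
  push Not at hc
  have h1 := pos_of_cl_ne hc.1
  have h2 := pos_of_cl_ne hc.2
  refine sel_disj (hub y) h ?_ ?_
  · have : 0 < sel (hub y) u / (2 * D) := by linarith
    exact (div_pos_iff_of_pos_right (by positivity)).1 this
  · have : 0 < sel (hub y) v / (2 * D) := by linarith
    exact (div_pos_iff_of_pos_right (by positivity)).1 this

theorem am_disj (hD : 0 < D) (y : KK V → ℝ) (u v : V × V) (h : u ≠ v) :
    am D y u = 0 ∨ am D y v = 0 := by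
  by_contra hc
  push Not at hc
  have h1 := pos_of_cl_ne hc.1
  have h2 := pos_of_cl_ne hc.2
  refine sel_disj (mt y) h ?_ ?_
  · have : 0 < sel (mt y) u / (2 * D) := by linarith
    exact (div_pos_iff_of_pos_right (by positivity)).1 this
  · have : 0 < sel (mt y) v / (2 * D) := by linarith
    exact (div_pos_iff_of_pos_right (by positivity)).1 this

theorem al_lip (hD : 0 < D) (y y' : KK V → ℝ) (v : V) :
    |al D y v - al D y' v| ≤ ‖y - y'‖ / D := by
  refine (abs_cl_sub _ _).trans ?_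
  have h1 := abs_sel_sub (hub y) (hub y') v
  have h2 := norm_hub y y'
  have : sel (hub y) v / (2 * D) - 4 - (sel (hub y') v / (2 * D) - 4) =
      (sel (hub y) v - sel (hub y') v) / (2 * D) := by ring
  rw [this, abs_div, abs_of_pos (by positivity : 0 < 2 * D), div_le_div_iff₀ (by positivity) hD]
  nlinarith

theorem am_lip (hD : 0 < D) (y y' : KK V → ℝ) (p : V × V) :
    |am D y p - am D y' p| ≤ ‖y - y'‖ / D := by
  refine (abs_cl_sub _ _).trans ?_
  have h1 := abs_sel_sub (mt y) (mt y') p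
  have h2 := norm_mt y y'
  have : sel (mt y) p / (2 * D) - 1 - (sel (mt y') p / (2 * D) - 1) =
      (sel (mt y) p - sel (mt y') p) / (2 * D) := by ring
  rw [this, abs_div, abs_of_pos (by positivity : 0 < 2 * D), div_le_div_iff₀ (by positivity) hD]
  nlinarith

variable {d}

omit [DecidableEq V] in
theorem be_lip (hd0 : ∀ u v, 0 ≤ d u v) (y y' : KK V → ℝ) (p : V × V) :
    |be d y p - be d y' p| * d p.1 p.2 ≤ 8 * ‖y - y'‖ := by
  rcases (hd0 p.1 p.2).eq_or_lt with h | h
  · rw [← h, mul_zero]; positivity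
  have h0 := abs_cl_sub (8 * off y / d p.1 p.2 - 1) (8 * off y' / d p.1 p.2 - 1)
  have h1 := norm_off y y'
  have : 8 * off y / d p.1 p.2 - 1 - (8 * off y' / d p.1 p.2 - 1) =
      8 * (off y - off y') / d p.1 p.2 := by ring
  rw [this, abs_div, abs_of_pos h, le_div_iff₀ h, abs_mul, abs_of_pos (by norm_num : (0:ℝ) < 8)] at h0
  unfold be
  linarith

theorem J0_bounds [Nonempty V] (hD : 0 < D) (hd0 : ∀ u v, 0 ≤ d u v) {g : V → ℝ} {L : ℝ}
    (hL : 0 ≤ L) (hg : ∀ u v, |g u - g v| ≤ L * d u v)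
    (hb : ∀ v, |g v| ≤ L * D)
    (y y' : KK V → ℝ) :
    |J0 d D g y| ≤ 2 * (L * D) ∧ |J0 d D g y - J0 d D g y'| ≤ 22 * L * ‖y - y'‖ := by
  have hg' : ∀ u v, |g v - g u| ≤ L * d u v := fun u v => by rw [abs_sub_comm]; exact hg u v
  have hn := norm_nonneg (y - y')
  have hLD : 0 ≤ L * D := by positivity
  have hd1 : ∀ y : KK V → ℝ, ∀ i j, i ≠ j → al D y i * g i = 0 ∨ al D y j * g j = 0 := by
    intro y i j h
    rcases al_disj hD y i j h with h | h
    · left; rw [h, zero_mul]
    · right; rw [h, zero_mul]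
  have hd2 : ∀ y : KK V → ℝ, ∀ i j : V × V, i ≠ j →
      am D y i * (g i.1 + be d y i * (g i.2 - g i.1)) = 0 ∨
        am D y j * (g j.1 + be d y j * (g j.2 - g j.1)) = 0 := by
    intro y i j h
    rcases am_disj hD y i j h with h | h
    · left; rw [h, zero_mul]
    · right; rw [h, zero_mul]
  have hG : ∀ (y : KK V → ℝ) (p : V × V), |g p.1 + be d y p * (g p.2 - g p.1)| ≤ L * D := by
    intro y p
    have b0 : 0 ≤ be d y p := cl_nonneg _
    have b1 : be d y p ≤ 1 := cl_le_one _
    have e1 := hb p.1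
    have e2 := hb p.2
    rw [abs_le] at e1 e2 ⊢
    constructor <;> nlinarith [e1.1, e1.2, e2.1, e2.2]
  have hA0 : ∀ y : KK V → ℝ, |1 - ∑ v, al D y v| ≤ 1 := by
    intro y
    obtain ⟨i, hi, -⟩ := exists_sum_eq (al D y) (al_disj hD y)
    rw [hi, abs_le]
    have b0 : 0 ≤ al D y i := cl_nonneg _
    have b1 : al D y i ≤ 1 := cl_le_one _
    constructor <;> linarith
  have hS1 : ∀ y : KK V → ℝ, |∑ v, al D y v * g v| ≤ L * D := by
    intro y
    refine abs_sum_disj_le _ (hd1 y) fun v => ?_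
    rw [abs_mul]
    calc |al D y v| * |g v| ≤ 1 * (L * D) :=
          mul_le_mul (abs_cl_le _) (hb v) (abs_nonneg _) zero_le_one
      _ = L * D := one_mul _
  have hS2 : ∀ y : KK V → ℝ,
      |∑ p : V × V, am D y p * (g p.1 + be d y p * (g p.2 - g p.1))| ≤ L * D := by
    intro y
    refine abs_sum_disj_le _ (hd2 y) fun p => ?_
    rw [abs_mul]
    calc |am D y p| * |g p.1 + be d y p * (g p.2 - g p.1)| ≤ 1 * (L * D) :=
          mul_le_mul (abs_cl_le _) (hG y p) (abs_nonneg _) zero_le_one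
      _ = L * D := one_mul _
  have hq : ‖y - y'‖ / D * (L * D) = L * ‖y - y'‖ := by field_simp
  constructor
  · rw [J0_apply]
    refine (abs_add_le _ _).trans ?_
    rw [abs_mul]
    have := mul_le_mul (hA0 y) (hS2 y) (abs_nonneg _) zero_le_one
    linarith [hS1 y]
  · have l1 : |∑ v, al D y v * g v - ∑ v, al D y' v * g v| ≤ 2 * (L * ‖y - y'‖) := by
      refine abs_sum_disj_sub _ _ (hd1 y) (hd1 y') fun v => ?_
      rw [← sub_mul, abs_mul, ← hq]
      exact mul_le_mul (al_lip hD y y' v) (hb v) (abs_nonneg _) (by positivity)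
    have l2 : |∑ v, al D y v - ∑ v, al D y' v| ≤ 2 * (‖y - y'‖ / D) :=
      abs_sum_disj_sub _ _ (al_disj hD y) (al_disj hD y') fun v => al_lip hD y y' v
    have l3 : |∑ p : V × V, am D y p * (g p.1 + be d y p * (g p.2 - g p.1)) -
        ∑ p : V × V, am D y' p * (g p.1 + be d y' p * (g p.2 - g p.1))| ≤
          2 * (9 * (L * ‖y - y'‖)) := by
      refine abs_sum_disj_sub _ _ (hd2 y) (hd2 y') fun p => ?_
      refine (abs_mul_sub_mul _ _ _ _).trans ?_
      have e1 : g p.1 + be d y p * (g p.2 - g p.1) - (g p.1 + be d y' p * (g p.2 - g p.1)) =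
          (be d y p - be d y' p) * (g p.2 - g p.1) := by ring
      rw [e1, abs_mul]
      have e2 : |be d y p - be d y' p| * |g p.2 - g p.1| ≤ 8 * (L * ‖y - y'‖) := by
        calc |be d y p - be d y' p| * |g p.2 - g p.1|
            ≤ |be d y p - be d y' p| * (L * d p.1 p.2) :=
              mul_le_mul_of_nonneg_left (hg' p.1 p.2) (abs_nonneg _)
          _ = L * (|be d y p - be d y' p| * d p.1 p.2) := by ring
          _ ≤ L * (8 * ‖y - y'‖) := mul_le_mul_of_nonneg_left (be_lip hd0 y y' p) hL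
          _ = 8 * (L * ‖y - y'‖) := by ring
      have e3 : |am D y p| * (|be d y p - be d y' p| * |g p.2 - g p.1|) ≤
          1 * (8 * (L * ‖y - y'‖)) :=
        mul_le_mul (abs_cl_le _) e2 (by positivity) zero_le_one
      have e4 : |am D y p - am D y' p| * |g p.1 + be d y' p * (g p.2 - g p.1)| ≤
          ‖y - y'‖ / D * (L * D) :=
        mul_le_mul (am_lip hD y y' p) (hG y' p) (abs_nonneg _) (by positivity)
      linarith
    rw [J0_apply, J0_apply]
    have l4 := abs_mul_sub_mul (1 - ∑ v, al D y v)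
      (∑ p : V × V, am D y p * (g p.1 + be d y p * (g p.2 - g p.1))) (1 - ∑ v, al D y' v)
      (∑ p : V × V, am D y' p * (g p.1 + be d y' p * (g p.2 - g p.1)))
    have l5 := mul_le_mul (hA0 y) l3 (abs_nonneg _) zero_le_one
    have l6 : |1 - ∑ v, al D y v - (1 - ∑ v, al D y' v)| ≤ 2 * (‖y - y'‖ / D) := by
      rw [abs_sub_comm] at l2
      have : 1 - ∑ v, al D y v - (1 - ∑ v, al D y' v) = ∑ v, al D y' v - ∑ v, al D y v := by ring
      rw [this]; exact l2
    have l7 := mul_le_mul l6 (hS2 y') (abs_nonneg _) (by positivity)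
    have l8 : 2 * (‖y - y'‖ / D) * (L * D) = 2 * (L * ‖y - y'‖) := by rw [mul_assoc, hq]
    rw [add_sub_add_comm]
    refine (abs_add_le _ _).trans ?_
    linarith

variable (d D)

/-- class of a wire -/
def wcls (σ : (V × V) × Bool) : V := if σ.2 then σ.1.2 else σ.1.1

/-- hub of a point -/
noncomputable def hubPt (v : V) : KK V → ℝ := Pi.single (Sum.inl v) (16 * D)

/-- end point of a wire -/
noncomputable def wend (σ : (V × V) × Bool) : KK V → ℝ :=
  Pi.single (Sum.inr (Sum.inl σ.1)) (16 * D) +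
    Pi.single (Sum.inr (Sum.inr ())) (if σ.2 then d σ.1.1 σ.1.2 else 0)

/-- a point of a wire -/
noncomputable def wpt (σ : (V × V) × Bool) (t : ℝ) : KK V → ℝ :=
  hubPt D (wcls σ) + t • (wend d D σ - hubPt D (wcls σ))

theorem hub_wpt (σ : (V × V) × Bool) (t : ℝ) :
    hub (wpt d D σ t) = Pi.single (wcls σ) ((1 - t) * (16 * D)) := by
  funext v
  unfold hub wpt hubPt wend
  by_cases h : v = wcls σ
  · subst h; simp; ring
  · simp [h]

theorem mt_wpt (σ : (V × V) × Bool) (t : ℝ) :
    mt (wpt d D σ t) = Pi.single σ.1 (t * (16 * D)) := by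
  funext p
  unfold mt wpt hubPt wend
  by_cases h : p = σ.1
  · subst h; simp
  · simp [h]

theorem off_wpt (σ : (V × V) × Bool) (t : ℝ) :
    off (wpt d D σ t) = t * (if σ.2 then d σ.1.1 σ.1.2 else 0) := by
  unfold off wpt hubPt wend
  simp

variable {d D}

theorem J0_near (hD : 0 < D) {ρ : ℝ} (hρ : 0 < ρ) (hρD : 2 * ρ ≤ D)
    (hρd : ∀ u v, u ≠ v → 16 * ρ ≤ d u v) (g : V → ℝ) (σ : (V × V) × Bool) {t : ℝ}
    {y : KK V → ℝ} (hy : ‖y - wpt d D σ t‖ ≤ ρ) : J0 d D g y = g (wcls σ) := by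
  have h1 : ‖hub y - Pi.single (wcls σ) ((1 - t) * (16 * D))‖ ≤ ρ := by
    rw [← hub_wpt d]; exact (norm_hub _ _).trans hy
  have h2 : ‖mt y - Pi.single σ.1 (t * (16 * D))‖ ≤ ρ := by
    rw [← mt_wpt d]; exact (norm_mt _ _).trans hy
  have h3 : |off y - t * (if σ.2 then d σ.1.1 σ.1.2 else 0)| ≤ ρ := by
    rw [← off_wpt d D]; exact (norm_off _ _).trans hy
  have hD2 : 0 < 2 * D := by positivity
  have a0 : ∀ u, u ≠ wcls σ → al D y u = 0 := by
    intro u hu
    apply cl_of_nonpos
    have := sel_le_of_near h1 hu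
    have h4 : sel (hub y) u / (2 * D) ≤ 1 := by rw [div_le_one hD2]; linarith
    linarith
  have m0 : ∀ p, p ≠ σ.1 → am D y p = 0 := by
    intro p hp
    apply cl_of_nonpos
    have := sel_le_of_near h2 hp
    have h4 : sel (mt y) p / (2 * D) ≤ 1 := by rw [div_le_one hD2]; linarith
    linarith
  have s1 : ∑ v, al D y v * g v = al D y (wcls σ) * g (wcls σ) :=
    Finset.sum_eq_single _ (fun u _ hu => by rw [a0 u hu, zero_mul]) (by simp)
  have s2 : ∑ v, al D y v = al D y (wcls σ) :=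
    Finset.sum_eq_single _ (fun u _ hu => a0 u hu) (by simp)
  have s3 : ∑ p : V × V, am D y p * (g p.1 + be d y p * (g p.2 - g p.1)) =
      am D y σ.1 * (g σ.1.1 + be d y σ.1 * (g σ.1.2 - g σ.1.1)) :=
    Finset.sum_eq_single _ (fun u _ hu => by rw [m0 u hu, zero_mul]) (by simp)
  rw [J0_apply, s1, s2, s3]
  by_cases ht : t ≤ 5 / 16
  · have : al D y (wcls σ) = 1 := by
      apply cl_of_one_le
      have := le_sel_of_near h1
      have h4 : 5 ≤ sel (hub y) (wcls σ) / (2 * D) := by
        rw [le_div_iff₀ hD2]; nlinarith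
      linarith
    rw [this]; ring
  · push Not at ht
    have e1 : am D y σ.1 = 1 := by
      apply cl_of_one_le
      have := le_sel_of_near h2
      have h4 : 2 ≤ sel (mt y) σ.1 / (2 * D) := by
        rw [le_div_iff₀ hD2]; nlinarith
      linarith
    have e2 : g σ.1.1 + be d y σ.1 * (g σ.1.2 - g σ.1.1) = g (wcls σ) := by
      by_cases hp : σ.1.1 = σ.1.2
      · have : wcls σ = σ.1.1 := by unfold wcls; split_ifs <;> simp [hp]
        rw [this, ← hp]; ring
      have hdp := hρd _ _ hp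
      have hdpos : 0 < d σ.1.1 σ.1.2 := by linarith
      rw [abs_le] at h3
      unfold wcls
      by_cases hb : σ.2 = true
      · rw [if_pos hb] at h3 ⊢
        have : be d y σ.1 = 1 := by
          apply cl_of_one_le
          have h4 : 2 ≤ 8 * off y / d σ.1.1 σ.1.2 := by
            rw [le_div_iff₀ hdpos]; nlinarith [h3.1]
          linarith
        rw [this]; ring
      · rw [if_neg hb] at h3 ⊢
        have : be d y σ.1 = 0 := by
          apply cl_of_nonpos
          have h4 : 8 * off y / d σ.1.1 σ.1.2 ≤ 1 := by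
            rw [div_le_one hdpos]; nlinarith [h3.2]
          linarith
        rw [this]; ring
    rw [e1, one_mul, e2]; ring

theorem wend_sub (p : V × V) :
    wend d D (p, true) - wend d D (p, false) = Pi.single (Sum.inr (Sum.inr ())) (d p.1 p.2) := by
  unfold wend; simp

end geom

end Pool.Agent.H585Z.LF
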