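import Mathlib
import Pool.Agent.H585Z.LF.Avg
import Pool.Agent.H585Z.LF.Geom

set_option autoImplicit false
set_option linter.unusedSectionVars false

/-! The multi-scale product construction. -/

namespace Pool.Agent.H585Z.LF

open Finset Function

section GG
variable {Y : Type} [NormedAddCommGroup Y] [NormedSpace ℝ Y]

/-- the multi-scale sum with gates -/
noncomputable def GG (χ : Y → ℝ) (q : ℝ) (J : Y → ℝ) : (m : ℕ) → (Fin m → Y) → ℝ
  | 0, _ => 0
  | m + 1, a => J (a 0) + q⁻¹ * (χ (a 0) * GG χ q J m (fun i => q • a i.succ))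

variable (χ : Y → ℝ) (q : ℝ)

theorem GG_add (J J' : Y → ℝ) : ∀ (m : ℕ) (a : Fin m → Y),
    GG χ q (J + J') m a = GG χ q J m a + GG χ q J' m a
  | 0, _ => by simp [GG]
  | m + 1, a => by
    simp only [GG, GG_add J J' m, Pi.add_apply]; ring

theorem GG_smul (c : ℝ) (J : Y → ℝ) : ∀ (m : ℕ) (a : Fin m → Y),
    GG χ q (c • J) m a = c * GG χ q J m a
  | 0, _ => by simp [GG]
  | m + 1, a => by
    simp only [GG, GG_smul c J m, Pi.smul_apply, smul_eq_mul]; ring

/-- the multi-scale sum as a linear map -/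
noncomputable def GLin (m : ℕ) : (Y → ℝ) →ₗ[ℝ] ((Fin m → Y) → ℝ) where
  toFun J := GG χ q J m
  map_add' J J' := funext fun a => GG_add χ q J J' m a
  map_smul' c J := funext fun a => GG_smul χ q c J m a

variable {χ q}

theorem GG_bound (hχ : ∀ y, |χ y| ≤ 1) (hq : 2 ≤ q) {J : Y → ℝ} {B : ℝ} (hB : ∀ y, |J y| ≤ B) :
    ∀ (m : ℕ) (a : Fin m → Y), |GG χ q J m a| ≤ 2 * B
  | 0, _ => by
    have := (abs_nonneg _).trans (hB 0)
    simp only [GG, abs_zero]; linarith
  | m + 1, a => by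
    have hB0 := (abs_nonneg _).trans (hB 0)
    have hq0 : 0 < q := by linarith
    have ih := GG_bound hχ hq hB m (fun i => q • a i.succ)
    simp only [GG]
    refine (abs_add_le _ _).trans ?_
    rw [abs_mul, abs_mul, abs_of_pos (by positivity : 0 < q⁻¹)]
    have h1 : |χ (a 0)| * |GG χ q J m fun i => q • a i.succ| ≤ 1 * (2 * B) :=
      mul_le_mul (hχ _) ih (abs_nonneg _) zero_le_one
    have h2 : q⁻¹ ≤ 1 / 2 := by rw [one_div]; exact inv_anti₀ (by norm_num) hq
    have h3 := mul_le_mul h2 h1 (mul_nonneg (abs_nonneg _) (abs_nonneg _)) (by norm_num)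
    linarith [hB (a 0)]

theorem GG_lip (hχ : ∀ y, |χ y| ≤ 1) (hq : 2 ≤ q) {J : Y → ℝ} {B C ρ : ℝ} (hρ : 0 < ρ)
    (hC : 0 ≤ C) (hB : ∀ y, |J y| ≤ B) (hJ : ∀ y y', |J y - J y'| ≤ C * ‖y - y'‖)
    (hχ' : ∀ y y', |χ y - χ y'| ≤ 2 / ρ * ‖y - y'‖)
    (hloc : ∀ y y', χ y ≠ 0 → ‖y - y'‖ ≤ ρ / 2 → J y = J y') :
    ∀ (m : ℕ) (a a' : Fin m → Y) (δ : ℝ), 0 ≤ δ → (∀ i, ‖a i - a' i‖ ≤ δ) →
      |GG χ q J m a - GG χ q J m a'| ≤ (C + m * (8 * B / (q * ρ))) * δ
  | 0, _, _, δ, hδ, _ => by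
    simp only [GG, sub_self, abs_zero, Nat.cast_zero, zero_mul, add_zero]; positivity
  | m + 1, a, a', δ, hδ, h => by
    have hB0 := (abs_nonneg _).trans (hB 0)
    have hq0 : 0 < q := by linarith
    have ih := GG_lip hχ hq hρ hC hB hJ hχ' hloc m (fun i => q • a i.succ)
      (fun i => q • a' i.succ) (q * δ) (by positivity) (fun i => by
        rw [← smul_sub, norm_smul, Real.norm_eq_abs, abs_of_pos hq0]
        exact mul_le_mul_of_nonneg_left (h _) hq0.le)
    have b1 := GG_bound hχ hq hB m (fun i => q • a i.succ)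
    have b2 := GG_bound hχ hq hB m (fun i => q • a' i.succ)
    simp only [GG]
    set G := GG χ q J m (fun i => q • a i.succ)
    set G' := GG χ q J m (fun i => q • a' i.succ)
    set η := 8 * B / (q * ρ) with hη
    have hη0 : 0 ≤ η := by positivity
    have hm : (0 : ℝ) ≤ m := Nat.cast_nonneg _
    have h0 := h 0
    have hJ0 : |J (a 0) - J (a' 0)| ≤ C * δ := (hJ _ _).trans (mul_le_mul_of_nonneg_left h0 hC)
    push_cast
    rw [add_sub_add_comm, ← mul_sub]
    refine (abs_add_le _ _).trans ?_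
    rw [abs_mul, abs_of_pos (by positivity : 0 < q⁻¹)]
    have hmη : 0 ≤ m * η * δ := by positivity
    by_cases hc : ‖a 0 - a' 0‖ ≤ ρ / 2
    · by_cases hz : χ (a 0) = 0 ∧ χ (a' 0) = 0
      · rw [hz.1, hz.2]
        simp only [zero_mul, sub_self, abs_zero, mul_zero, add_zero]
        nlinarith [mul_nonneg hη0 hδ]
      · have hJe : J (a 0) = J (a' 0) := by
          by_cases h1 : χ (a 0) = 0
          · have h2 : χ (a' 0) ≠ 0 := fun h2 => hz ⟨h1, h2⟩
            exact (hloc _ _ h2 (by rw [norm_sub_rev]; exact hc)).symm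
          · exact hloc _ _ h1 hc
        rw [hJe, sub_self, abs_zero, zero_add]
        have e1 := abs_mul_sub_mul (χ (a 0)) G (χ (a' 0)) G'
        have e2 : |χ (a 0)| * |G - G'| ≤ 1 * ((C + m * η) * (q * δ)) :=
          mul_le_mul (hχ _) ih (abs_nonneg _) zero_le_one
        have e3 : |χ (a 0) - χ (a' 0)| * |G'| ≤ 2 / ρ * δ * (2 * B) :=
          mul_le_mul ((hχ' _ _).trans (mul_le_mul_of_nonneg_left h0 (by positivity))) b2
            (abs_nonneg _) (by positivity)
        have e4 : |χ (a 0) * G - χ (a' 0) * G'| ≤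
            (C + m * η) * (q * δ) + 2 / ρ * δ * (2 * B) := by linarith
        have e5 := mul_le_mul_of_nonneg_left e4 (by positivity : 0 ≤ q⁻¹)
        have e6 : q⁻¹ * ((C + m * η) * (q * δ) + 2 / ρ * δ * (2 * B)) =
            (C + m * η) * δ + η * δ / 2 := by rw [hη]; field_simp; ring
        nlinarith [mul_nonneg hη0 hδ]
    · push Not at hc
      have hδρ : ρ / 2 ≤ δ := hc.le.trans h0
      have e1 : |χ (a 0) * G| ≤ 1 * (2 * B) := by
        rw [abs_mul]; exact mul_le_mul (hχ _) b1 (abs_nonneg _) zero_le_one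
      have e2 : |χ (a' 0) * G'| ≤ 1 * (2 * B) := by
        rw [abs_mul]; exact mul_le_mul (hχ _) b2 (abs_nonneg _) zero_le_one
      have e3 : |χ (a 0) * G - χ (a' 0) * G'| ≤ 4 * B := by
        linarith [abs_sub (χ (a 0) * G) (χ (a' 0) * G')]
      have e5 := mul_le_mul_of_nonneg_left e3 (by positivity : 0 ≤ q⁻¹)
      have e6 : q⁻¹ * (4 * B) = η * (ρ / 2) := by rw [hη]; field_simp; ring
      have e7 := mul_le_mul_of_nonneg_left hδρ hη0
      nlinarith

theorem GG_val (hq : q ≠ 0) (J : Y → ℝ) : ∀ (m : ℕ) (a : Fin m → Y),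
    (∀ i : Fin m, χ (q ^ (i : ℕ) • a i) = 1) →
      GG χ q J m a = ∑ i : Fin m, (q ^ (i : ℕ))⁻¹ * J (q ^ (i : ℕ) • a i)
  | 0, _, _ => by simp [GG]
  | m + 1, a, h => by
    have h0 := h 0
    simp only [Fin.val_zero, pow_zero, one_smul] at h0
    have ih := GG_val hq J m (fun i => q • a i.succ) (fun i => by
      have := h i.succ
      rw [Fin.val_succ, pow_succ, mul_smul] at this
      exact this)
    rw [Fin.sum_univ_succ]
    simp only [GG, ih, h0, one_mul, Fin.val_zero, pow_zero, one_smul, inv_one, Fin.val_succ,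
      pow_succ, mul_smul, Finset.mul_sum]
    congr 1
    exact Finset.sum_congr rfl fun i _ => by rw [mul_inv]; ring

end GG

section gate
variable {Y : Type} [NormedAddCommGroup Y] [NormedSpace ℝ Y]

theorem exists_gate (W : Set Y) (hW : W.Nonempty) {ρ : ℝ} (hρ : 0 < ρ) :
    ∃ χ : Y → ℝ, (∀ y, |χ y| ≤ 1) ∧ (∀ y ∈ W, χ y = 1) ∧
      (∀ y y', |χ y - χ y'| ≤ 2 / ρ * ‖y - y'‖) ∧ ∀ y, χ y ≠ 0 → ∃ w ∈ W, ‖y - w‖ ≤ ρ / 2 := by
  refine ⟨fun y => cl (1 - 2 / ρ * Metric.infDist y W), fun y => abs_cl_le _, ?_, ?_, ?_⟩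
  · intro y hy
    apply cl_of_one_le
    rw [Metric.infDist_zero_of_mem hy]; simp
  · intro y y'
    refine (abs_cl_sub _ _).trans ?_
    have h1 := (Metric.lipschitz_infDist_pt W).dist_le_mul y' y
    rw [Real.dist_eq, NNReal.coe_one, one_mul, dist_eq_norm, norm_sub_rev] at h1
    have : 1 - 2 / ρ * Metric.infDist y W - (1 - 2 / ρ * Metric.infDist y' W) =
        2 / ρ * (Metric.infDist y' W - Metric.infDist y W) := by ring
    rw [this, abs_mul, abs_of_pos (by positivity : 0 < 2 / ρ)]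
    exact mul_le_mul_of_nonneg_left h1 (by positivity)
  · intro y hy
    have h1 := pos_of_cl_ne hy
    have h2 : Metric.infDist y W < ρ / 2 := by
      have h3 : 2 / ρ * Metric.infDist y W < 1 := by linarith
      rw [div_mul_eq_mul_div, div_lt_one hρ] at h3
      linarith
    obtain ⟨w, hw, hw'⟩ := (Metric.infDist_lt_iff hW).1 h2
    exact ⟨w, hw, by rw [← dist_eq_norm]; exact hw'.le⟩

end gate

section P
variable {Y : Type} [NormedAddCommGroup Y] [NormedSpace ℝ Y]
  {E : Type} [NormedAddCommGroup E] [NormedSpace ℝ E]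
  {Sg : Type} [Fintype Sg] [DecidableEq Sg] [Nonempty Sg]
  (st w : Sg → Y) (m q N : ℕ) (e : Fin m → Y →ₗ[ℝ] E)

/-- number of steps at level `i` -/
def nst (i : Fin m) : ℕ := N * q ^ (m - i) - 1

/-- sample points at level `i` -/
abbrev Smp (Sg : Type) (m q N : ℕ) (i : Fin m) : Type := Sg × Fin (nst m q N i + 1)

/-- position of a sample point, not scaled -/
noncomputable def pos0 (i : Fin m) (a : Smp Sg m q N i) : Y :=
  st a.1 + ((a.2 : ℕ) / (nst m q N i : ℝ)) • w a.1

/-- the level coordinates with level `i` replaced -/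
noncomputable def lev (ω : ∀ j, Smp Sg m q N j) (i : Fin m) (y : Y) : Fin m → Y :=
  update (fun j => pos0 st w m q N j (ω j)) i y

/-- the point of `E` with the given level coordinates -/
noncomputable def toE (a : Fin m → Y) : E := ∑ j, e j (((q : ℝ) ^ (j : ℕ))⁻¹ • a j)

/-- the averaging operator -/
noncomputable def QQ (f : E → ℝ) (y : Y) : ℝ :=
  (∑ i : Fin m, (q : ℝ) ^ (i : ℕ) *
    av (fun ω : ∀ j, Smp Sg m q N j => f (toE m q e (lev st w m q N ω i y)))) / m

theorem toE_update_sub (a : Fin m → Y) (i : Fin m) (y y' : Y) :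
    toE m q e (update a i y) - toE m q e (update a i y') =
      ((q : ℝ) ^ (i : ℕ))⁻¹ • e i (y - y') := by
  unfold toE
  rw [← Finset.sum_sub_distrib, Finset.sum_eq_single i]
  · simp only [update_self, map_smul, map_sub, smul_sub]
  · intro j _ hj; simp [hj]
  · simp

variable {st w m q N e}

theorem QQ_lip (hm : 0 < m) (hq : 0 < q) {nn : Y → ℝ} (H1 : ∀ i y, ‖e i y‖ ≤ nn y)
    {f : E → ℝ} {L : ℝ} (hL : 0 ≤ L) (hf : ∀ x x', |f x - f x'| ≤ L * ‖x - x'‖) (y y' : Y) :
    |QQ st w m q N e f y - QQ st w m q N e f y'| ≤ L * nn (y - y') := by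
  have hm' : (0 : ℝ) < m := by exact_mod_cast hm
  have hq' : (0 : ℝ) < q := by exact_mod_cast hq
  unfold QQ
  rw [← sub_div, ← Finset.sum_sub_distrib, abs_div, abs_of_pos hm', div_le_iff₀ hm']
  refine (Finset.abs_sum_le_sum_abs _ _).trans ?_
  have : ∀ i : Fin m, |(q : ℝ) ^ (i : ℕ) *
      av (fun ω : ∀ j, Smp Sg m q N j => f (toE m q e (lev st w m q N ω i y))) -
      (q : ℝ) ^ (i : ℕ) *
      av (fun ω : ∀ j, Smp Sg m q N j => f (toE m q e (lev st w m q N ω i y')))| ≤
        L * nn (y - y') := by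
    intro i
    have hp : (0 : ℝ) < (q : ℝ) ^ (i : ℕ) := by positivity
    rw [← mul_sub, ← av_sub, ← av_mul]
    refine abs_av_le fun ω => ?_
    rw [abs_mul, abs_of_pos hp]
    have h1 := hf (toE m q e (lev st w m q N ω i y)) (toE m q e (lev st w m q N ω i y'))
    unfold lev at h1 ⊢
    rw [toE_update_sub, norm_smul, Real.norm_eq_abs, abs_of_pos (inv_pos.2 hp)] at h1
    have h2 := mul_le_mul_of_nonneg_left h1 hp.le
    have h3 : (q : ℝ) ^ (i : ℕ) * (L * (((q : ℝ) ^ (i : ℕ))⁻¹ * ‖e i (y - y')‖)) =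
        L * ‖e i (y - y')‖ := by field_simp
    rw [h3] at h2
    exact h2.trans (mul_le_mul_of_nonneg_left (H1 _ _) hL)
  refine (Finset.sum_le_sum fun i _ => this i).trans ?_
  rw [Finset.sum_const, card_univ, Fintype.card_fin, nsmul_eq_mul, mul_comm]

theorem nst_succ (hq : 0 < q) (hN : 0 < N) (i : Fin m) :
    nst m q N i + 1 = N * q ^ (m - i) := by
  unfold nst
  have : 0 < N * q ^ (m - i) := by positivity
  omega

theorem nst_pos (hq : 2 ≤ q) (hN : 0 < N) (i : Fin m) : 1 ≤ nst m q N i := by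
  have h1 := nst_succ (m := m) (by omega : 0 < q) hN i
  have h2 : q ^ 1 ≤ q ^ (m - i) := Nat.pow_le_pow_right (by omega) (by omega)
  have h3 : 1 * q ^ (m - i) ≤ N * q ^ (m - i) := Nat.mul_le_mul_right _ hN
  rw [pow_one] at h2
  omega

theorem QQ_wire (hm : 0 < m) (hq : 2 ≤ q) (hN : 0 < N) {nn : Y → ℝ}
    (H1 : ∀ i y, ‖e i y‖ ≤ nn y)
    (H2 : ∀ (c : Fin m → ℝ) (y : Y) (δ : ℝ), (∀ i, |c i| ≤ δ) →
      ‖∑ i, c i • e i y‖ ≤ Real.sqrt m * δ * nn y)
    {f : E → ℝ} {L : ℝ} (hL : 0 ≤ L) (hf : ∀ x x', |f x - f x'| ≤ L * ‖x - x'‖) (σ : Sg) :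
    |QQ st w m q N e f (st σ + w σ) - QQ st w m q N e f (st σ)| ≤
      L * (Fintype.card Sg * 2 * nn (w σ) * (1 / Real.sqrt m + 2 * m / N)) := by
  have hm' : (0 : ℝ) < m := by exact_mod_cast hm
  have hq' : (0 : ℝ) < q := by exact_mod_cast (by omega : 0 < q)
  have hN' : (0 : ℝ) < N := by exact_mod_cast hN
  have hnn : 0 ≤ nn (w σ) := (norm_nonneg _).trans (H1 ⟨0, hm⟩ _)
  have hS : (1 : ℝ) ≤ Fintype.card Sg := by exact_mod_cast Fintype.card_pos
  let u : ∀ i, Smp Sg m q N i → Smp Sg m q N i := fun i a =>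
    if a.1 = σ then (a.1, capSucc a.2) else a
  let s : ∀ i, Smp Sg m q N i := fun i => (σ, 0)
  let t : ∀ i, Smp Sg m q N i := fun i => (σ, Fin.last _)
  have hu : ∀ i (φ : Smp Sg m q N i → ℝ), ∑ a, φ (u i a) - ∑ a, φ a = φ (t i) - φ (s i) := by
    intro i φ
    rw [Fintype.sum_prod_type, Fintype.sum_prod_type, ← Finset.sum_sub_distrib,
      Finset.sum_eq_single σ]
    · simp only [u, if_true]
      exact sum_capSucc (fun k => φ (σ, k))
    · intro τ _ hτ
      simp [u, hτ]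
    · simp
  set h : ℝ := ((N : ℝ) * (q : ℝ) ^ m)⁻¹ with hh
  have hh0 : 0 < h := by positivity
  have hcard : ∀ i : Fin m, (Fintype.card (Smp Sg m q N i) : ℝ) =
      Fintype.card Sg * (N * (q : ℝ) ^ (m - i)) := by
    intro i
    rw [Fintype.card_prod, Fintype.card_fin, nst_succ (by omega) hN]
    push_cast; ring
  have hpow : ∀ i : Fin m, (q : ℝ) ^ m = (q : ℝ) ^ (m - i) * (q : ℝ) ^ (i : ℕ) := by
    intro i; rw [← pow_add]; congr 1; omega
  -- one step
  have hstep : ∀ (i : Fin m) (a : Smp Sg m q N i), ∃ c : ℝ, |c| ≤ 2 * h ∧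
      ((q : ℝ) ^ (i : ℕ))⁻¹ • pos0 st w m q N i (u i a) =
        ((q : ℝ) ^ (i : ℕ))⁻¹ • pos0 st w m q N i a + c • w σ := by
    intro i a
    by_cases ha : a.1 = σ
    · rcases capSucc_val a.2 with h1 | h1
      · have n1 : (1 : ℝ) ≤ nst m q N i := by exact_mod_cast nst_pos hq hN i
        have n2 : (nst m q N i : ℝ) + 1 = N * (q : ℝ) ^ (m - i) := by
          exact_mod_cast nst_succ (by omega) hN i
        refine ⟨((q : ℝ) ^ (i : ℕ))⁻¹ * (nst m q N i : ℝ)⁻¹, ?_, ?_⟩
        · rw [abs_of_pos (by positivity), hh, hpow i, ← mul_assoc, ← n2, mul_inv, ← mul_assoc,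
            mul_comm]
          refine mul_le_mul_of_nonneg_right ?_ (by positivity)
          rw [← div_eq_mul_inv, inv_eq_one_div, div_le_div_iff₀ (by positivity) (by positivity)]
          linarith
        · simp only [u, if_pos ha, pos0, h1, ha]
          push_cast
          rw [add_div, add_smul, ← add_assoc, smul_add _ (st σ + _), smul_smul, one_div]
      · refine ⟨0, by rw [abs_zero]; positivity, ?_⟩
        simp only [u, if_pos ha, h1, zero_smul, add_zero]
    · refine ⟨0, by rw [abs_zero]; positivity, ?_⟩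
      simp only [u, if_neg ha, zero_smul, add_zero]
  choose cs hcs1 hcs2 using hstep
  let F : (∀ j, Smp Sg m q N j) → ℝ := fun ω => f (toE m q e fun j => pos0 st w m q N j (ω j))
  have hF : ∀ i ω, |F (sh u i ω) - F ω| ≤ L * (2 * h * nn (w σ)) := by
    intro i ω
    refine (hf _ _).trans (mul_le_mul_of_nonneg_left ?_ hL)
    have : (toE m q e fun j => pos0 st w m q N j (sh u i ω j)) -
        (toE m q e fun j => pos0 st w m q N j (ω j)) = cs i (ω i) • e i (w σ) := by
      unfold toE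
      rw [← Finset.sum_sub_distrib, Finset.sum_eq_single i]
      · simp only [sh, update_self, hcs2, map_add, add_sub_cancel_left, map_smul]
      · intro j _ hj; simp [sh, hj]
      · simp
    rw [this, norm_smul, Real.norm_eq_abs]
    exact mul_le_mul (hcs1 _ _) (H1 _ _) (norm_nonneg _) (by positivity)
  have hF' : ∀ ω, |F (shS u univ ω) - F ω| ≤ L * (Real.sqrt m * (2 * h) * nn (w σ)) := by
    intro ω
    refine (hf _ _).trans (mul_le_mul_of_nonneg_left ?_ hL)
    have : (toE m q e fun j => pos0 st w m q N j (shS u univ ω j)) -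
        (toE m q e fun j => pos0 st w m q N j (ω j)) = ∑ i, cs i (ω i) • e i (w σ) := by
      unfold toE
      rw [← Finset.sum_sub_distrib]
      refine Finset.sum_congr rfl fun i _ => ?_
      simp only [shS, mem_univ, if_true, hcs2, map_add, add_sub_cancel_left, map_smul]
    rw [this]
    exact H2 _ _ _ fun i => hcs1 _ _
  have hε : ∀ i : Fin m, 2 ≤ 2 / (N : ℝ) * Fintype.card (Smp Sg m q N i) := by
    intro i
    rw [hcard]
    have h1 : (1 : ℝ) ≤ (q : ℝ) ^ (m - i) := one_le_pow₀ (by exact_mod_cast (by omega : 1 ≤ q))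
    have h2 : 2 / (N : ℝ) * (Fintype.card Sg * (N * (q : ℝ) ^ (m - i))) =
        2 * (Fintype.card Sg * (q : ℝ) ^ (m - i)) := by field_simp
    rw [h2]; nlinarith
  have key := abs_sum_ends u s t hu (by positivity) (by positivity) hε hF univ hF'
  have e1 : ∀ (ω : ∀ j, Smp Sg m q N j) (i : Fin m), F (update ω i (t i)) =
      f (toE m q e (lev st w m q N ω i (st σ + w σ))) := by
    intro ω i
    simp only [F, lev]
    congr 2
    funext j
    by_cases hj : j = i
    · subst hj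
      have n1 : (0 : ℝ) < nst m q N j := by exact_mod_cast nst_pos hq hN j
      simp only [update_self, pos0, t, Fin.val_last]
      rw [div_self n1.ne', one_smul]
    · simp [hj]
  have e2 : ∀ (ω : ∀ j, Smp Sg m q N j) (i : Fin m), F (update ω i (s i)) =
      f (toE m q e (lev st w m q N ω i (st σ))) := by
    intro ω i
    simp only [F, lev]
    congr 2
    funext j
    by_cases hj : j = i
    · subst hj
      simp [pos0, s]
    · simp [hj]
  simp only [e1, e2, hcard, card_univ, Fintype.card_fin] at key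
  have e3 : QQ st w m q N e f (st σ + w σ) - QQ st w m q N e f (st σ) =
      (Fintype.card Sg / (h * m)) * ∑ i : Fin m,
        (av (fun ω : ∀ j, Smp Sg m q N j => f (toE m q e (lev st w m q N ω i (st σ + w σ)))) -
          av (fun ω : ∀ j, Smp Sg m q N j => f (toE m q e (lev st w m q N ω i (st σ))))) /
            (Fintype.card Sg * (N * (q : ℝ) ^ (m - i))) := by
    unfold QQ
    rw [← sub_div, ← Finset.sum_sub_distrib, Finset.sum_div, Finset.mul_sum]
    refine Finset.sum_congr rfl fun i _ => ?_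
    rw [hh, hpow i]
    field_simp
  rw [e3, abs_mul, abs_of_pos (by positivity)]
  refine (mul_le_mul_of_nonneg_left key (by positivity)).trans (le_of_eq ?_)
  have hs : 0 < Real.sqrt m := Real.sqrt_pos.2 hm'
  have hs2 : (m : ℝ) = Real.sqrt m * Real.sqrt m := (Real.mul_self_sqrt hm'.le).symm
  set r := Real.sqrt m
  rw [hs2]
  field_simp

theorem QQ_val (hm : 0 < m) (hq : 0 < q) {f : E → ℝ} {J : Y → ℝ} {y y' : Y}
    (hf : ∀ (ω : ∀ j, Smp Sg m q N j) (i : Fin m) (z : Y), z = y ∨ z = y' →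
      f (toE m q e (lev st w m q N ω i z)) =
        ∑ j : Fin m, ((q : ℝ) ^ (j : ℕ))⁻¹ * J (lev st w m q N ω i z j)) :
    QQ st w m q N e f y - QQ st w m q N e f y' = J y - J y' := by
  have hm' : (0 : ℝ) < m := by exact_mod_cast hm
  have hq' : (0 : ℝ) < q := by exact_mod_cast hq
  unfold QQ
  rw [← sub_div, ← Finset.sum_sub_distrib, div_eq_iff hm'.ne']
  have : ∀ i : Fin m, (q : ℝ) ^ (i : ℕ) *
      av (fun ω : ∀ j, Smp Sg m q N j => f (toE m q e (lev st w m q N ω i y))) -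
      (q : ℝ) ^ (i : ℕ) *
      av (fun ω : ∀ j, Smp Sg m q N j => f (toE m q e (lev st w m q N ω i y'))) = J y - J y' := by
    intro i
    have hp : (0 : ℝ) < (q : ℝ) ^ (i : ℕ) := by positivity
    rw [← mul_sub, ← av_sub, ← av_mul, ← av_const (Ω := ∀ j, Smp Sg m q N j) (J y - J y')]
    congr 1
    funext ω
    rw [hf ω i y (Or.inl rfl), hf ω i y' (Or.inr rfl), ← Finset.sum_sub_distrib,
      Finset.sum_eq_single i]
    · simp only [lev, update_self]; field_simp
    · intro j _ hj; simp [lev, hj]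
    · simp
  simp only [this]
  rw [Finset.sum_const, card_univ, Fintype.card_fin, nsmul_eq_mul, mul_comm]

end P

end Pool.Agent.H585Z.LF
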