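import Mathlib
import Pool.Agent.H585Z.LF.Multi
import Pool.Agent.Helper799.DvMain

set_option autoImplicit false
set_option linter.unusedSectionVars false

/-! Every finite metric space has its Lipschitz space uniformly complemented in the Lipschitz
space of any infinite-dimensional normed space. -/

namespace Pool.Agent.H585Z.LF

open Finset Function

/-- pairing of a finitely supported measure with a function -/
noncomputable abbrev pr {E : Type} (μ : E →₀ ℝ) (f : E → ℝ) : ℝ :=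
  Finsupp.linearCombination ℝ f μ

theorem pr_congr {E : Type} (μ : E →₀ ℝ) {f g : E → ℝ} (h : ∀ x ∈ μ.support, f x = g x) :
    pr μ f = pr μ g := by
  unfold pr
  rw [Finsupp.linearCombination_apply, Finsupp.linearCombination_apply]
  exact Finsupp.sum_congr fun x hx => by rw [h x hx]

theorem pr_add {E : Type} (μ : E →₀ ℝ) (f g : E → ℝ) : pr μ (f + g) = pr μ f + pr μ g := by
  unfold pr
  simp only [Finsupp.linearCombination_apply, Pi.add_apply, smul_add, Finsupp.sum_add]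

theorem pr_smul {E : Type} (μ : E →₀ ℝ) (c : ℝ) (f : E → ℝ) : pr μ (c • f) = c * pr μ f := by
  unfold pr
  simp only [Finsupp.linearCombination_apply, Pi.smul_apply, smul_eq_mul, Finsupp.mul_sum]
  exact Finsupp.sum_congr fun x _ => by ring

/-- the pairing as a linear functional -/
noncomputable def prL {E : Type} (μ : E →₀ ℝ) : (E → ℝ) →ₗ[ℝ] ℝ where
  toFun := pr μ
  map_add' := pr_add μ
  map_smul' := pr_smul μ

variable {E : Type} [NormedAddCommGroup E] [NormedSpace ℝ E]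

theorem exists_frame (hE : ¬ FiniteDimensional ℝ E) (K : Type) [Fintype K] [DecidableEq K]
    (m : ℕ) : ∃ (e : Fin m → (K → ℝ) →ₗ[ℝ] E) (β : Fin m → E →ₗ[ℝ] (K → ℝ)),
      (∀ i j y, β i (e j y) = if j = i then y else 0) ∧ (∀ i x, ‖β i x‖ ≤ ‖x‖) ∧
      (∀ i y, ‖e i y‖ ≤ 22 * ∑ k, |y k|) ∧
      ∀ (c : Fin m → ℝ) (y : K → ℝ) (δ : ℝ), (∀ i, |c i| ≤ δ) →
        ‖∑ i, c i • e i y‖ ≤ Real.sqrt m * δ * (22 * ∑ k, |y k|) := by
  obtain ⟨T0, hT0⟩ := Pool.Helper799.Te.dvoretzky (𝕜 := ℝ) hE (Fintype.card (Fin m × K))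
  let φ := LinearIsometryEquiv.piLpCongrLeft 2 ℝ ℝ (Fintype.equivFin (Fin m × K))
  let T : EuclideanSpace ℝ (Fin m × K) →ₗ[ℝ] E := T0.toLinearMap ∘ₗ φ.toLinearEquiv.toLinearMap
  have hT : ∀ x, ‖x‖ ≤ ‖T x‖ ∧ ‖T x‖ ≤ 22 * ‖x‖ := by
    intro x
    have := hT0 (φ x)
    rw [φ.norm_map] at this
    exact this
  have hinj : Injective T := by
    rw [injective_iff_map_eq_zero]
    intro x hx
    have := (hT x).1
    rw [hx, norm_zero] at this
    exact norm_le_zero_iff.1 this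
  have hfun : ∀ p : Fin m × K, ∃ g : E →ₗ[ℝ] ℝ, (∀ x, g (T x) = x p) ∧ ∀ x, |g x| ≤ ‖x‖ := by
    intro p
    let g0 : LinearMap.range T →ₗ[ℝ] ℝ :=
      (EuclideanSpace.projₗ p) ∘ₗ (LinearEquiv.ofInjective T hinj).symm.toLinearMap
    have hg0 : ∀ x, g0 (LinearEquiv.ofInjective T hinj x) = x p := by
      intro x; simp [g0]
    have hb : ∀ z, ‖g0 z‖ ≤ 1 * ‖z‖ := by
      intro z
      obtain ⟨x, rfl⟩ := (LinearEquiv.ofInjective T hinj).surjective z
      rw [hg0, one_mul]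
      exact (PiLp.norm_apply_le x p).trans (hT x).1
    obtain ⟨g, hg1, hg2⟩ := exists_extension_norm_eq (LinearMap.range T) (g0.mkContinuous 1 hb)
    refine ⟨g.toLinearMap, fun x => ?_, fun x => ?_⟩
    · have := hg1 (LinearEquiv.ofInjective T hinj x)
      rw [LinearMap.mkContinuous_apply, hg0] at this
      exact this
    · have h1 : ‖g‖ ≤ 1 := hg2 ▸ LinearMap.mkContinuous_norm_le _ zero_le_one _
      have h2 := g.le_opNorm x
      calc |g x| ≤ ‖g‖ * ‖x‖ := h2
        _ ≤ 1 * ‖x‖ := mul_le_mul_of_nonneg_right h1 (norm_nonneg _)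
        _ = ‖x‖ := one_mul _
  choose g hg1 hg2 using hfun
  let e0 : Fin m → (K → ℝ) →ₗ[ℝ] EuclideanSpace ℝ (Fin m × K) := fun i =>
    { toFun := fun y => WithLp.toLp 2 (fun p => if p.1 = i then y p.2 else 0)
      map_add' := by
        intro y y'; ext p
        by_cases h : p.1 = i <;> simp [h]
      map_smul' := by
        intro c y; ext p
        by_cases h : p.1 = i <;> simp [h] }
  have key : ∀ (c : Fin m → ℝ) (y : K → ℝ),
      ‖∑ i, c i • (T ∘ₗ e0 i) y‖ ≤ Real.sqrt (∑ i, c i ^ 2) * (22 * ∑ k, |y k|) := by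
    intro c y
    have h1 : ∑ i, c i • (T ∘ₗ e0 i) y = T (WithLp.toLp 2 fun p => c p.1 * y p.2) := by
      simp only [LinearMap.comp_apply, ← map_smul, ← map_sum]
      congr 1
      ext p
      simp [e0, Finset.sum_apply]
    rw [h1]
    refine (hT _).2.trans ?_
    rw [EuclideanSpace.norm_eq]
    have h2 : ∑ p : Fin m × K, ‖c p.1 * y p.2‖ ^ 2 = (∑ i, c i ^ 2) * ∑ k, |y k| ^ 2 := by
      rw [Fintype.sum_prod_type, Finset.sum_mul_sum]
      refine Finset.sum_congr rfl fun i _ => Finset.sum_congr rfl fun k _ => ?_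
      rw [Real.norm_eq_abs, abs_mul, mul_pow, sq_abs]
    have h3 : Real.sqrt (∑ k, |y k| ^ 2) ≤ ∑ k, |y k| := by
      apply Real.sqrt_le_iff.2
      exact ⟨Finset.sum_nonneg fun _ _ => abs_nonneg _,
        Finset.sum_sq_le_sq_sum_of_nonneg fun _ _ => abs_nonneg _⟩
    change 22 * Real.sqrt (∑ p : Fin m × K, ‖c p.1 * y p.2‖ ^ 2) ≤ _
    rw [h2, Real.sqrt_mul (Finset.sum_nonneg fun _ _ => sq_nonneg _)]
    nlinarith [Real.sqrt_nonneg (∑ i, c i ^ 2)]
  refine ⟨fun i => T ∘ₗ e0 i, fun i => LinearMap.pi fun k => g (i, k), ?_, ?_, ?_, ?_⟩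
  · intro i j y
    funext k
    simp only [LinearMap.pi_apply, LinearMap.comp_apply, hg1]
    by_cases h : j = i
    · subst h; simp [e0]
    · simp [e0, h, Ne.symm h]
  · intro i x
    exact (pi_norm_le_iff_of_nonneg (norm_nonneg _)).2 fun k => hg2 _ _
  · intro i y
    have := key (Pi.single i 1) y
    rw [Finset.sum_eq_single i (fun j _ hj => by simp [hj]) (by simp),
      Finset.sum_eq_single i (fun j _ hj => by simp [hj]) (by simp)] at this
    simpa using this
  · intro c y δ hc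
    refine (key c y).trans (mul_le_mul_of_nonneg_right ?_ (by positivity))
    rcases Nat.eq_zero_or_pos m with h | h
    · subst h; simp
    have hδ : 0 ≤ δ := (abs_nonneg _).trans (hc ⟨0, h⟩)
    apply Real.sqrt_le_iff.2
    refine ⟨by positivity, ?_⟩
    rw [mul_pow, Real.sq_sqrt (Nat.cast_nonneg _)]
    calc ∑ i, c i ^ 2 ≤ ∑ _i : Fin m, δ ^ 2 :=
          Finset.sum_le_sum fun i _ => sq_le_sq' (abs_le.1 (hc i)).1 (abs_le.1 (hc i)).2
      _ = m * δ ^ 2 := by simp

theorem core0 (hE : ¬ FiniteDimensional ℝ E) {V : Type} [Fintype V] (d : V → V → ℝ)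
    (hd : ∀ u v, u ≠ v → 0 < d u v) (hd0 : ∀ v, d v v = 0) (v0 : V) :
    ∃ (J : (V → ℝ) →ₗ[ℝ] (E → ℝ)) (μ : V → E →₀ ℝ) (B : ℝ), 0 ≤ B ∧
      (∀ g L, 0 ≤ L → g v0 = 0 → (∀ u v, |g u - g v| ≤ L * d u v) →
        (∀ x, |J g x| ≤ B * L) ∧ ∀ x y, |J g x - J g y| ≤ 23 * L * ‖x - y‖) ∧
      μ v0 = 0 ∧
      (∀ f L, 0 ≤ L → (∀ x y, |f x - f y| ≤ L * ‖x - y‖) →
        ∀ u v, |pr (μ u) f - pr (μ v) f| ≤ 23 * L * d u v) ∧
      ∀ g v, pr (μ v) (J g) = g v - g v0 := by
  classical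
  have : Nonempty V := ⟨v0⟩
  have hdn : ∀ u v, 0 ≤ d u v := fun u v => by
    by_cases h : u = v
    · rw [h, hd0]
    · exact (hd u v h).le
  -- the constants of the metric
  obtain ⟨D, hD, hDd⟩ : ∃ D : ℝ, 0 < D ∧ ∀ u v, d u v ≤ D := by
    obtain ⟨p, hp⟩ := Finite.exists_max (fun p : V × V => d p.1 p.2)
    exact ⟨d p.1 p.2 + 1, by linarith [hdn p.1 p.2], fun u v => by linarith [hp (u, v)]⟩
  obtain ⟨ρ, hρ, hρD, hρd⟩ : ∃ ρ : ℝ, 0 < ρ ∧ 2 * ρ ≤ D ∧ ∀ u v, u ≠ v → 16 * ρ ≤ d u v := by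
    obtain ⟨p, hp⟩ := Finite.exists_min (fun p : V × V => if p.1 = p.2 then D else d p.1 p.2)
    have h0 : 0 < (if p.1 = p.2 then D else d p.1 p.2) := by
      split_ifs with h
      · exact hD
      · exact hd _ _ h
    refine ⟨(if p.1 = p.2 then D else d p.1 p.2) / 16, by positivity, ?_, fun u v h => ?_⟩
    · have := hp (v0, v0)
      simp only [if_true] at this
      linarith
    · have := hp (u, v)
      simp only [if_neg h] at this
      linarith
  let st : (V × V) × Bool → KK V → ℝ := fun σ => hubPt D (wcls σ)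
  let w : (V × V) × Bool → KK V → ℝ := fun σ => wend d D σ - hubPt D (wcls σ)
  let nn : (KK V → ℝ) → ℝ := fun y => 22 * ∑ k, |y k|
  have hnn : ∀ y, 0 ≤ nn y := fun y => by positivity
  obtain ⟨Wm, hWm, hW⟩ : ∃ Wm : ℝ, 0 < Wm ∧ ∀ σ,
      (Fintype.card ((V × V) × Bool) : ℝ) * 2 * nn (w σ) ≤ Wm := by
    obtain ⟨p, hp⟩ := Finite.exists_max
      (fun σ => (Fintype.card ((V × V) × Bool) : ℝ) * 2 * nn (w σ))
    refine ⟨(Fintype.card ((V × V) × Bool) : ℝ) * 2 * nn (w p) + 1, ?_, fun σ => ?_⟩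
    · have := hnn (w p); positivity
    · linarith [hp σ]
  -- the parameters
  obtain ⟨m, hm, hm'⟩ : ∃ m : ℕ, 0 < m ∧ Wm / ρ ≤ Real.sqrt m := by
    obtain ⟨m, hm⟩ := exists_nat_gt ((Wm / ρ) ^ 2)
    refine ⟨m, ?_, Real.le_sqrt_of_sq_le hm.le⟩
    have : (0 : ℝ) < m := lt_of_le_of_lt (sq_nonneg _) hm
    exact_mod_cast this
  have hmr : (0 : ℝ) < m := by exact_mod_cast hm
  obtain ⟨N, hN'⟩ := exists_nat_gt (2 * m * Wm / ρ)
  have hNr : (0 : ℝ) < N := lt_trans (by positivity) hN'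
  have hN : 0 < N := by exact_mod_cast hNr
  obtain ⟨q, hq'⟩ := exists_nat_gt (2 + 16 * D * m / ρ)
  have hq1 : 0 ≤ 16 * D * m / ρ := by positivity
  have hqr : (2 : ℝ) ≤ q := by linarith
  have hq : 2 ≤ q := by exact_mod_cast hqr
  have hq0 : (0 : ℝ) < q := by linarith
  obtain ⟨e, β, hβe, hβ, H1, H2⟩ := exists_frame hE (KK V) m
  let W : Set (KK V → ℝ) := {y | ∃ σ t, y = wpt d D σ t}
  obtain ⟨χ, hχ1, hχW, hχl, hχn⟩ := exists_gate W ⟨_, ((v0, v0), true), 0, rfl⟩ hρ
  let βall : E → Fin m → KK V → ℝ := fun x i => β i x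
  let J : (V → ℝ) →ₗ[ℝ] (E → ℝ) :=
    LinearMap.funLeft ℝ ℝ βall ∘ₗ GLin χ q m ∘ₗ J0 d D
  have hJ : ∀ g x, J g x = GG χ q (J0 d D g) m (fun i => β i x) := fun _ _ => rfl
  let μ0 : (KK V → ℝ) → E →₀ ℝ := fun y => ∑ i : Fin m,
    ∑ ω : ∀ j, Smp ((V × V) × Bool) m q N j, Finsupp.single (toE m q e (lev st w m q N ω i y))
      ((q : ℝ) ^ (i : ℕ) / (Fintype.card (∀ j, Smp ((V × V) × Bool) m q N j) * m))
  have hμ0 : ∀ y f, pr (μ0 y) f = QQ st w m q N e f y := by
    intro y f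
    simp only [μ0, pr, map_sum, Finsupp.linearCombination_single, smul_eq_mul, QQ, av,
      Finset.sum_div, Finset.mul_sum]
    refine Finset.sum_congr rfl fun i _ => Finset.sum_congr rfl fun ω _ => ?_
    field_simp
  have hnear : ∀ (g : V → ℝ) σ t, J0 d D g (wpt d D σ t) = g (wcls σ) := fun g σ t =>
    J0_near hD hρ hρD hρd g σ (t := t) (by simpa using hρ.le)
  have hhub : ∀ v, hubPt D v = wpt d D ((v, v), true) 0 := by
    intro v; simp [wpt, wcls]
  refine ⟨J, fun v => μ0 (hubPt D v) - μ0 (hubPt D v0), 4 * D, by positivity, ?_, sub_self _,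
    ?_, ?_⟩
  · intro g L hL hg0 hg
    have hb : ∀ v, |g v| ≤ L * D := by
      intro v
      have := hg v v0
      rw [hg0, sub_zero] at this
      exact this.trans (mul_le_mul_of_nonneg_left (hDd _ _) hL)
    have hB : ∀ y, |J0 d D g y| ≤ 2 * (L * D) := fun y => (J0_bounds hD hdn hL hg hb y y).1
    constructor
    · intro x
      rw [hJ]
      refine (GG_bound hχ1 hqr hB _ _).trans (le_of_eq (by ring))
    · intro x y
      rw [hJ, hJ]
      refine (GG_lip hχ1 hqr hρ (C := 22 * L) (by positivity) hB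
        (fun y y' => (J0_bounds hD hdn hL hg hb y y').2) hχl ?_ m _ _ ‖x - y‖ (norm_nonneg _)
        (fun i => by rw [← map_sub]; exact hβ _ _)).trans ?_
      · intro y y' h1 h2
        obtain ⟨_, ⟨σ, t, rfl⟩, h3⟩ := hχn y h1
        have h4 : ‖y' - wpt d D σ t‖ ≤ ρ := by
          have := norm_sub_le_norm_sub_add_norm_sub y' y (wpt d D σ t)
          rw [norm_sub_rev y' y] at this
          linarith
        rw [J0_near hD hρ hρD hρd g σ h4, J0_near hD hρ hρD hρd g σ (h3.trans (by linarith))]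
      · refine mul_le_mul_of_nonneg_right ?_ (norm_nonneg _)
        have h1 : m * (8 * (2 * (L * D)) / (q * ρ)) = L * ((16 * D * m / ρ) / q) := by
          field_simp; ring
        have h2 : (16 * D * m / ρ) / q ≤ 1 := by rw [div_le_one hq0]; linarith
        rw [h1]
        nlinarith
  · intro f L hL hf u v
    by_cases huv : u = v
    · rw [huv, sub_self, abs_zero, hd0, mul_zero]
    have hw : ∀ σ, |QQ st w m q N e f (wend d D σ) - QQ st w m q N e f (hubPt D (wcls σ))| ≤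
        L * (2 * ρ) := by
      intro σ
      have h1 := QQ_wire (st := st) (w := w) hm hq hN (nn := nn) H1 H2 hL hf σ
      have h2 : st σ + w σ = wend d D σ := by simp [st, w]
      rw [h2] at h1
      refine h1.trans (mul_le_mul_of_nonneg_left ?_ hL)
      have hs : 0 < Real.sqrt m := Real.sqrt_pos.2 hmr
      have h3 : Wm * (1 / Real.sqrt m) ≤ ρ := by
        rw [div_le_iff₀ hρ] at hm'
        rw [mul_one_div, div_le_iff₀ hs]; linarith
      have h4 : Wm * (2 * m / N) ≤ ρ := by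
        rw [div_lt_iff₀ hρ] at hN'
        rw [← mul_div_assoc, div_le_iff₀ hNr]; linarith
      have h5 := mul_le_mul_of_nonneg_right (hW σ)
        (by positivity : 0 ≤ 1 / Real.sqrt m + 2 * m / N)
      linarith
    have h1 := hw ((u, v), false)
    have h2 := hw ((u, v), true)
    have h3 := QQ_lip (st := st) (w := w) (N := N) hm (by omega : 0 < q) (nn := nn) H1 hL hf
      (wend d D ((u, v), true)) (wend d D ((u, v), false))
    rw [wend_sub] at h3
    have h4 : nn (Pi.single (Sum.inr (Sum.inr ())) (d u v)) = 22 * d u v := by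
      simp only [nn]
      rw [Finset.sum_eq_single (Sum.inr (Sum.inr ())) (fun k _ hk => by simp [hk]) (by simp)]
      simp [abs_of_nonneg (hdn u v)]
    rw [h4] at h3
    have e1 : wcls ((u, v), false) = u := rfl
    have e2 : wcls ((u, v), true) = v := rfl
    rw [e1] at h1
    rw [e2] at h2
    simp only [pr, map_sub]
    have := hμ0
    simp only [pr] at this
    simp only [this]
    have h5 := mul_le_mul_of_nonneg_left (hρd u v huv) hL
    have h6 : 0 ≤ L * ρ := by positivity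
    rw [abs_le] at h1 h2 h3 ⊢
    constructor <;> linarith [h1.1, h1.2, h2.1, h2.2, h3.1, h3.2]
  · intro g v
    simp only [pr, map_sub]
    have := hμ0
    simp only [pr] at this
    simp only [this]
    rw [QQ_val (J := J0 d D g) hm (by omega : 0 < q), hhub, hhub, hnear, hnear]
    · rfl
    intro ω i z hz
    have h1 : ∀ j : Fin m, (q : ℝ) ^ (j : ℕ) • β j (toE m q e (lev st w m q N ω i z)) =
        lev st w m q N ω i z j := by
      intro j
      unfold toE
      rw [map_sum, Finset.sum_eq_single j]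
      · rw [hβe, if_pos rfl, smul_smul, mul_inv_cancel₀ (by positivity), one_smul]
      · intro k _ hk; rw [hβe, if_neg hk]
      · simp
    rw [hJ, GG_val hq0.ne']
    · simp only [h1]
    · intro j
      rw [h1]
      apply hχW
      unfold lev
      by_cases hj : j = i
      · subst hj
        rw [update_self]
        rcases hz with rfl | rfl
        · exact ⟨_, _, hhub _⟩
        · exact ⟨_, _, hhub _⟩
      · rw [update_of_ne hj]
        exact ⟨_, _, rfl⟩

theorem core (hE : ¬ FiniteDimensional ℝ E) {V : Type} [Fintype V] (d : V → V → ℝ)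
    (hd : ∀ u v, u ≠ v → 0 < d u v) (hd0 : ∀ v, d v v = 0) (v0 : V) (c : E) :
    ∃ (J : (V → ℝ) →ₗ[ℝ] (E → ℝ)) (μ : V → E →₀ ℝ),
      (∀ g L, 0 ≤ L → g v0 = 0 → (∀ u v, |g u - g v| ≤ L * d u v) →
        ∀ x y, |J g x - J g y| ≤ 24 * L * ‖x - y‖) ∧
      (∀ g x, 1 ≤ ‖x - c‖ → J g x = 0) ∧
      μ v0 = 0 ∧
      (∀ v f f', (∀ x, ‖x - c‖ < 1 → f x = f' x) → pr (μ v) f = pr (μ v) f') ∧
      (∀ f L, 0 ≤ L → (∀ x y, |f x - f y| ≤ L * ‖x - y‖) →
        ∀ u v, |pr (μ u) f - pr (μ v) f| ≤ 23 * L * d u v) ∧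
      ∀ g v, pr (μ v) (J g) = g v - g v0 := by
  classical
  obtain ⟨J, μ, B, hB, hJ, hμ0, hP, hPJ⟩ := core0 hE d hd hd0 v0
  obtain ⟨R, hR0, hR⟩ : ∃ R : ℝ, 0 ≤ R ∧ ∀ v, ∀ x ∈ (μ v).support, ‖x‖ ≤ R := by
    refine ⟨∑ v, ∑ x ∈ (μ v).support, ‖x‖, by positivity, fun v x hx => ?_⟩
    exact (Finset.single_le_sum (f := fun x => ‖x‖) (fun _ _ => norm_nonneg _) hx).trans
      (Finset.single_le_sum (f := fun v => ∑ x ∈ (μ v).support, ‖x‖)
        (fun _ _ => by positivity) (mem_univ v))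
  set s : ℝ := (2 * (R + B + 1))⁻¹ with hs
  have hs0 : 0 < s := by positivity
  have hs1 : s * (2 * (R + B + 1)) = 1 := inv_mul_cancel₀ (by positivity)
  have hsR : s * R < 1 / 2 := by nlinarith [mul_nonneg hs0.le hB]
  have hsB : s * B ≤ 1 / 2 := by nlinarith [mul_nonneg hs0.le hR0]
  let θ : E → ℝ := fun x => cl (2 - 2 * ‖x - c‖)
  let J' : (V → ℝ) →ₗ[ℝ] (E → ℝ) :=
    { toFun := fun g x => s * J g (s⁻¹ • (x - c)) * θ x
      map_add' := fun g g' => by funext x; simp only [map_add, Pi.add_apply]; ring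
      map_smul' := fun a g => by
        funext x; simp only [map_smul, Pi.smul_apply, smul_eq_mul, RingHom.id_apply]; ring }
  have hJ' : ∀ g x, J' g x = s * J g (s⁻¹ • (x - c)) * θ x := fun _ _ => rfl
  let μ' : V → E →₀ ℝ := fun v => s⁻¹ • Finsupp.mapDomain (fun y => c + s • y) (μ v)
  have hμ' : ∀ v f, pr (μ' v) f = s⁻¹ * pr (μ v) (fun y => f (c + s • y)) := by
    intro v f
    simp only [μ', pr, map_smul, smul_eq_mul, Finsupp.linearCombination_mapDomain]
    rfl
  have hin : ∀ v, ∀ y ∈ (μ v).support, ‖c + s • y - c‖ < 1 / 2 := by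
    intro v y hy
    rw [add_sub_cancel_left, norm_smul, Real.norm_eq_abs, abs_of_pos hs0]
    exact (mul_le_mul_of_nonneg_left (hR v y hy) hs0.le).trans_lt hsR
  refine ⟨J', μ', ?_, ?_, ?_, ?_, ?_, ?_⟩
  · intro g L hL hg0 hg x y
    obtain ⟨h1, h2⟩ := hJ g L hL hg0 hg
    rw [hJ', hJ', mul_comm _ (θ x), mul_comm _ (θ y)]
    refine (abs_mul_sub_mul _ _ _ _).trans ?_
    have h3 : |s * J g (s⁻¹ • (x - c)) - s * J g (s⁻¹ • (y - c))| ≤ 23 * L * ‖x - y‖ := by
      rw [← mul_sub, abs_mul, abs_of_pos hs0]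
      refine (mul_le_mul_of_nonneg_left (h2 _ _) hs0.le).trans (le_of_eq ?_)
      rw [← smul_sub, norm_smul, sub_sub_sub_cancel_right, Real.norm_eq_abs,
        abs_of_pos (inv_pos.2 hs0)]
      field_simp
    have h4 : |θ x - θ y| ≤ 2 * ‖x - y‖ := by
      refine (abs_cl_sub _ _).trans ?_
      have h5 := abs_norm_sub_norm_le (y - c) (x - c)
      rw [sub_sub_sub_cancel_right, norm_sub_rev y x] at h5
      have : 2 - 2 * ‖x - c‖ - (2 - 2 * ‖y - c‖) = 2 * (‖y - c‖ - ‖x - c‖) := by ring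
      rw [this, abs_mul, abs_two]
      linarith
    have h5 : |s * J g (s⁻¹ • (y - c))| ≤ L / 2 := by
      rw [abs_mul, abs_of_pos hs0]
      have := mul_le_mul_of_nonneg_left (h1 (s⁻¹ • (y - c))) hs0.le
      nlinarith
    have h6 := mul_le_mul (abs_cl_le (2 - 2 * ‖x - c‖)) h3 (abs_nonneg _) zero_le_one
    have h7 := mul_le_mul h4 h5 (abs_nonneg _) (by positivity)
    change |cl (2 - 2 * ‖x - c‖)| * _ + _ ≤ _
    linarith
  · intro g x hx
    have : θ x = 0 := cl_of_nonpos (by linarith)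
    rw [hJ', this, mul_zero]
  · simp [μ', hμ0]
  · intro v f f' h
    rw [hμ', hμ', pr_congr (μ v) (g := fun y => f' (c + s • y))]
    intro y hy
    exact h _ ((hin v y hy).trans (by norm_num))
  · intro f L hL hf u v
    rw [hμ', hμ', ← mul_sub, abs_mul, abs_of_pos (inv_pos.2 hs0)]
    have := hP (fun y => f (c + s • y)) (s * L) (by positivity) (fun x y => by
      refine (hf _ _).trans (le_of_eq ?_)
      rw [add_sub_add_left_eq_sub, ← smul_sub, norm_smul, Real.norm_eq_abs, abs_of_pos hs0]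
      ring) u v
    refine (mul_le_mul_of_nonneg_left this (inv_pos.2 hs0).le).trans (le_of_eq ?_)
    field_simp
  · intro g v
    rw [hμ', pr_congr (μ v) (g := s • J g), pr_smul, hPJ]
    · field_simp
    intro y hy
    have : θ (c + s • y) = 1 := cl_of_one_le (by linarith [hin v y hy])
    rw [hJ', this, add_sub_cancel_left, smul_smul, inv_mul_cancel₀ hs0.ne', one_smul, mul_one]
    rfl

end Pool.Agent.H585Z.LF
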