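import Mathlib
import Pool.Agent.H585Z.LF.Core

set_option autoImplicit false
set_option linter.unusedSectionVars false

/-! Sums over separated balls, generalized limits, and the quotient onto `ℓ₁`. -/

namespace Pool.Agent.H585Z.LF

open Finset Function Filter Topology

/-- a finite pointed space with a distance function -/
structure FM : Type 1 where
  V : Type
  fin : Fintype V
  d : V → V → ℝ
  pos : ∀ u v, u ≠ v → 0 < d u v
  self : ∀ v, d v v = 0
  v0 : V

variable {E : Type} [NormedAddCommGroup E] [NormedSpace ℝ E]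

theorem core_sum (hE : ¬ FiniteDimensional ℝ E) {ι : Type} (M : ι → FM) (c : ι → E)
    (hc : ∀ k l, k ≠ l → 2 ≤ ‖c k - c l‖) :
    ∃ (J : (∀ k, (M k).V → ℝ) →ₗ[ℝ] (E → ℝ)) (μ : ∀ k, (M k).V → E →₀ ℝ),
      (∀ g, J g 0 = 0) ∧
      (∀ (g : ∀ k, (M k).V → ℝ) L, 0 ≤ L → (∀ k, g k (M k).v0 = 0) →
        (∀ k u v, |g k u - g k v| ≤ L * (M k).d u v) →
        ∀ x y, |J g x - J g y| ≤ 48 * L * ‖x - y‖) ∧
      (∀ k, μ k (M k).v0 = 0) ∧
      (∀ f L, 0 ≤ L → (∀ x y, |f x - f y| ≤ L * ‖x - y‖) →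
        ∀ k u v, |pr (μ k u) f - pr (μ k v) f| ≤ 23 * L * (M k).d u v) ∧
      ∀ g k v, pr (μ k v) (J g) = g k v - g k (M k).v0 := by
  classical
  have h := fun k => @core E _ _ hE (M k).V (M k).fin (M k).d (M k).pos (M k).self (M k).v0 (c k)
  choose J μ h1 h2 h3 h4 h5 h6 using h
  have huniq : ∀ x k l, ‖x - c k‖ < 1 → ‖x - c l‖ < 1 → k = l := by
    intro x k l hk hl
    by_contra hne
    have := norm_sub_le_norm_sub_add_norm_sub (c k) x (c l)
    rw [norm_sub_rev (c k) x] at this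
    linarith [hc k l hne]
  let J1 : (∀ k, (M k).V → ℝ) →ₗ[ℝ] (E → ℝ) :=
    { toFun := fun g x => if h : ∃ k, ‖x - c k‖ < 1 then J h.choose (g h.choose) x else 0
      map_add' := fun g g' => by
        funext x
        simp only [Pi.add_apply, map_add]
        split_ifs <;> simp
      map_smul' := fun a g => by
        funext x
        simp only [Pi.smul_apply, map_smul, RingHom.id_apply]
        split_ifs <;> simp }
  have hin : ∀ g x k, ‖x - c k‖ < 1 → J1 g x = J k (g k) x := by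
    intro g x k hk
    have h : ∃ k, ‖x - c k‖ < 1 := ⟨k, hk⟩
    have e : h.choose = k := huniq x _ _ h.choose_spec hk
    change (if h : ∃ k, ‖x - c k‖ < 1 then J h.choose (g h.choose) x else 0) = _
    rw [dif_pos h]
    subst e; rfl
  have hout : ∀ g x, (¬ ∃ k, ‖x - c k‖ < 1) → J1 g x = 0 := by
    intro g x h
    change (if h : ∃ k, ‖x - c k‖ < 1 then J h.choose (g h.choose) x else 0) = _
    rw [dif_neg h]
  let J2 : (∀ k, (M k).V → ℝ) →ₗ[ℝ] (E → ℝ) :=
    J1 - (LinearMap.pi fun _ : E => LinearMap.proj (0 : E)) ∘ₗ J1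
  have hJ2 : ∀ g x, J2 g x = J1 g x - J1 g 0 := fun _ _ => rfl
  refine ⟨J2, μ, fun g => sub_self _, ?_, h3, fun f L hL hf k => h5 k f L hL hf, ?_⟩
  · intro g L hL hg0 hg x y
    rw [hJ2, hJ2, sub_sub_sub_cancel_right]
    have hl := fun k => h1 k (g k) L hL (hg0 k) (hg k) x y
    have hn : 0 ≤ 24 * L * ‖x - y‖ := by positivity
    by_cases hx : ∃ k, ‖x - c k‖ < 1
    · obtain ⟨k, hk⟩ := hx
      by_cases hy : ∃ k, ‖y - c k‖ < 1
      · obtain ⟨l, hl'⟩ := hy
        rw [hin g x k hk, hin g y l hl']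
        by_cases e : k = l
        · subst e; linarith [hl k]
        · have a1 := hl k
          have a2 := hl l
          rw [h2 k (g k) y (not_lt.1 fun h => e (huniq y k l h hl'))] at a1
          rw [h2 l (g l) x (not_lt.1 fun h => e (huniq x k l hk h))] at a2
          rw [abs_le] at a1 a2 ⊢
          constructor <;> linarith [a1.1, a1.2, a2.1, a2.2]
      · have a1 := hl k
        rw [h2 k (g k) y (not_lt.1 fun h => hy ⟨k, h⟩)] at a1
        rw [hin g x k hk, hout g y hy]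
        linarith
    · by_cases hy : ∃ k, ‖y - c k‖ < 1
      · obtain ⟨l, hl'⟩ := hy
        have a1 := hl l
        rw [h2 l (g l) x (not_lt.1 fun h => hx ⟨l, h⟩)] at a1
        rw [hin g y l hl', hout g x hx]
        linarith
      · rw [hout g x hx, hout g y hy, sub_self, abs_zero]; positivity
  · intro g k v
    have hm : pr (μ k v) (fun _ => 1) = 0 := by
      have := h5 k (fun _ => 1) 0 le_rfl (by simp) v (M k).v0
      rw [h3] at this
      simpa using this
    have e : pr (μ k v) (J2 g) = pr (μ k v) (J k (g k) + (- J1 g 0) • fun _ => (1 : ℝ)) := by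
      apply h4
      intro x hx
      rw [hJ2, hin g x k hx]
      simp [sub_eq_add_neg]
    rw [e, pr_add, pr_smul, hm, h6]
    simp

theorem exists_glim {ι : Type} (l : Filter ι) [l.NeBot] : ∃ Λ : (ι → ℝ) →ₗ[ℝ] ℝ,
    (∀ a x, Tendsto a l (𝓝 x) → Λ a = x) ∧ ∀ a M, (∀ᶠ i in l, |a i| ≤ M) → |Λ a| ≤ M := by
  let U := Ultrafilter.of l
  have hU : (U : Filter ι) ≤ l := Ultrafilter.of_le l
  let S : Submodule ℝ (ι → ℝ) :=
    { carrier := {a | ∃ x, Tendsto a U (𝓝 x)}
      add_mem' := by rintro a b ⟨x, hx⟩ ⟨y, hy⟩; exact ⟨x + y, hx.add hy⟩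
      zero_mem' := ⟨0, tendsto_const_nhds⟩
      smul_mem' := by rintro r a ⟨x, hx⟩; exact ⟨r • x, hx.const_smul r⟩ }
  let Λ0 : S →ₗ[ℝ] ℝ :=
    { toFun := fun a => a.2.choose
      map_add' := fun a b =>
        tendsto_nhds_unique (a + b).2.choose_spec (a.2.choose_spec.add b.2.choose_spec)
      map_smul' := fun r a =>
        tendsto_nhds_unique (r • a).2.choose_spec (a.2.choose_spec.const_smul r) }
  obtain ⟨Λ, hΛ⟩ := LinearMap.exists_extend Λ0
  have key : ∀ a x, Tendsto a U (𝓝 x) → Λ a = x := by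
    intro a x h
    have h1 : Λ a = Λ0 ⟨a, x, h⟩ := by rw [← hΛ]; rfl
    rw [h1]
    exact tendsto_nhds_unique (show ∃ x, Tendsto a U (𝓝 x) from ⟨x, h⟩).choose_spec h
  refine ⟨Λ, fun a x h => key a x (h.mono_left hU), fun a M h => ?_⟩
  obtain ⟨x, hx, hx'⟩ := (isCompact_Icc (a := -M) (b := M)).ultrafilter_le_nhds (U.map a) (by
    rw [Filter.le_principal_iff]
    exact (h.filter_mono hU).mono fun i hi => abs_le.1 hi)
  rw [key a x hx']
  exact abs_le.2 hx

/-- the grid in the sup metric -/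
noncomputable def grid (n : ℕ) : FM where
  V := Fin n → Fin (2 * n ^ 2 + 1 + 1)
  fin := inferInstance
  d u v := ‖(fun i => ((u i : ℕ) : ℝ) - ((v i : ℕ) : ℝ))‖
  pos u v h := by
    rw [norm_pos_iff]
    intro h0
    apply h
    funext i
    have := congrFun h0 i
    simp only [Pi.zero_apply, sub_eq_zero, Nat.cast_inj] at this
    exact Fin.ext this
  self v := by simp [Pi.zero_def.symm]
  v0 := 0

theorem grid_cube' (n : ℕ) : ∃ ν : Fin n → (Fin n → Fin (2 * n ^ 2 + 1 + 1)) →₀ ℝ,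
    (∀ (g : (Fin n → Fin (2 * n ^ 2 + 1 + 1)) → ℝ) L, 0 ≤ L →
      (∀ u v, |g u - g v| ≤ L * (grid n).d u v) →
      ∀ S : Finset (Fin n), |∑ j ∈ S, pr (ν j) g| ≤ 4 * L) ∧
    ∀ (a : Fin n → ℝ) j, pr (ν j) (fun v => ∑ i, a i * ((v i : ℕ) : ℝ)) = a j := by
  classical
  let N := 2 * n ^ 2 + 1
  have hN : (0 : ℝ) < N := by positivity
  have hN1 : (1 : ℝ) ≤ N := by exact_mod_cast (by omega : 1 ≤ N)
  let ν : Fin n → (Fin n → Fin (N + 1)) →₀ ℝ := fun j =>
    ∑ ω : Fin n → Fin (N + 1), ((Fintype.card (Fin n → Fin (N + 1)) : ℝ) * N)⁻¹ •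
      (Finsupp.single (update ω j (Fin.last N)) 1 - Finsupp.single (update ω j 0) 1)
  have hν : ∀ j (g : (Fin n → Fin (N + 1)) → ℝ), pr (ν j) g =
      (av (fun ω => g (update ω j (Fin.last N))) - av (fun ω => g (update ω j 0))) / N := by
    intro j g
    rw [← av_sub]
    simp only [ν, pr, map_sum, map_smul, map_sub, Finsupp.linearCombination_single, smul_eq_mul,
      one_mul, av, Finset.sum_div]
    refine Finset.sum_congr rfl fun ω _ => ?_
    rw [div_div, div_eq_inv_mul]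
  refine ⟨ν, ?_, ?_⟩
  · intro g L hL hg S
    let u : ∀ _ : Fin n, Fin (N + 1) → Fin (N + 1) := fun _ => capSucc
    have hstep : ∀ ω ω' : Fin n → Fin (N + 1), (∀ i, ω i = ω' i ∨ ω i = capSucc (ω' i)) →
        |g ω - g ω'| ≤ L := by
      intro ω ω' h
      refine (hg _ _).trans ?_
      have : (grid n).d ω ω' ≤ 1 := by
        refine (pi_norm_le_iff_of_nonneg zero_le_one).2 fun i => ?_
        rcases h i with h | h
        · simp [h]
        · rcases capSucc_val (ω' i) with h' | h'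
          · rw [h, h']; simp
          · rw [h, h']; simp
      nlinarith
    have key := abs_sum_ends (A := fun _ : Fin n => Fin (N + 1)) u (fun _ => 0)
      (fun _ => Fin.last N) (fun _ φ => sum_capSucc φ) (ε := 2 / (N + 1)) (M := L) (M' := L)
      (by positivity) hL (fun i => by
        rw [Fintype.card_fin]; push_cast; rw [div_mul_cancel₀ _ (by positivity)]) (F := g)
      (fun i ω => hstep _ _ fun j => by
        by_cases h : j = i
        · subst h; right; simp [sh, u]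
        · left; simp [sh, h]) S
      (fun ω => hstep _ _ fun j => by
        by_cases h : j ∈ S
        · right; simp [shS, u, h]
        · left; simp [shS, h])
    have hS : (S.card : ℝ) ≤ n := by
      have := S.card_le_univ
      rw [Fintype.card_fin] at this
      exact_mod_cast this
    have h1 : (S.card : ℝ) ^ 2 * (2 / (N + 1) * L) ≤ L := by
      have h2 : (S.card : ℝ) ^ 2 ≤ n ^ 2 := pow_le_pow_left₀ (Nat.cast_nonneg _) hS 2
      have h3 : (S.card : ℝ) ^ 2 * (2 / (N + 1)) ≤ 1 := by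
        rw [← mul_div_assoc, div_le_one (by positivity)]
        simp only [N]; push_cast; linarith
      nlinarith
    have e : ∑ j ∈ S, pr (ν j) g = ((N + 1) / N) * ∑ j ∈ S,
        (av (fun ω => g (update ω j (Fin.last N))) - av (fun ω => g (update ω j 0))) /
          Fintype.card (Fin (N + 1)) := by
      rw [Finset.mul_sum]
      refine Finset.sum_congr rfl fun j _ => ?_
      rw [hν, Fintype.card_fin]; push_cast; field_simp; rfl
    rw [e, abs_mul, abs_of_pos (by positivity)]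
    have h4 : ((N : ℝ) + 1) / N ≤ 2 := by rw [div_le_iff₀ hN]; linarith
    calc _ ≤ 2 * (L + L) := mul_le_mul h4 (key.trans (by linarith)) (abs_nonneg _) zero_le_two
      _ = 4 * L := by ring
  · intro a j
    rw [hν, ← av_sub, div_eq_iff hN.ne', ← av_const (Ω := Fin n → Fin (N + 1)) (a j * N)]
    congr 1
    funext ω
    rw [← Finset.sum_sub_distrib, Finset.sum_eq_single j]
    · simp
    · intro i _ hi; simp [hi]
    · simp

theorem grid_cube (n : ℕ) : ∃ ν : Fin n → (grid n).V →₀ ℝ,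
    (∀ (g : (grid n).V → ℝ) L, 0 ≤ L → (∀ u v, |g u - g v| ≤ L * (grid n).d u v) →
      ∀ S : Finset (Fin n), |∑ j ∈ S, pr (ν j) g| ≤ 4 * L) ∧
    ∀ (a : Fin n → ℝ) j, pr (ν j) (fun v => ∑ i, a i * ((v i : ℕ) : ℝ)) = a j := grid_cube' n

/-- uniformly complemented cubes in the free space -/
theorem exists_cubes (hE : ¬ FiniteDimensional ℝ E) :
    ∃ (S : (ℕ → ℝ) →ₗ[ℝ] (E → ℝ)) (ν : ℕ → ℕ → E →₀ ℝ),
      (∀ a, S a 0 = 0) ∧
      (∀ a L, 0 ≤ L → (∀ n, ∑ i ∈ range n, |a i| ≤ L) →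
        ∀ x y, |S a x - S a y| ≤ 48 * L * ‖x - y‖) ∧
      (∀ f L, 0 ≤ L → (∀ x y, |f x - f y| ≤ L * ‖x - y‖) →
        ∀ n (s : Finset ℕ), ∑ j ∈ s, |pr (ν n j) f| ≤ 184 * L) ∧
      ∀ a n j, j < n → pr (ν n j) (S a) = a j := by
  classical
  have : Nontrivial E := by
    by_contra h
    rw [not_nontrivial_iff_subsingleton] at h
    exact hE inferInstance
  obtain ⟨z, hz⟩ := exists_norm_eq E (zero_le_two (α := ℝ))
  obtain ⟨J, μ, h0, h1, h2, h3, h4⟩ := core_sum hE grid (fun k : ℕ => (k : ℝ) • z) (by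
    intro k l hkl
    rw [← sub_smul, norm_smul, hz, Real.norm_eq_abs]
    have : (1 : ℝ) ≤ |(k : ℝ) - l| := by
      have h := Int.one_le_abs (show (k : ℤ) - l ≠ 0 by omega)
      exact_mod_cast h
    linarith)
  choose ν hν1 hν2 using grid_cube
  let G : (ℕ → ℝ) →ₗ[ℝ] (∀ k, (grid k).V → ℝ) :=
    { toFun := fun a k v => ∑ i : Fin k, a i * ((v i : ℕ) : ℝ)
      map_add' := fun a b => by
        funext k v; simp only [Pi.add_apply, add_mul, Finset.sum_add_distrib]
      map_smul' := fun r a => by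
        funext k v
        simp only [Pi.smul_apply, smul_eq_mul, RingHom.id_apply, Finset.mul_sum, mul_assoc] }
  have hG0 : ∀ a k, G a k (grid k).v0 = 0 := by
    intro a k
    change ∑ i : Fin k, a i * (((0 : Fin k → Fin (2 * k ^ 2 + 1 + 1)) i : ℕ) : ℝ) = 0
    simp
  let ν' : ℕ → ℕ → E →₀ ℝ := fun n j =>
    if h : j < n then Finsupp.linearCombination ℝ (μ n) (ν n ⟨j, h⟩) else 0
  have hν' : ∀ n (j : Fin n) f, pr (ν' n j) f = pr (ν n j) (fun v => pr (μ n v) f) := by
    intro n j f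
    simp only [ν', dif_pos j.2, pr]
    rw [Finsupp.apply_linearCombination]
    rfl
  refine ⟨J ∘ₗ G, ν', fun a => h0 _, ?_, ?_, ?_⟩
  · intro a L hL ha
    refine h1 (G a) L hL (hG0 a) fun k u v => ?_
    change |∑ i : Fin k, a i * ((u i : ℕ) : ℝ) - ∑ i : Fin k, a i * ((v i : ℕ) : ℝ)| ≤ _
    rw [← Finset.sum_sub_distrib]
    refine (Finset.abs_sum_le_sum_abs _ _).trans ?_
    have hd : 0 ≤ (grid k).d u v := norm_nonneg _
    calc ∑ i : Fin k, |a i * ((u i : ℕ) : ℝ) - a i * ((v i : ℕ) : ℝ)|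
        ≤ ∑ i : Fin k, |a i| * (grid k).d u v := by
          refine Finset.sum_le_sum fun i _ => ?_
          rw [← mul_sub, abs_mul]
          exact mul_le_mul_of_nonneg_left
            (norm_le_pi_norm (fun i => ((u i : ℕ) : ℝ) - ((v i : ℕ) : ℝ)) i) (abs_nonneg _)
      _ ≤ L * (grid k).d u v := by
          rw [← Finset.sum_mul, Fin.sum_univ_eq_sum_range (fun i => |a i|)]
          exact mul_le_mul_of_nonneg_right (ha k) hd
  · intro f L hL hf n s
    have hb := hν1 n (fun v => pr (μ n v) f) (23 * L) (by positivity) (h3 f L hL hf n)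
    have e1 : ∑ j ∈ s, |pr (ν' n j) f| ≤ ∑ j : Fin n, |pr (ν' n j) f| := by
      rw [Fin.sum_univ_eq_sum_range (fun j => |pr (ν' n j) f|),
        ← Finset.sum_filter_add_sum_filter_not s (fun j => j < n)]
      rw [Finset.sum_eq_zero (s := s.filter fun j => ¬ j < n) (fun j hj => by
        simp [ν', (mem_filter.1 hj).2]), add_zero]
      exact Finset.sum_le_sum_of_subset_of_nonneg
        (fun j hj => mem_range.2 (mem_filter.1 hj).2) fun _ _ _ => abs_nonneg _
    refine e1.trans ?_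
    simp only [hν']
    set t : Fin n → ℝ := fun j => pr (ν n j) (fun v => pr (μ n v) f) with ht
    rw [← Finset.sum_filter_add_sum_filter_not univ (fun j => 0 ≤ t j)]
    have a1 : ∑ j ∈ univ.filter (fun j => 0 ≤ t j), |t j| = ∑ j ∈ univ.filter (fun j => 0 ≤ t j), t j :=
      Finset.sum_congr rfl fun j hj => abs_of_nonneg (mem_filter.1 hj).2
    have a2 : ∑ j ∈ univ.filter (fun j => ¬ 0 ≤ t j), |t j| =
        - ∑ j ∈ univ.filter (fun j => ¬ 0 ≤ t j), t j := by
      rw [← Finset.sum_neg_distrib]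
      exact Finset.sum_congr rfl fun j hj => abs_of_neg (not_le.1 (mem_filter.1 hj).2)
    have b1 := (abs_le.1 (hb (univ.filter fun j => 0 ≤ t j))).2
    have b2 := (abs_le.1 (hb (univ.filter fun j => ¬ 0 ≤ t j))).1
    change ∑ j ∈ univ.filter (fun j => 0 ≤ t j), |t j| +
      ∑ j ∈ univ.filter (fun j => ¬ 0 ≤ t j), |t j| ≤ _
    rw [a1, a2]
    linarith
  · intro a n j hj
    rw [hν' n ⟨j, hj⟩]
    simp only [LinearMap.comp_apply, h4, hG0, sub_zero]
    exact hν2 n (fun i => a i) ⟨j, hj⟩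

/-- a complemented copy of `ℓ₁` in the Lipschitz space -/
theorem exists_l1 (hE : ¬ FiniteDimensional ℝ E) :
    ∃ (S : (ℕ → ℝ) →ₗ[ℝ] (E → ℝ)) (T : (E → ℝ) →ₗ[ℝ] (ℕ → ℝ)),
      (∀ a, S a 0 = 0) ∧
      (∀ a L, 0 ≤ L → (∀ n, ∑ i ∈ range n, |a i| ≤ L) →
        ∀ x y, |S a x - S a y| ≤ 48 * L * ‖x - y‖) ∧
      (∀ f L, 0 ≤ L → (∀ x y, |f x - f y| ≤ L * ‖x - y‖) →
        ∀ s : Finset ℕ, ∑ j ∈ s, |T f j| ≤ 184 * L) ∧
      ∀ a, T (S a) = a := by
  obtain ⟨S, ν, h0, h1, h2, h3⟩ := exists_cubes hE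
  obtain ⟨Λ, hΛ1, hΛ2⟩ := exists_glim (atTop : Filter ℕ)
  let T : (E → ℝ) →ₗ[ℝ] (ℕ → ℝ) :=
    LinearMap.pi fun j => Λ ∘ₗ LinearMap.pi fun n => prL (ν n j)
  have hT : ∀ f j, T f j = Λ fun n => pr (ν n j) f := fun _ _ => rfl
  refine ⟨S, T, h0, h1, ?_, ?_⟩
  · intro f L hL hf s
    have e : ∑ j ∈ s, |T f j| =
        Λ (∑ j ∈ s, (SignType.sign (T f j) : ℝ) • fun n => pr (ν n j) f) := by
      rw [map_sum]
      refine Finset.sum_congr rfl fun j _ => ?_
      rw [map_smul, ← hT, smul_eq_mul, sign_mul_self]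
    rw [e]
    refine (le_abs_self _).trans (hΛ2 _ _ (Eventually.of_forall fun n => ?_))
    rw [Finset.sum_apply]
    refine (Finset.abs_sum_le_sum_abs _ _).trans (le_trans ?_ (h2 f L hL hf n s))
    refine Finset.sum_le_sum fun j _ => ?_
    rw [Pi.smul_apply, smul_eq_mul, abs_mul]
    have : |(SignType.sign (T f j) : ℝ)| ≤ 1 := by
      rcases SignType.sign (T f j) with _ | _ | _ <;> simp
    nlinarith [abs_nonneg (pr (ν n j) f)]
  · intro a
    funext j
    rw [hT]
    apply hΛ1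
    refine tendsto_const_nhds.congr' ?_
    filter_upwards [eventually_gt_atTop j] with n hn
    exact (h3 a n j hn).symm

end Pool.Agent.H585Z.LF
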