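import Mathlib
import Pool.Agent.H585Z.LF.Sum

set_option autoImplicit false

/-! Failure of the Grothendieck property. -/

namespace Pool.Agent.H585Z.LF

open Finset Function Filter Topology

theorem tail_facts {a : ℕ → ℝ} {M : ℝ} (h : ∀ s : Finset ℕ, ∑ j ∈ s, |a j| ≤ M) :
    (∀ k, Summable fun j => a (j + k)) ∧ (∀ k, |∑' j, a (j + k)| ≤ M) ∧
      Tendsto (fun k => ∑' j, a (j + k)) atTop (𝓝 0) := by
  have h1 : Summable fun j => |a j| := summable_of_sum_le (fun _ => abs_nonneg _) h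
  have h2 : Summable a := h1.of_abs
  refine ⟨fun k => (summable_nat_add_iff k).2 h2, fun k => ?_, tendsto_sum_nat_add a⟩
  have h3 : Summable fun j => ‖a (j + k)‖ := (summable_nat_add_iff (f := fun j => |a j|) k).2 h1
  refine (norm_tsum_le_tsum_norm h3).trans (h3.tsum_le_of_sum_le fun s => ?_)
  have := h (s.map (addRightEmbedding k))
  rw [Finset.sum_map] at this
  exact this

theorem tail_single {i k : ℕ} (h : k ≤ i) : ∑' j, (Pi.single i (1 : ℝ) : ℕ → ℝ) (j + k) = 1 := by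
  rw [tsum_eq_single (i - k)]
  · rw [Nat.sub_add_cancel h]; simp
  · intro j hj
    exact Pi.single_eq_of_ne (by omega) _

theorem sum_single_le (i n : ℕ) : ∑ j ∈ range n, |(Pi.single i (1 : ℝ) : ℕ → ℝ) j| ≤ 1 := by
  by_cases h : i ∈ range n
  · rw [Finset.sum_eq_single i (fun j _ hj => by simp [hj]) (fun h' => absurd h h')]; simp
  · rw [Finset.sum_eq_zero fun j hj => by
      rw [Pi.single_eq_of_ne (fun e : j = i => h (e ▸ hj)), abs_zero]]
    exact zero_le_one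

theorem not_groth {W : Type} [NormedAddCommGroup W] [NormedSpace ℝ W] (t : W →ₗ[ℝ] (ℕ → ℝ))
    {K K' : ℝ} (ht : ∀ w (s : Finset ℕ), ∑ j ∈ s, |t w j| ≤ K * ‖w‖) (w : ℕ → W)
    (hw : ∀ i, ‖w i‖ ≤ K') (htw : ∀ i, t (w i) = Pi.single i 1) :
    ∃ x : ℕ → W →L[ℝ] ℝ, (∀ v, Tendsto (fun n => x n v) atTop (𝓝 0)) ∧
      ∃ Φ : (W →L[ℝ] ℝ) →L[ℝ] ℝ, ¬ Tendsto (fun n => Φ (x n)) atTop (𝓝 0) := by
  let x0 : ℕ → W →ₗ[ℝ] ℝ := fun k =>
    { toFun := fun v => ∑' j, t v (j + k)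
      map_add' := fun v v' => by
        simp only [map_add, Pi.add_apply]
        exact ((tail_facts (ht v)).1 k).tsum_add ((tail_facts (ht v')).1 k)
      map_smul' := fun r v => by
        simp only [map_smul, Pi.smul_apply, smul_eq_mul, RingHom.id_apply]
        exact tsum_mul_left }
  let x : ℕ → W →L[ℝ] ℝ := fun k => (x0 k).mkContinuous K fun v => (tail_facts (ht v)).2.1 k
  obtain ⟨Λ, hΛ1, hΛ2⟩ := exists_glim (atTop : Filter ℕ)
  let Φ0 : (W →L[ℝ] ℝ) →ₗ[ℝ] ℝ :=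
    { toFun := fun ξ => Λ fun i => ξ (w i)
      map_add' := fun ξ η => by rw [← map_add]; rfl
      map_smul' := fun r ξ => by rw [RingHom.id_apply, ← map_smul]; rfl }
  let Φ : (W →L[ℝ] ℝ) →L[ℝ] ℝ := Φ0.mkContinuous K' fun ξ =>
    hΛ2 _ _ (Eventually.of_forall fun i => by
      refine (ξ.le_opNorm (w i)).trans ?_
      rw [mul_comm]
      exact mul_le_mul_of_nonneg_right (hw i) (norm_nonneg _))
  refine ⟨x, fun v => (tail_facts (ht v)).2.2, Φ, fun h => ?_⟩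
  have h1 : ∀ k, Φ (x k) = 1 := by
    intro k
    apply hΛ1
    refine tendsto_const_nhds.congr' ?_
    filter_upwards [eventually_ge_atTop k] with i hi
    change 1 = ∑' j, t (w i) (j + k)
    rw [htw, tail_single hi]
  simp only [h1] at h
  exact one_ne_zero (tendsto_nhds_unique tendsto_const_nhds h)

variable {E : Type} [NormedAddCommGroup E] [NormedSpace ℝ E]

omit [NormedSpace ℝ E] in
theorem abs_le_of_lip {f : E → ℝ} {K : NNReal} (h : LipschitzWith K f) (x y : E) :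
    |f x - f y| ≤ K * ‖x - y‖ := by
  have := h.dist_le_mul x y
  rwa [Real.dist_eq, dist_eq_norm] at this

omit [NormedSpace ℝ E] in
theorem lip_of_abs_le {f : E → ℝ} {K : NNReal} (h : ∀ x y, |f x - f y| ≤ K * ‖x - y‖) :
    LipschitzWith K f :=
  LipschitzWith.of_dist_le_mul fun x y => by rw [Real.dist_eq, dist_eq_norm]; exact h x y

theorem not_groth_iso (hE : ¬ FiniteDimensional ℝ E) {Y : Type} [NormedAddCommGroup Y]
    [NormedSpace ℝ Y] (e : Y →ₗ[ℝ] (E → ℝ))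
    (h1 : ∀ f : E → ℝ, (f 0 = 0 ∧ ∃ K : NNReal, LipschitzWith K f) → ∃ y : Y, e y = f)
    (h2 : ∀ (y : Y) (K : NNReal), LipschitzWith K (e y) ↔ ‖y‖ ≤ (K : ℝ)) :
    ∃ x : ℕ → Y →L[ℝ] ℝ, (∀ v, Tendsto (fun n => x n v) atTop (𝓝 0)) ∧
      ∃ Φ : (Y →L[ℝ] ℝ) →L[ℝ] ℝ, ¬ Tendsto (fun n => Φ (x n)) atTop (𝓝 0) := by
  obtain ⟨S, T, s0, s1, t1, ts⟩ := exists_l1 hE
  have hl : ∀ i, LipschitzWith 48 (S (Pi.single i 1)) := fun i => lip_of_abs_le fun x y => by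
    simpa using s1 _ 1 zero_le_one (sum_single_le i) x y
  choose w hw using fun i => h1 (S (Pi.single i 1)) ⟨s0 _, 48, hl i⟩
  refine not_groth (T ∘ₗ e) (K := 184) (K' := 48) (fun y s => ?_) w (fun i => ?_) fun i => ?_
  · exact t1 _ _ (norm_nonneg y) (abs_le_of_lip ((h2 y ‖y‖₊).2 le_rfl)) s
  · have := (h2 (w i) 48).1 (by rw [hw]; exact hl i)
    simpa using this
  · rw [LinearMap.comp_apply, hw, ts]

theorem not_groth_predual (hE : ¬ FiniteDimensional ℝ E) {F : Type} [NormedAddCommGroup F]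
    [NormedSpace ℝ F] (δ : E → F) {K : NNReal} (hδ : LipschitzWith K δ)
    (h1 : ∀ f : E → ℝ, f 0 = 0 → (∃ K : NNReal, LipschitzWith K f) →
      ∃ φ : F →L[ℝ] ℝ, ⇑φ ∘ δ = f) :
    ∃ x : ℕ → (F →L[ℝ] ℝ) →L[ℝ] ℝ, (∀ v, Tendsto (fun n => x n v) atTop (𝓝 0)) ∧
      ∃ Φ : ((F →L[ℝ] ℝ) →L[ℝ] ℝ) →L[ℝ] ℝ, ¬ Tendsto (fun n => Φ (x n)) atTop (𝓝 0) := by
  obtain ⟨S, T, s0, s1, t1, ts⟩ := exists_l1 hE
  let e : (F →L[ℝ] ℝ) →ₗ[ℝ] (E → ℝ) :=
    { toFun := fun φ => ⇑φ ∘ δ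
      map_add' := fun _ _ => rfl
      map_smul' := fun _ _ => rfl }
  have ht : ∀ (φ : F →L[ℝ] ℝ) (s : Finset ℕ), ∑ j ∈ s, |T (e φ) j| ≤ (184 * K) * ‖φ‖ := by
    intro φ s
    have := t1 (e φ) _ (NNReal.coe_nonneg _) (abs_le_of_lip (φ.lipschitz.comp hδ)) s
    refine this.trans (le_of_eq ?_)
    push_cast; ring
  have hmem : ∀ φ : F →L[ℝ] ℝ, Memℓp (T (e φ)) 1 := fun φ =>
    memℓp_gen' (C := (184 * K) * ‖φ‖) fun s => by simpa using ht φ s
  let R0 : (F →L[ℝ] ℝ) →ₗ[ℝ] lp (fun _ : ℕ => ℝ) 1 :=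
    { toFun := fun φ => ⟨T (e φ), hmem φ⟩
      map_add' := fun φ ψ => by ext1; simp only [map_add]; rfl
      map_smul' := fun r φ => by ext1; simp only [map_smul]; rfl }
  let R : (F →L[ℝ] ℝ) →L[ℝ] lp (fun _ : ℕ => ℝ) 1 := R0.mkContinuous (184 * K) fun φ =>
    lp.norm_le_of_forall_sum_le (by simp) (by positivity) fun s => by
      have := ht φ s
      simp only [ENNReal.toReal_one, Real.rpow_one, Real.norm_eq_abs]
      exact this
  have hR : Surjective R := by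
    intro a
    have ha : ∀ n, ∑ i ∈ range n, |a i| ≤ ‖a‖ := fun n => by
      simpa using lp.sum_rpow_le_norm_rpow (by simp) a (range n)
    obtain ⟨φ, hφ⟩ := h1 (S a) (s0 _) ⟨48 * ‖a‖₊, lip_of_abs_le fun x y => by
      simpa using s1 _ _ (norm_nonneg a) ha x y⟩
    refine ⟨φ, lp.ext ?_⟩
    change T (⇑φ ∘ δ) = a
    rw [hφ, ts]
  obtain ⟨C, -, hC⟩ := R.exists_preimage_norm_le hR
  choose w hw1 hw2 using fun i : ℕ => hC (lp.single 1 i (1 : ℝ))
  refine not_groth (T ∘ₗ e) ht w (K' := C) (fun i => ?_) fun i => ?_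
  · have := hw2 i
    rwa [lp.norm_single (by simp), norm_one, mul_one] at this
  · have := congrArg (fun z : lp (fun _ : ℕ => ℝ) 1 => (z : ℕ → ℝ)) (hw1 i)
    exact this

theorem l2_infinite : ¬ FiniteDimensional ℝ (lp (fun _ : ℕ => ℝ) 2) := by
  intro h
  have h1 : LinearIndependent ℝ (fun i : ℕ => lp.single (E := fun _ : ℕ => ℝ) 2 i (1 : ℝ)) := by
    apply Orthonormal.linearIndependent
    rw [orthonormal_iff_ite]
    intro i j
    rw [lp.inner_single_left]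
    by_cases hij : i = j
    · subst hij; simp
    · simp [hij]
  exact Module.Finite.not_linearIndependent_of_infinite _ h1

end Pool.Agent.H585Z.LF
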