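import Mathlib
import Pool.Agent.H585Z.LF.Groth
import Pool.Agent.H585Z.LF.Defs

set_option autoImplicit false

/-! A complemented copy of `ℓ₁` in `Lip0`. -/

namespace Pool.Agent.H585Z.LF

open Finset Function Filter Topology

variable {E : Type} [NormedAddCommGroup E] [NormedSpace ℝ E]

omit [NormedSpace ℝ E] in
theorem Lip0.abs_le (f : Lip0 (0 : E)) (x y : E) : |f.fn x - f.fn y| ≤ ‖f‖ * ‖x - y‖ := by
  have := f.le_norm_mul x y
  rwa [dist_eq_norm] at this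

/-- the underlying function as a linear map -/
def fnL {M : Type} [MetricSpace M] (o : M) : Lip0 o →ₗ[ℝ] (M → ℝ) where
  toFun := Lip0.fn
  map_add' _ _ := rfl
  map_smul' _ _ := rfl

theorem l1_complemented (hE : ¬ FiniteDimensional ℝ E) :
    ∃ (T : Lip0 (0 : E) →L[ℝ] lp (fun _ : ℕ => ℝ) 1) (S : lp (fun _ : ℕ => ℝ) 1 →L[ℝ] Lip0 (0 : E)),
      ∀ a, T (S a) = a := by
  obtain ⟨S, T, s0, s1, t1, ts⟩ := exists_l1 hE
  have ht : ∀ (f : Lip0 (0 : E)) (s : Finset ℕ), ∑ j ∈ s, |T f.fn j| ≤ 184 * ‖f‖ := fun f s =>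
    t1 _ _ (norm_nonneg f) f.abs_le s
  have hmem : ∀ f : Lip0 (0 : E), Memℓp (T f.fn) 1 := fun f =>
    memℓp_gen' (C := 184 * ‖f‖) fun s => by simpa using ht f s
  let R0 : Lip0 (0 : E) →ₗ[ℝ] lp (fun _ : ℕ => ℝ) 1 :=
    { toFun := fun f => ⟨T (fnL 0 f), hmem f⟩
      map_add' := fun φ ψ => by ext1; simp only [map_add]; rfl
      map_smul' := fun r φ => by ext1; simp only [map_smul]; rfl }
  let R : Lip0 (0 : E) →L[ℝ] lp (fun _ : ℕ => ℝ) 1 := R0.mkContinuous 184 fun φ =>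
    lp.norm_le_of_forall_sum_le (by simp) (by positivity) fun s => by
      have := ht φ s
      simp only [ENNReal.toReal_one, Real.rpow_one, Real.norm_eq_abs]
      exact this
  have ha : ∀ (a : lp (fun _ : ℕ => ℝ) 1) n, ∑ i ∈ range n, |a i| ≤ ‖a‖ := fun a n => by
    simpa using lp.sum_rpow_le_norm_rpow (by simp) a (range n)
  let S0 : lp (fun _ : ℕ => ℝ) 1 →ₗ[ℝ] Lip0 (0 : E) :=
    { toFun := fun a => (⟨S a, s0 _, 48 * ‖a‖₊, lip_of_abs_le fun x y => by
        simpa using s1 _ _ (norm_nonneg a) (ha a) x y⟩ : lipSub (0 : E))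
      map_add' := fun a b => Subtype.ext (map_add S (a : ℕ → ℝ) b)
      map_smul' := fun r a => Subtype.ext (map_smul S r (a : ℕ → ℝ)) }
  refine ⟨R, S0.mkContinuous 48 fun a => Lip0.norm_le _ (by positivity) fun x y => ?_,
    fun a => lp.ext (ts a)⟩
  rw [dist_eq_norm]
  exact s1 _ _ (norm_nonneg a) (ha a) x y

end Pool.Agent.H585Z.LF
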