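import Mathlib
import Pool.Agent.H585Z.LF.Defs

set_option autoImplicit false

/-! Super properties of Banach spaces and of Lipschitz-free spaces. -/

namespace Pool.Agent.H585Z.LF

open Filter Topology

/-- properties of real normed spaces -/
abbrev SpaceProp : Type 1 := (Y : Type) → [NormedAddCommGroup Y] → [NormedSpace ℝ Y] → Prop

/-- `Y` is finitely representable in `Z`. -/
def FinRep (Y Z : Type) [NormedAddCommGroup Y] [NormedSpace ℝ Y] [NormedAddCommGroup Z]
    [NormedSpace ℝ Z] : Prop :=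
  ∀ ε : ℝ, 0 < ε → ∀ G : Submodule ℝ Y, FiniteDimensional ℝ G →
    ∃ T : G →ₗ[ℝ] Z, ∀ x : G, ‖x‖ ≤ ‖T x‖ ∧ ‖T x‖ ≤ (1 + ε) * ‖x‖

/-- every Banach space finitely representable in `Z` has the property `P` -/
def Super (P : SpaceProp) : SpaceProp := fun Z _ _ =>
  ∀ (Y : Type) [NormedAddCommGroup Y] [NormedSpace ℝ Y] [CompleteSpace Y], FinRep Y Z → P Y

/-- weak sequential completeness -/
def WSC : SpaceProp := fun Y _ _ =>
  ∀ x : ℕ → Y, (∀ φ : Y →L[ℝ] ℝ, CauchySeq fun n => φ (x n)) →
    ∃ y : Y, ∀ φ : Y →L[ℝ] ℝ, Tendsto (fun n => φ (x n)) atTop (𝓝 (φ y))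

/-- the weak Banach-Saks property -/
def WBS : SpaceProp := fun Y _ _ =>
  ∀ x : ℕ → Y, (∀ φ : Y →L[ℝ] ℝ, Tendsto (fun n => φ (x n)) atTop (𝓝 0)) →
    ∃ s : ℕ → ℕ, StrictMono s ∧
      Tendsto (fun n : ℕ => ‖((n : ℝ) + 1)⁻¹ • ∑ i ∈ Finset.range (n + 1), x (s i)‖) atTop (𝓝 0)

/-- reflexivity -/
def Refl : SpaceProp := fun Y _ _ => Function.Surjective (NormedSpace.inclusionInDoubleDual ℝ Y)

/-- The norm-closed linear span of `s`, with the induced norm, has the property `P`. -/
def SpanHas (P : SpaceProp) {W : Type} [NormedAddCommGroup W] [NormedSpace ℝ W] (s : Set W) :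
    Prop :=
  P (Submodule.span ℝ s).topologicalClosure

/-- The same for a family of functionals on a normed space `Z`, in the dual space of `Z`. -/
def DualSpanHas (P : SpaceProp) {M Z : Type} [NormedAddCommGroup Z] [NormedSpace ℝ Z]
    (δ : M → StrongDual ℝ Z) : Prop :=
  SpanHas P (Set.range δ)

/-- The Lipschitz-free space over the pointed metric space `(M, o)`, the norm-closed linear span
of the evaluation functionals in the dual of `Lip0 o`, has the property `P`. -/
def FreeHas (P : SpaceProp) {M : Type} [MetricSpace M] (o : M) : Prop := DualSpanHas P (delta o)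

end Pool.Agent.H585Z.LF
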