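import Mathlib
import Pool.Agent.H585Z.LF.L1Quot
import Pool.Agent.H585Z.LF.SupDefs

set_option autoImplicit false

/-! Every normed space is finitely representable in the free space over an infinite-dimensional
space. -/

namespace Pool.Agent.H585Z.LF

open Finset Function Filter Topology

section cube
variable (Z : Type) [NormedAddCommGroup Z] [NormedSpace ℝ Z]

/-- cubes of every dimension with constant `C` -/
def Cubes (C : ℝ) : Prop := ∀ (ι : Type) [Fintype ι], ∃ u : ι → Z, (∀ j, 1 ≤ ‖u j‖) ∧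
  ∀ a : ι → ℝ, (∀ j, |a j| ≤ 1) → ‖∑ j, a j • u j‖ ≤ C

variable {Z}

theorem Cubes.mono {C C' : ℝ} (h : Cubes Z C) (hC : C ≤ C') : Cubes Z C' := fun ι _ => by
  obtain ⟨u, h1, h2⟩ := h ι
  exact ⟨u, h1, fun a ha => (h2 a ha).trans hC⟩

theorem Cubes.sqrt {C : ℝ} (hC : 0 < C) (h : Cubes Z (C ^ 2)) : Cubes Z C := by
  intro ι _
  obtain ⟨u, h1, h2⟩ := h (ι × ι)
  by_cases hb : ∃ i, ∀ a : ι → ℝ, (∀ j, |a j| ≤ 1) → ‖∑ j, a j • u (i, j)‖ ≤ C
  · obtain ⟨i, hi⟩ := hb
    exact ⟨fun j => u (i, j), fun j => h1 _, hi⟩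
  · push Not at hb
    choose a ha1 ha2 using hb
    refine ⟨fun i => C⁻¹ • ∑ j, a i j • u (i, j), fun i => ?_, fun b hb => ?_⟩
    · rw [norm_smul, Real.norm_eq_abs, abs_of_pos (inv_pos.2 hC), ← div_eq_inv_mul,
        le_div_iff₀ hC, one_mul]
      exact (ha2 i).le
    · have e : ∑ i, b i • C⁻¹ • ∑ j, a i j • u (i, j) =
          C⁻¹ • ∑ p : ι × ι, (b p.1 * a p.1 p.2) • u p := by
        rw [Fintype.sum_prod_type, Finset.smul_sum]
        refine Finset.sum_congr rfl fun i _ => ?_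
        rw [smul_comm, Finset.smul_sum (r := b i)]
        simp only [smul_smul]
      rw [e, norm_smul, Real.norm_eq_abs, abs_of_pos (inv_pos.2 hC), ← div_eq_inv_mul,
        div_le_iff₀ hC, ← sq]
      refine h2 _ fun p => ?_
      rw [abs_mul]
      exact mul_le_one₀ (hb _) (abs_nonneg _) (ha1 _ _)

theorem Cubes.improve {K C : ℝ} (h : Cubes Z K) (hC : 1 < C) : Cubes Z C := by
  have key : ∀ k : ℕ, Cubes Z (C ^ (2 ^ k)) → Cubes Z C := by
    intro k
    induction k with
    | zero => simp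
    | succ k ih =>
      intro h
      apply ih
      apply Cubes.sqrt (by positivity)
      rwa [← pow_mul, ← pow_succ]
  obtain ⟨k, hk⟩ := pow_unbounded_of_one_lt K hC
  exact key k (h.mono (hk.le.trans (pow_le_pow_right₀ hC.le Nat.lt_two_pow_self.le)))

theorem Cubes.finRep {K : ℝ} (h : Cubes Z K) (Y : Type) [NormedAddCommGroup Y]
    [NormedSpace ℝ Y] : FinRep Y Z := by
  classical
  intro ε hε G hG
  set η : ℝ := min ε 1 / 8 with hη
  have hη0 : 0 < η := by positivity
  have hη1 : η ≤ 1 / 8 := by linarith [min_le_right ε 1]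
  have hη2 : η ≤ ε / 8 := by linarith [min_le_left ε 1]
  have : ProperSpace G := FiniteDimensional.proper ℝ G
  obtain ⟨t, -, ht, hcov⟩ := finite_cover_balls_of_compact (isCompact_sphere (0 : G) 1) hη0
  have : Fintype t := ht.fintype
  choose φ hφ1 hφ2 using fun s : G => exists_dual_vector'' ℝ s
  obtain ⟨u, u1, u2⟩ := h.improve (C := 1 + η) (by linarith) t
  have u3 : ∀ (a : t → ℝ) (δ : ℝ), 0 ≤ δ → (∀ j, |a j| ≤ δ) → ‖∑ j, a j • u j‖ ≤ (1 + η) * δ := by
    intro a δ hδ ha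
    rcases hδ.eq_or_lt with h0 | h0
    · have : ∀ j, a j = 0 := fun j => abs_nonpos_iff.1 (h0 ▸ ha j)
      simp [this, ← h0]
    · have h1 := u2 (fun j => δ⁻¹ * a j) fun j => by
        rw [abs_mul, abs_of_pos (inv_pos.2 h0), ← div_eq_inv_mul, div_le_one h0]; exact ha j
      simp only [mul_smul, ← Finset.smul_sum] at h1
      rwa [norm_smul, Real.norm_eq_abs, abs_of_pos (inv_pos.2 h0), ← div_eq_inv_mul,
        div_le_iff₀ h0] at h1
  have u4 : ∀ (a : t → ℝ) (i : t), (1 - η) * |a i| ≤ ‖∑ j, a j • u j‖ := by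
    intro a i0
    have : Nonempty t := ⟨i0⟩
    obtain ⟨i, hi⟩ := Finite.exists_max fun j => |a j|
    have h1 := u3 (fun j => if j = i then a j else - a j) |a i| (abs_nonneg _) fun j => by
      split_ifs
      · exact hi j
      · rw [abs_neg]; exact hi j
    have h2 : ∑ j, a j • u j + ∑ j, (if j = i then a j else - a j) • u j = (2 * a i) • u i := by
      rw [← Finset.sum_add_distrib, Finset.sum_eq_single i]
      · rw [if_pos rfl, two_mul, add_smul]
      · intro j _ hj; simp [hj]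
      · simp
    have h3 := norm_add_le (∑ j, a j • u j) (∑ j, (if j = i then a j else - a j) • u j)
    rw [h2, norm_smul, Real.norm_eq_abs, abs_mul, abs_two] at h3
    have h4 := mul_le_mul_of_nonneg_left (u1 i) (abs_nonneg (a i))
    have h5 := mul_le_mul_of_nonneg_left (hi i0) (by linarith : 0 ≤ 1 - η)
    nlinarith
  let T0 : G →ₗ[ℝ] Z := ∑ j : t, (φ j).toLinearMap.smulRight (u j)
  have hT0 : ∀ x, T0 x = ∑ j : t, φ j x • u j := by
    intro x; simp [T0]
  have up : ∀ x, ‖T0 x‖ ≤ (1 + η) * ‖x‖ := fun x => by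
    rw [hT0]
    refine u3 _ _ (norm_nonneg _) fun j => ((φ j).le_opNorm x).trans ?_
    exact mul_le_of_le_one_left (norm_nonneg _) (hφ1 _)
  have lo : ∀ x, (1 - 3 * η) * ‖x‖ ≤ ‖T0 x‖ := by
    have h1 : ∀ x : G, ‖x‖ = 1 → (1 - 2 * η) * (1 - η) ≤ ‖T0 x‖ := by
      intro x hx
      have hm : x ∈ Metric.sphere (0 : G) 1 := by simpa using hx
      obtain ⟨s, hs, hxs⟩ := Set.mem_iUnion₂.1 (hcov hm)
      rw [Metric.mem_ball, dist_eq_norm] at hxs
      have h2 := u4 (fun j => φ j x) ⟨s, hs⟩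
      rw [← hT0] at h2
      have h3 : |φ s (x - s)| ≤ η := ((φ s).le_opNorm _).trans
        ((mul_le_of_le_one_left (norm_nonneg _) (hφ1 _)).trans hxs.le)
      rw [map_sub, hφ2] at h3
      have h4 := norm_sub_norm_le x s
      have h5 : 1 - 2 * η ≤ |φ s x| := by
        have := (abs_le.1 h3).1
        simp only [RCLike.ofReal_real_eq_id, id] at this
        linarith [le_abs_self (φ s x)]
      nlinarith
    intro x
    by_cases hx : x = 0
    · simp [hx]
    have hx0 : 0 < ‖x‖ := norm_pos_iff.2 hx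
    have h2 := h1 (‖x‖⁻¹ • x) (by
      rw [norm_smul, Real.norm_eq_abs, abs_of_pos (inv_pos.2 hx0), inv_mul_cancel₀ hx0.ne'])
    rw [map_smul, norm_smul, Real.norm_eq_abs, abs_of_pos (inv_pos.2 hx0), ← div_eq_inv_mul,
      le_div_iff₀ hx0] at h2
    nlinarith [mul_pos (mul_pos hη0 hη0) hx0]
  have h3 : 0 < 1 - 3 * η := by linarith
  refine ⟨(1 - 3 * η)⁻¹ • T0, fun x => ?_⟩
  rw [LinearMap.smul_apply, norm_smul, Real.norm_eq_abs, abs_of_pos (inv_pos.2 h3),
    ← div_eq_inv_mul, le_div_iff₀ h3, div_le_iff₀ h3]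
  refine ⟨by linarith [lo x], (up x).trans ?_⟩
  have h4 : 1 + η ≤ (1 + ε) * (1 - 3 * η) := by nlinarith
  nlinarith [mul_le_mul_of_nonneg_right h4 (norm_nonneg x)]

end cube

section free
variable {E : Type} [NormedAddCommGroup E] [NormedSpace ℝ E]

omit [NormedSpace ℝ E] in
theorem lc_delta_apply (μ : E →₀ ℝ) (f : Lip0 (0 : E)) :
    Finsupp.linearCombination ℝ (delta (0 : E)) μ f = pr μ f.fn := by
  have := Finsupp.apply_linearCombination ℝ (ContinuousLinearMap.apply ℝ ℝ f).toLinearMap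
    (delta (0 : E)) μ
  exact this

theorem free_cubes (hE : ¬ FiniteDimensional ℝ E) :
    Cubes (Submodule.span ℝ (Set.range (delta (0 : E)))).topologicalClosure (48 * 184) := by
  classical
  obtain ⟨S, ν, s0, s1, n1, n2⟩ := exists_cubes hE
  intro ι _
  let e := Fintype.equivFin ι
  set n := Fintype.card ι
  let u : ι → (Submodule.span ℝ (Set.range (delta (0 : E)))).topologicalClosure := fun j =>
    ⟨(48 : ℝ) • Finsupp.linearCombination ℝ (delta (0 : E)) (ν n (e j)),
      Submodule.le_topologicalClosure _ (Submodule.smul_mem _ _ (by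
        rw [← Finsupp.range_linearCombination]; exact LinearMap.mem_range_self _ _))⟩
  have hu : ∀ j (f : Lip0 (0 : E)), (u j : StrongDual ℝ (Lip0 (0 : E))) f =
      48 * pr (ν n (e j)) f.fn := by
    intro j f
    rw [← lc_delta_apply]; rfl
  refine ⟨u, fun j => ?_, fun a ha => ?_⟩
  · have hl : ∀ x y, |S (Pi.single (e j : ℕ) 1) x - S (Pi.single (e j : ℕ) 1) y| ≤
        48 * ‖x - y‖ := fun x y => by
      simpa using s1 _ 1 zero_le_one (sum_single_le (e j)) x y
    let f : Lip0 (0 : E) := (⟨S (Pi.single (e j : ℕ) 1), s0 _, 48, lip_of_abs_le hl⟩ :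
      lipSub (0 : E))
    have hf : ‖f‖ ≤ 48 := Lip0.norm_le _ (by norm_num) fun x y => by
      rw [dist_eq_norm]; exact hl x y
    have h1 := (u j : StrongDual ℝ (Lip0 (0 : E))).le_opNorm f
    have h2 : pr (ν n (e j)) f.fn = 1 := by
      have := n2 (Pi.single (e j : ℕ) 1) n (e j) (e j).2
      rw [Pi.single_eq_same] at this
      exact this
    rw [hu, h2] at h1
    have h3 := mul_le_mul_of_nonneg_left hf (norm_nonneg (u j : StrongDual ℝ (Lip0 (0 : E))))
    change 1 ≤ ‖(u j : StrongDual ℝ (Lip0 (0 : E)))‖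
    norm_num at h1
    linarith
  · change ‖((∑ j, a j • u j : (Submodule.span ℝ (Set.range (delta (0 : E)))).topologicalClosure) :
      StrongDual ℝ (Lip0 (0 : E)))‖ ≤ _
    refine ContinuousLinearMap.opNorm_le_bound _ (by norm_num) fun f => ?_
    rw [Submodule.coe_sum, ContinuousLinearMap.sum_apply]
    refine (norm_sum_le _ _).trans ?_
    have h1 := n1 f.fn _ (norm_nonneg f) f.abs_le n (range n)
    rw [← Fin.sum_univ_eq_sum_range (fun j => |pr (ν n j) f.fn|),
      ← Equiv.sum_comp e (fun j : Fin n => |pr (ν n j) f.fn|)] at h1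
    calc ∑ j, ‖((a j • u j : (Submodule.span ℝ (Set.range (delta (0 : E)))).topologicalClosure) :
          StrongDual ℝ (Lip0 (0 : E))) f‖ ≤ ∑ j, 48 * |pr (ν n (e j)) f.fn| := by
          refine Finset.sum_le_sum fun j _ => ?_
          rw [Submodule.coe_smul, ContinuousLinearMap.smul_apply, hu, smul_eq_mul,
            Real.norm_eq_abs, abs_mul, abs_mul, abs_of_pos (by norm_num : (0 : ℝ) < 48)]
          exact mul_le_of_le_one_left (by positivity) (ha j)
      _ ≤ 48 * 184 * ‖f‖ := by rw [← Finset.mul_sum]; linarith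

theorem free_not_super (hE : ¬ FiniteDimensional ℝ E) (P : SpaceProp) (Y : Type)
    [NormedAddCommGroup Y] [NormedSpace ℝ Y] [CompleteSpace Y] (hY : ¬ P Y) :
    ¬ FreeHas (Super P) (0 : E) := fun h => hY (h Y ((free_cubes hE).finRep Y))

end free

section examples

/-- coordinate functional on bounded families -/
noncomputable def coordL {I : Type} (i : I) : lp (fun _ : I => ℝ) ⊤ →L[ℝ] ℝ :=
  LinearMap.mkContinuous
    { toFun := fun y => y i
      map_add' := fun _ _ => rfl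
      map_smul' := fun _ _ => rfl } 1 fun y => by
    rw [one_mul]; exact lp.norm_apply_le_norm (by simp) y i

/-- a bounded family -/
def mkB {I : Type} (a : I → ℝ) (C : ℝ) (h : ∀ i, |a i| ≤ C) : lp (fun _ : I => ℝ) ⊤ :=
  ⟨a, memℓp_infty ⟨C, by rintro _ ⟨i, rfl⟩; exact h i⟩⟩

theorem not_wsc : ¬ WSC (lp (fun _ : ℕ => ℝ) ⊤) := by
  classical
  intro h
  let e : ℕ → lp (fun _ : ℕ => ℝ) ⊤ := fun i => lp.single ⊤ i 1
  have he : ∀ (s : Finset ℕ) (a : ℕ → ℝ) (k : ℕ), (∑ i ∈ s, a i • e i) k =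
      if k ∈ s then a k else 0 := by
    intro s a k
    rw [lp.coeFn_sum, Finset.sum_apply]
    simp [e, Pi.single_apply]
  obtain ⟨y, hy⟩ := h (fun n => ∑ i ∈ range n, (1 : ℝ) • e i) (by
    intro φ
    have h1 : Summable fun i => |φ (e i)| := by
      refine summable_of_sum_le (c := ‖φ‖) (fun _ => abs_nonneg _) fun s => ?_
      have h2 : ∑ i ∈ s, |φ (e i)| = φ (∑ i ∈ s, (SignType.sign (φ (e i)) : ℝ) • e i) := by
        rw [map_sum]
        refine Finset.sum_congr rfl fun i _ => ?_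
        rw [map_smul, smul_eq_mul, sign_mul_self]
      rw [h2]
      refine (le_abs_self _).trans ((φ.le_opNorm _).trans ?_)
      refine mul_le_of_le_one_right (norm_nonneg _) (lp.norm_le_of_forall_le zero_le_one fun k => ?_)
      rw [he]
      split_ifs
      · rcases SignType.sign (φ (e k)) with _ | _ | _ <;> simp
      · simp
    simp only [one_smul, map_sum]
    exact h1.of_abs.hasSum.tendsto_sum_nat.cauchySeq)
  have hy1 : ∀ k, y k = 1 := by
    intro k
    refine tendsto_nhds_unique (hy (coordL k)) (tendsto_const_nhds.congr' ?_)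
    filter_upwards [eventually_gt_atTop k] with n hn
    change 1 = (∑ i ∈ range n, (1 : ℝ) • e i) k
    rw [he, if_pos (mem_range.2 hn)]
  obtain ⟨Λ, hΛ1, hΛ2⟩ := exists_glim (atTop : Filter ℕ)
  let Φ : lp (fun _ : ℕ => ℝ) ⊤ →L[ℝ] ℝ := LinearMap.mkContinuous
    { toFun := fun y => Λ y
      map_add' := fun a b => by rw [← map_add]; rfl
      map_smul' := fun r a => by rw [RingHom.id_apply, ← map_smul]; rfl } 1 fun y => by
    rw [one_mul]
    exact hΛ2 _ _ (Eventually.of_forall fun i => lp.norm_apply_le_norm (by simp) y i)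
  have h1 : Φ y = 1 := hΛ1 _ _ (by rw [show (y : ℕ → ℝ) = fun _ => 1 from funext hy1]; simp)
  have h2 : ∀ n, Φ (∑ i ∈ range n, (1 : ℝ) • e i) = 0 := fun n => hΛ1 _ _ (by
    refine tendsto_const_nhds.congr' ?_
    filter_upwards [eventually_ge_atTop n] with k hk
    rw [he, if_neg (by simpa using hk)])
  have h3 := hy Φ
  simp only [h1, h2] at h3
  exact zero_ne_one (tendsto_nhds_unique tendsto_const_nhds h3)

theorem schreier_avg {L : Set ℕ} (hL : L.Infinite) {ε : ℝ} (hε : 0 < ε) (n : ℕ) :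
    ∃ (t : Finset ℕ) (w : ℕ → ℝ), (t : Set ℕ) ⊆ L ∧ (∀ k, 0 ≤ w k) ∧ ∑ k ∈ t, w k = n ∧
      ∀ S : Finset ℕ, (∀ j ∈ S, S.card ≤ j + 1) → ∑ k ∈ t ∩ S, w k ≤ 1 + n * ε := by
  classical
  induction n with
  | zero => exact ⟨∅, 0, by simp, by simp, by simp, by simp⟩
  | succ n ih =>
    obtain ⟨t, w, h1, h2, h3, h4⟩ := ih
    obtain ⟨M, hM⟩ : ∃ M : ℕ, ∀ k ∈ t, k < M :=
      ⟨t.sup id + 1, fun k hk => Nat.lt_succ_of_le (Finset.le_sup (f := id) hk)⟩
    obtain ⟨b, hb⟩ := exists_nat_gt (M / ε)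
    have hb0 : (0 : ℝ) < b := lt_of_le_of_lt (by positivity) hb
    obtain ⟨B, hB1, hB2⟩ := (hL.diff (Set.finite_lt_nat M)).exists_subset_card_eq b
    have hBM : ∀ k ∈ B, M ≤ k := fun k hk => not_lt.1 (hB1 hk).2
    have hd : Disjoint t B := Finset.disjoint_left.2 fun k hk hk' => by
      have := hM k hk; have := hBM k hk'; omega
    have e1 : ∀ s : Finset ℕ, s ⊆ t → ∑ k ∈ s, (if k ∈ B then (b : ℝ)⁻¹ else w k) = ∑ k ∈ s, w k :=
      fun s hs => Finset.sum_congr rfl fun k hk => if_neg (Finset.disjoint_left.1 hd (hs hk))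
    have e2 : ∀ s : Finset ℕ, s ⊆ B →
        ∑ k ∈ s, (if k ∈ B then (b : ℝ)⁻¹ else w k) = s.card * (b : ℝ)⁻¹ := fun s hs => by
      rw [Finset.sum_congr rfl fun k hk => if_pos (hs hk), Finset.sum_const, nsmul_eq_mul]
    refine ⟨t ∪ B, fun k => if k ∈ B then (b : ℝ)⁻¹ else w k, ?_, ?_, ?_, ?_⟩
    · rw [Finset.coe_union]
      exact Set.union_subset h1 fun k hk => (hB1 hk).1
    · intro k
      dsimp only
      split_ifs
      · positivity
      · exact h2 k
    · rw [Finset.sum_union hd, e1 t subset_rfl, e2 B subset_rfl, h3, hB2,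
        mul_inv_cancel₀ hb0.ne']
      push_cast; rfl
    · intro S hS
      rw [Finset.union_inter_distrib_right, Finset.sum_union
        (hd.mono Finset.inter_subset_left Finset.inter_subset_left),
        e1 _ Finset.inter_subset_left, e2 _ Finset.inter_subset_left]
      push_cast
      have hn : 0 ≤ (n : ℝ) * ε := by positivity
      by_cases hc : ∃ j ∈ S, j < M
      · obtain ⟨j, hj, hjM⟩ := hc
        have a1 : (B ∩ S).card ≤ M :=
          (Finset.card_le_card Finset.inter_subset_right).trans ((hS j hj).trans hjM)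
        have a2 : ((B ∩ S).card : ℝ) ≤ M := by exact_mod_cast a1
        have a3 : ((B ∩ S).card : ℝ) * (b : ℝ)⁻¹ ≤ ε := by
          rw [← div_eq_mul_inv, div_le_iff₀ hb0]
          rw [div_lt_iff₀ hε] at hb
          linarith
        linarith [h4 S hS]
      · push Not at hc
        have a1 : t ∩ S = ∅ := Finset.eq_empty_of_forall_notMem fun k hk => by
          have := hM k (Finset.mem_inter.1 hk).1
          have := hc k (Finset.mem_inter.1 hk).2
          omega
        have a2 : ((B ∩ S).card : ℝ) ≤ b := by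
          exact_mod_cast (Finset.card_le_card Finset.inter_subset_left).trans hB2.le
        have a3 : ((B ∩ S).card : ℝ) * (b : ℝ)⁻¹ ≤ 1 := by
          rw [← div_eq_mul_inv, div_le_one hb0]; exact a2
        rw [a1, Finset.sum_empty]
        linarith

theorem not_wbs : ¬ WBS (lp (fun _ : Finset ℕ => ℝ) ⊤) := by
  classical
  intro h
  let x : ℕ → lp (fun _ : Finset ℕ => ℝ) ⊤ := fun k =>
    mkB (fun S => if k ∈ S ∧ ∀ j ∈ S, S.card ≤ j + 1 then 1 else 0) 1 fun S => by
      split_ifs <;> simp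
  have hx : ∀ k S, x k S = if k ∈ S ∧ ∀ j ∈ S, S.card ≤ j + 1 then 1 else 0 := fun _ _ => rfl
  obtain ⟨s, hs, hs'⟩ := h x (by
    intro φ
    by_contra hc
    rw [Metric.tendsto_nhds] at hc
    push Not at hc
    obtain ⟨δ, hδ, hf⟩ := hc
    have hL : {k | δ ≤ dist (φ (x k)) 0}.Infinite := Nat.frequently_atTop_iff_infinite.1 hf
    obtain ⟨n, hn⟩ := exists_nat_gt (2 * ‖φ‖ / δ)
    obtain ⟨t, w, h1, h2, h3, h4⟩ := schreier_avg hL (ε := 1 / ((n : ℝ) + 1)) (by positivity) n
    have a1 : ‖∑ k ∈ t, (w k * (SignType.sign (φ (x k)) : ℝ)) • x k‖ ≤ 2 := by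
      refine lp.norm_le_of_forall_le zero_le_two fun S => ?_
      rw [lp.coeFn_sum, Finset.sum_apply]
      refine (norm_sum_le _ _).trans ?_
      by_cases hS : ∀ j ∈ S, S.card ≤ j + 1
      · have b1 : (n : ℝ) * (1 / ((n : ℝ) + 1)) ≤ 1 := by
          rw [mul_one_div, div_le_one (by positivity)]; linarith
        refine le_trans ?_ ((h4 S hS).trans (by linarith))
        rw [← Finset.sum_ite_mem]
        refine Finset.sum_le_sum fun k _ => ?_
        rw [lp.coeFn_smul, Pi.smul_apply, hx]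
        by_cases hk : k ∈ S
        · rw [if_pos ⟨hk, hS⟩, if_pos hk, smul_eq_mul, mul_one, Real.norm_eq_abs, abs_mul,
            abs_of_nonneg (h2 k)]
          refine mul_le_of_le_one_right (h2 k) ?_
          rcases SignType.sign (φ (x k)) with _ | _ | _ <;> simp
        · rw [if_neg (fun h => hk h.1), if_neg hk]; simp
      · rw [Finset.sum_eq_zero fun k _ => by
          rw [lp.coeFn_smul, Pi.smul_apply, hx, if_neg (fun h => hS h.2)]; simp]
        exact zero_le_two
    have a2 : n * δ ≤ φ (∑ k ∈ t, (w k * (SignType.sign (φ (x k)) : ℝ)) • x k) := by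
      rw [map_sum, ← h3, Finset.sum_mul]
      refine Finset.sum_le_sum fun k hk => ?_
      rw [map_smul, smul_eq_mul, mul_assoc, sign_mul_self]
      refine mul_le_mul_of_nonneg_left ?_ (h2 k)
      have := h1 hk
      simpa using this
    have a3 := (le_abs_self _).trans
      (φ.le_opNorm (∑ k ∈ t, (w k * (SignType.sign (φ (x k)) : ℝ)) • x k))
    rw [div_lt_iff₀ hδ] at hn
    nlinarith [mul_le_mul_of_nonneg_left a1 (norm_nonneg φ)])
  obtain ⟨m, hm⟩ := (Metric.tendsto_atTop.1 hs') (1 / 2) (by norm_num)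
  have h1 := hm (2 * m + 1) (by omega)
  rw [dist_zero_right, norm_norm] at h1
  let S : Finset ℕ := (Finset.Ico (m + 1) (2 * m + 1 + 1)).image s
  have hcard : S.card = m + 1 := by
    rw [Finset.card_image_of_injective _ hs.injective, Nat.card_Ico]; omega
  have hS : ∀ j ∈ S, S.card ≤ j + 1 := by
    intro j hj
    obtain ⟨i, hi, rfl⟩ := Finset.mem_image.1 hj
    have := hs.id_le i
    have := (Finset.mem_Ico.1 hi).1
    simp only [id] at *
    omega
  have h2 := (lp.norm_apply_le_norm (by simp) _ S).trans_lt h1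
  rw [lp.coeFn_smul, Pi.smul_apply, lp.coeFn_sum, Finset.sum_apply, smul_eq_mul] at h2
  have h3 : ((m : ℝ) + 1) ≤ ∑ i ∈ range (2 * m + 1 + 1), x (s i) S := by
    calc ((m : ℝ) + 1) = ∑ i ∈ Finset.Ico (m + 1) (2 * m + 1 + 1), x (s i) S := by
          rw [Finset.sum_congr rfl (g := fun _ => (1 : ℝ)) fun i hi => by
            rw [hx, if_pos ⟨Finset.mem_image_of_mem _ hi, hS⟩]]
          rw [Finset.sum_const, Nat.card_Ico, show 2 * m + 1 + 1 - (m + 1) = m + 1 by omega]
          simp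
      _ ≤ _ := Finset.sum_le_sum_of_subset_of_nonneg
          (fun i hi => mem_range.2 (Finset.mem_Ico.1 hi).2) fun i _ _ => by
            rw [hx]; split_ifs <;> simp
  have h4 := (le_abs_self _).trans_lt h2
  push_cast at h4
  rw [← div_eq_inv_mul, div_lt_iff₀ (by positivity)] at h4
  linarith

theorem super_refl_hilbert (H : Type) [NormedAddCommGroup H] [InnerProductSpace ℝ H] :
    Super Refl H := by
  intro Y _ _ _ hY
  have key : ∀ x y : Y, ‖x + y‖ * ‖x + y‖ + ‖x - y‖ * ‖x - y‖ = 2 * (‖x‖ * ‖x‖ + ‖y‖ * ‖y‖) := by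
    intro x y
    have h1 : ∀ ε : ℝ, 0 < ε →
        ‖x + y‖ * ‖x + y‖ + ‖x - y‖ * ‖x - y‖ ≤ (1 + ε) ^ 2 * (2 * (‖x‖ * ‖x‖ + ‖y‖ * ‖y‖)) ∧
        2 * (‖x‖ * ‖x‖ + ‖y‖ * ‖y‖) ≤ (1 + ε) ^ 2 * (‖x + y‖ * ‖x + y‖ + ‖x - y‖ * ‖x - y‖) := by
      intro ε hε
      obtain ⟨T, hT⟩ := hY ε hε (Submodule.span ℝ {x, y})
        (FiniteDimensional.span_of_finite ℝ (Set.toFinite _))
      let x' : Submodule.span ℝ ({x, y} : Set Y) := ⟨x, Submodule.subset_span (by simp)⟩
      let y' : Submodule.span ℝ ({x, y} : Set Y) := ⟨y, Submodule.subset_span (by simp)⟩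
      have hp := parallelogram_law_with_norm_mul ℝ (T x') (T y')
      rw [← map_add, ← map_sub] at hp
      have sq : ∀ z : Submodule.span ℝ ({x, y} : Set Y), ‖(z : Y)‖ * ‖(z : Y)‖ ≤ ‖T z‖ * ‖T z‖ ∧
          ‖T z‖ * ‖T z‖ ≤ (1 + ε) ^ 2 * (‖(z : Y)‖ * ‖(z : Y)‖) := fun z =>
        ⟨mul_self_le_mul_self (norm_nonneg _) (hT z).1,
          (mul_self_le_mul_self (norm_nonneg _) (hT z).2).trans (le_of_eq (by
            change (1 + ε) * ‖(z : Y)‖ * ((1 + ε) * ‖(z : Y)‖) = _
            ring))⟩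
      have a1 := sq x'
      have a2 := sq y'
      have a3 := sq (x' + y')
      have a4 := sq (x' - y')
      simp only [Submodule.coe_add, Submodule.coe_sub, x', y'] at a1 a2 a3 a4 hp
      constructor <;> linarith [a1.1, a1.2, a2.1, a2.2, a3.1, a3.2, a4.1, a4.2]
    have h2 : ∀ a b : ℝ, (∀ ε : ℝ, 0 < ε → a ≤ (1 + ε) ^ 2 * b) → a ≤ b := by
      intro a b h
      have hc : Tendsto (fun ε : ℝ => (1 + ε) ^ 2 * b) (𝓝[>] 0) (𝓝 ((1 + 0) ^ 2 * b)) :=
        (Continuous.tendsto (by fun_prop) 0).mono_left nhdsWithin_le_nhds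
      have := ge_of_tendsto hc (eventually_mem_nhdsWithin.mono fun ε hε => h ε hε)
      simpa using this
    exact le_antisymm (h2 _ _ fun ε hε => (h1 ε hε).1) (h2 _ _ fun ε hε => (h1 ε hε).2)
  let _ : InnerProductSpace ℝ Y := InnerProductSpace.ofNorm ℝ key
  intro Φ
  let ψ : Y →L[ℝ] ℝ := Φ ∘L (InnerProductSpace.toDual ℝ Y).toContinuousLinearEquiv.toContinuousLinearMap
  refine ⟨(InnerProductSpace.toDual ℝ Y).symm ψ, ?_⟩
  ext φ
  obtain ⟨z, rfl⟩ := (InnerProductSpace.toDual ℝ Y).surjective φ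
  rw [NormedSpace.dual_def, InnerProductSpace.toDual_apply_apply, real_inner_comm,
    InnerProductSpace.toDual_symm_apply]
  rfl

end examples

end Pool.Agent.H585Z.LF
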