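import Mathlib

set_option autoImplicit false

/-! The decomposition method for spaces given by a gauge on an ambient vector space. -/

namespace Pool.Agent.H585Z.LF

/-- a norm bound predicate on an ambient vector space -/
structure Gauge (X : Type) [AddCommGroup X] where
  N : X → ℝ → Prop
  add : ∀ {x y a b}, N x a → N y b → N (x + y) (a + b)
  neg : ∀ {x a}, N x a → N (-x) a
  mono : ∀ {x a b}, N x a → a ≤ b → N x b
  nonneg : ∀ {x a}, N x a → 0 ≤ a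

variable {X Y Z : Type} [AddCommGroup X] [Module ℝ X] [AddCommGroup Y] [Module ℝ Y]
  [AddCommGroup Z] [Module ℝ Z]

omit [Module ℝ X] in
theorem Gauge.sub (g : Gauge X) {x y : X} {a b : ℝ} (h : g.N x a) (h' : g.N y b) :
    g.N (x - y) (a + b) := by
  rw [sub_eq_add_neg]; exact g.add h (g.neg h')

/-- the product gauge -/
def Gauge.prod (g : Gauge X) (h : Gauge Y) : Gauge (X × Y) where
  N p a := g.N p.1 a ∧ h.N p.2 a
  add h1 h2 := ⟨g.add h1.1 h2.1, h.add h1.2 h2.2⟩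
  neg h1 := ⟨g.neg h1.1, h.neg h1.2⟩
  mono h1 h2 := ⟨g.mono h1.1 h2, h.mono h1.2 h2⟩
  nonneg h1 := g.nonneg h1.1

/-- isomorphism of the normed parts -/
def GIso (g : Gauge X) (h : Gauge Y) : Prop :=
  ∃ (T : X →ₗ[ℝ] Y) (S : Y →ₗ[ℝ] X) (C : ℝ), 0 ≤ C ∧
    (∀ x a, g.N x a → h.N (T x) (C * a) ∧ S (T x) = x) ∧
    (∀ y a, h.N y a → g.N (S y) (C * a) ∧ T (S y) = y)

theorem GIso.symm {g : Gauge X} {h : Gauge Y} (e : GIso g h) : GIso h g := by
  obtain ⟨T, S, C, h0, h1, h2⟩ := e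
  exact ⟨S, T, C, h0, h2, h1⟩

theorem GIso.trans {g : Gauge X} {h : Gauge Y} {k : Gauge Z} (e : GIso g h) (e' : GIso h k) :
    GIso g k := by
  obtain ⟨T, S, C, h0, h1, h2⟩ := e
  obtain ⟨T', S', C', h0', h1', h2'⟩ := e'
  refine ⟨T' ∘ₗ T, S ∘ₗ S', C * C', mul_nonneg h0 h0', fun x a hx => ?_, fun z a hz => ?_⟩
  · obtain ⟨a1, a2⟩ := h1 x a hx
    obtain ⟨b1, b2⟩ := h1' _ _ a1
    refine ⟨k.mono b1 (le_of_eq (by ring)), ?_⟩
    simp only [LinearMap.comp_apply, b2, a2]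
  · obtain ⟨a1, a2⟩ := h2' z a hz
    obtain ⟨b1, b2⟩ := h2 _ _ a1
    refine ⟨g.mono b1 (le_of_eq (by ring)), ?_⟩
    simp only [LinearMap.comp_apply, b2, a2]

theorem GIso.swap (g : Gauge X) (h : Gauge Y) : GIso (g.prod h) (h.prod g) := by
  refine ⟨(LinearEquiv.prodComm ℝ X Y).toLinearMap, (LinearEquiv.prodComm ℝ Y X).toLinearMap, 1,
    zero_le_one, fun x a hx => ⟨?_, rfl⟩, fun x a hx => ⟨?_, rfl⟩⟩
  · rw [one_mul]; exact ⟨hx.2, hx.1⟩
  · rw [one_mul]; exact ⟨hx.2, hx.1⟩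

theorem giso_absorb (g : Gauge X) (k : Gauge Z) (sp : Z ≃ₗ[ℝ] (ℕ → Z))
    (hsp : ∀ z a, k.N z a ↔ ∀ n, k.N (sp z n) a) (A : X →ₗ[ℝ] Z) (B : Z →ₗ[ℝ] X) {C : ℝ}
    (hC : 1 ≤ C) (hA : ∀ x a, g.N x a → k.N (A x) (C * a) ∧ B (A x) = x)
    (hB : ∀ z a, k.N z a → g.N (B z) (C * a)) : GIso k (g.prod k) := by
  let π : Z →ₗ[ℝ] Z := A ∘ₗ B
  have hπ : ∀ z a, k.N z a → k.N (π z) (C * (C * a)) ∧ B (π z) = B z := fun z a hz =>
    hA _ _ (hB z a hz)
  have hππ : ∀ z a, k.N z a → π (π z) = π z := fun z a hz => by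
    change A (B (π z)) = A (B z)
    rw [(hπ z a hz).2]
  let ev : ℕ → Z →ₗ[ℝ] Z := fun n => LinearMap.proj n ∘ₗ sp.toLinearMap
  let Θ : Z →ₗ[ℝ] X × Z := LinearMap.prod (B ∘ₗ ev 0)
    (sp.symm.toLinearMap ∘ₗ LinearMap.pi fun n => ev n - π ∘ₗ ev n + π ∘ₗ ev (n + 1))
  let pre : ℕ → X × Z →ₗ[ℝ] Z := fun n =>
    Nat.casesOn n (A ∘ₗ LinearMap.fst ℝ X Z) fun n => π ∘ₗ ev n ∘ₗ LinearMap.snd ℝ X Z
  let Θ' : X × Z →ₗ[ℝ] Z := sp.symm.toLinearMap ∘ₗ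
    LinearMap.pi fun n => (ev n - π ∘ₗ ev n) ∘ₗ LinearMap.snd ℝ X Z + pre n
  have t1 : ∀ z, (Θ z).1 = B (sp z 0) := fun _ => rfl
  have t2 : ∀ z n, sp (Θ z).2 n = sp z n - π (sp z n) + π (sp z (n + 1)) := by
    intro z n
    change sp (sp.symm _) n = _
    rw [sp.apply_symm_apply]; rfl
  have t3 : ∀ p, sp (Θ' p) 0 = sp p.2 0 - π (sp p.2 0) + A p.1 := by
    intro p
    change sp (sp.symm _) 0 = _
    rw [sp.apply_symm_apply]; rfl
  have t4 : ∀ p n, sp (Θ' p) (n + 1) = sp p.2 (n + 1) - π (sp p.2 (n + 1)) + π (sp p.2 n) := by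
    intro p n
    change sp (sp.symm _) (n + 1) = _
    rw [sp.apply_symm_apply]; rfl
  have hC0 : 0 ≤ C := by linarith
  have hCC : C ≤ C * C := by nlinarith
  refine ⟨Θ, Θ', 3 * (C * C), by positivity, fun z a hz => ?_, fun p a hp => ?_⟩
  · have ha := k.nonneg hz
    have h := (hsp z a).1 hz
    have hCa : a ≤ C * (C * a) := by nlinarith
    refine ⟨⟨g.mono (hB _ _ (h 0)) (by nlinarith), (hsp _ _).2 fun n => ?_⟩, ?_⟩
    · rw [t2]
      exact k.mono (k.add (k.sub (h n) (hπ _ _ (h n)).1) (hπ _ _ (h (n + 1))).1) (by nlinarith)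
    · apply sp.injective
      funext n
      rcases n with _ | n
      · rw [t3, t2, t1, map_add, map_sub, hππ _ _ (h 0), hππ _ _ (h 1)]
        change _ + π (sp z 0) = _
        abel
      · rw [t4, t2, t2]
        simp only [map_add, map_sub]
        rw [hππ _ _ (h n), hππ _ _ (h (n + 1)), hππ _ _ (h (n + 1 + 1))]
        abel
  · have ha := k.nonneg hp.2
    have h := (hsp p.2 a).1 hp.2
    have hCa : a ≤ C * (C * a) := by nlinarith
    obtain ⟨a1, a2⟩ := hA _ _ hp.1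
    have a3 : π (A p.1) = A p.1 := by
      change A (B (A p.1)) = _
      rw [a2]
    constructor
    · refine (hsp _ _).2 fun n => ?_
      rcases n with _ | n
      · rw [t3]
        exact k.mono (k.add (k.sub (h 0) (hπ _ _ (h 0)).1) a1) (by nlinarith)
      · rw [t4]
        exact k.mono (k.add (k.sub (h _) (hπ _ _ (h _)).1) (hπ _ _ (h n)).1) (by nlinarith)
    · refine Prod.ext ?_ ?_
      · rw [t1, t3, map_add, map_sub, (hπ _ _ (h 0)).2, a2]; abel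
      · apply sp.injective
        funext n
        rw [t2, t4]
        rcases n with _ | n
        · rw [t3]
          simp only [map_add, map_sub]
          rw [hππ _ _ (h 0), hππ _ _ (h (0 + 1)), a3]
          abel
        · rw [t4]
          simp only [map_add, map_sub]
          rw [hππ _ _ (h n), hππ _ _ (h (n + 1)), hππ _ _ (h (n + 1 + 1))]
          abel

theorem giso_split (g : Gauge X) (k : Gauge Z) (sp : Z ≃ₗ[ℝ] (ℕ → Z))
    (hsp : ∀ z a, k.N z a ↔ ∀ n, k.N (sp z n) a) (J : Z →ₗ[ℝ] X) (P : X →ₗ[ℝ] Z) {C : ℝ}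
    (hC : 1 ≤ C) (hJ : ∀ z a, k.N z a → g.N (J z) (C * a) ∧ P (J z) = z)
    (hP : ∀ x a, g.N x a → k.N (P x) (C * a)) : GIso g (k.prod g) := by
  let ev : ℕ → Z →ₗ[ℝ] Z := fun n => LinearMap.proj n ∘ₗ sp.toLinearMap
  let tl : Z →ₗ[ℝ] Z := sp.symm.toLinearMap ∘ₗ LinearMap.pi fun n => ev (n + 1)
  let cs : Z × Z →ₗ[ℝ] Z := sp.symm.toLinearMap ∘ₗ LinearMap.pi fun n =>
    Nat.casesOn n (LinearMap.fst ℝ Z Z) fun n => ev n ∘ₗ LinearMap.snd ℝ Z Z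
  have l1 : ∀ z n, sp (tl z) n = sp z (n + 1) := by
    intro z n
    change sp (sp.symm _) n = _
    rw [sp.apply_symm_apply]; rfl
  have l2 : ∀ p, sp (cs p) 0 = p.1 := by
    intro p
    change sp (sp.symm _) 0 = _
    rw [sp.apply_symm_apply]; rfl
  have l3 : ∀ p n, sp (cs p) (n + 1) = sp p.2 n := by
    intro p n
    change sp (sp.symm _) (n + 1) = _
    rw [sp.apply_symm_apply]; rfl
  have l4 : ∀ z, cs (sp z 0, tl z) = z := by
    intro z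
    apply sp.injective
    funext n
    rcases n with _ | n
    · rw [l2]
    · rw [l3, l1]
  have l5 : ∀ p, tl (cs p) = p.2 := by
    intro p
    apply sp.injective
    funext n
    rw [l1, l3]
  have n1 : ∀ z a, k.N z a → k.N (tl z) a := fun z a hz =>
    (hsp _ _).2 fun n => by rw [l1]; exact (hsp z a).1 hz _
  have n2 : ∀ z z' a, k.N z a → k.N z' a → k.N (cs (z, z')) a := fun z z' a hz hz' =>
    (hsp _ _).2 fun n => by
      rcases n with _ | n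
      · rw [l2]; exact hz
      · rw [l3]; exact (hsp z' a).1 hz' _
  let Ψ : X →ₗ[ℝ] Z × X := LinearMap.prod (ev 0 ∘ₗ P) (LinearMap.id - J ∘ₗ P + J ∘ₗ tl ∘ₗ P)
  let Ψ' : Z × X →ₗ[ℝ] X := (LinearMap.id - J ∘ₗ P) ∘ₗ LinearMap.snd ℝ Z X +
    J ∘ₗ cs ∘ₗ LinearMap.prodMap LinearMap.id P
  have t1 : ∀ x, Ψ x = (sp (P x) 0, x - J (P x) + J (tl (P x))) := fun _ => rfl
  have t2 : ∀ p : Z × X, Ψ' p = p.2 - J (P p.2) + J (cs (p.1, P p.2)) := fun _ => rfl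
  have hC0 : 0 ≤ C := by linarith
  have hCC : C ≤ C * C := by nlinarith
  refine ⟨Ψ, Ψ', 3 * (C * C), by positivity, fun x a hx => ?_, fun p a hp => ?_⟩
  · have ha := g.nonneg hx
    have hCa : a ≤ C * (C * a) := by nlinarith
    have p1 := hP x a hx
    obtain ⟨j1, j2⟩ := hJ _ _ p1
    obtain ⟨j3, j4⟩ := hJ _ _ (n1 _ _ p1)
    rw [t1]
    refine ⟨⟨k.mono ((hsp _ _).1 p1 0) (by nlinarith),
      g.mono (g.add (g.sub hx j1) j3) (by nlinarith)⟩, ?_⟩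
    rw [t2]
    simp only [map_add, map_sub, j2, j4, sub_self, zero_add, l4]
    abel
  · have ha := g.nonneg hp.2
    have hCa : a ≤ C * (C * a) := by nlinarith
    have p1 := hP _ a hp.2
    obtain ⟨j1, j2⟩ := hJ _ _ p1
    obtain ⟨j3, j4⟩ := hJ _ _ (n2 _ _ _ (k.mono hp.1 (by nlinarith)) p1)
    rw [t2]
    refine ⟨g.mono (g.add (g.sub hp.2 j1) j3) (by nlinarith), ?_⟩
    rw [t1]
    simp only [map_add, map_sub, j2, j4, sub_self, zero_add, l2, l5]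
    refine Prod.ext rfl ?_
    simp

theorem giso_pel (g : Gauge X) (k : Gauge Z) (sp : Z ≃ₗ[ℝ] (ℕ → Z))
    (hsp : ∀ z a, k.N z a ↔ ∀ n, k.N (sp z n) a) (A : X →ₗ[ℝ] Z) (B : Z →ₗ[ℝ] X)
    (J : Z →ₗ[ℝ] X) (P : X →ₗ[ℝ] Z) {C : ℝ}
    (hC : 1 ≤ C) (hA : ∀ x a, g.N x a → k.N (A x) (C * a) ∧ B (A x) = x)
    (hB : ∀ z a, k.N z a → g.N (B z) (C * a))
    (hJ : ∀ z a, k.N z a → g.N (J z) (C * a) ∧ P (J z) = z)
    (hP : ∀ x a, g.N x a → k.N (P x) (C * a)) : GIso g k :=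
  ((giso_split g k sp hsp J P hC hJ hP).trans (GIso.swap k g)).trans
    (giso_absorb g k sp hsp A B hC hA hB).symm

end Pool.Agent.H585Z.LF
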