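import Mathlib
import Pool.Agent.H585Z.LF.Groth
import Pool.Agent.H585Z.LF.Pel

set_option autoImplicit false

/-! Lipschitz spaces over infinite-dimensional spaces of equal density are isomorphic. -/

namespace Pool.Agent.H585Z.LF

open Finset Function Filter Topology Cardinal

/-- the Lipschitz gauge -/
def gLip (E : Type) [NormedAddCommGroup E] : Gauge (E → ℝ) where
  N f a := 0 ≤ a ∧ f 0 = 0 ∧ ∀ x y, |f x - f y| ≤ a * ‖x - y‖
  add := by
    rintro f g a b ⟨a0, a1, a2⟩ ⟨b0, b1, b2⟩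
    refine ⟨add_nonneg a0 b0, by simp [a1, b1], fun x y => ?_⟩
    simp only [Pi.add_apply]
    rw [add_sub_add_comm, add_mul]
    exact (abs_add_le _ _).trans (add_le_add (a2 x y) (b2 x y))
  neg := by
    rintro f a ⟨a0, a1, a2⟩
    refine ⟨a0, by simp [a1], fun x y => ?_⟩
    simp only [Pi.neg_apply]
    rw [neg_sub_neg, abs_sub_comm]
    exact a2 x y
  mono := by
    rintro f a b ⟨a0, a1, a2⟩ h
    exact ⟨a0.trans h, a1, fun x y => (a2 x y).trans
      (mul_le_mul_of_nonneg_right h (norm_nonneg _))⟩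
  nonneg h := h.1

theorem FM.d_nonneg (M : FM) (u v : M.V) : 0 ≤ M.d u v := by
  by_cases h : u = v
  · rw [h, M.self]
  · exact (M.pos u v h).le

/-- the gauge of the bounded sum of the finite Lipschitz spaces -/
def gSum {ι : Type} (M : ι → FM) : Gauge (ℕ → ∀ k, (M k).V → ℝ) where
  N f a := 0 ≤ a ∧ ∀ n k, f n k (M k).v0 = 0 ∧ ∀ x y, |f n k x - f n k y| ≤ a * (M k).d x y
  add := by
    rintro f g a b ⟨a0, a1⟩ ⟨b0, b1⟩
    refine ⟨add_nonneg a0 b0, fun n k => ⟨by simp [(a1 n k).1, (b1 n k).1], fun x y => ?_⟩⟩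
    simp only [Pi.add_apply]
    rw [add_sub_add_comm, add_mul]
    exact (abs_add_le _ _).trans (add_le_add ((a1 n k).2 x y) ((b1 n k).2 x y))
  neg := by
    rintro f a ⟨a0, a1⟩
    refine ⟨a0, fun n k => ⟨by simp [(a1 n k).1], fun x y => ?_⟩⟩
    simp only [Pi.neg_apply]
    rw [neg_sub_neg, abs_sub_comm]
    exact (a1 n k).2 x y
  mono := by
    rintro f a b ⟨a0, a1⟩ h
    exact ⟨a0.trans h, fun n k => ⟨(a1 n k).1, fun x y => ((a1 n k).2 x y).trans
      (mul_le_mul_of_nonneg_right h ((M k).d_nonneg _ _))⟩⟩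
  nonneg h := h.1

/-- splitting a sequence into a sequence of sequences -/
def spl (W : Type) [AddCommGroup W] [Module ℝ W] : (ℕ → W) ≃ₗ[ℝ] (ℕ → ℕ → W) where
  toFun z n m := z (Nat.pair n m)
  invFun y p := y (Nat.unpair p).1 (Nat.unpair p).2
  map_add' _ _ := rfl
  map_smul' _ _ := rfl
  left_inv z := by funext p; simp
  right_inv y := by funext n m; simp

theorem gSum_spl {ι : Type} (M : ι → FM) (z : ℕ → ∀ k, (M k).V → ℝ) (a : ℝ) :
    (gSum M).N z a ↔ ∀ n, (gSum M).N (spl _ z n) a := by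
  constructor
  · rintro ⟨h0, h1⟩ n
    exact ⟨h0, fun m k => h1 _ k⟩
  · intro h
    refine ⟨(h 0).1, fun p k => ?_⟩
    have := (h (Nat.unpair p).1).2 (Nat.unpair p).2 k
    simp only [spl, LinearEquiv.coe_mk, LinearMap.coe_mk, AddHom.coe_mk, Nat.pair_unpair] at this
    exact this

variable {E : Type} [NormedAddCommGroup E] [NormedSpace ℝ E]

theorem giso_lip_sum (hE : ¬ FiniteDimensional ℝ E) {ι : Type} (M : ι → FM) (c : ℕ × ι → E)
    (hc : ∀ k l, k ≠ l → 2 ≤ ‖c k - c l‖) (emb : ∀ k, (M k).V → E)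
    (h0 : ∀ k, emb k (M k).v0 = 0) (h1 : ∀ k u v, ‖emb k u - emb k v‖ ≤ (M k).d u v)
    (Dn : Set E) (hD : Dense Dn)
    (h2 : ∀ s : Finset E, (s : Set E) ⊆ Dn → ∃ k, (∀ u v, (M k).d u v ≤ ‖emb k u - emb k v‖) ∧
      ∀ y ∈ s, ∃ u, emb k u = y) : GIso (gLip E) (gSum M) := by
  classical
  obtain ⟨J, μ, j0, j1, m0, m1, m2⟩ := core_sum hE (fun p : ℕ × ι => M p.2) c hc
  let J' : (ℕ → ∀ k, (M k).V → ℝ) →ₗ[ℝ] (E → ℝ) := J ∘ₗ
    { toFun := fun z p => z p.1 p.2
      map_add' := fun _ _ => rfl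
      map_smul' := fun _ _ => rfl }
  let P : (E → ℝ) →ₗ[ℝ] (ℕ → ∀ k, (M k).V → ℝ) :=
    LinearMap.pi fun n => LinearMap.pi fun k => LinearMap.pi fun v => prL (μ (n, k) v)
  let A : (E → ℝ) →ₗ[ℝ] (ℕ → ∀ k, (M k).V → ℝ) :=
    { toFun := fun f _ k v => f (emb k v)
      map_add' := fun _ _ => rfl
      map_smul' := fun _ _ => rfl }
  have hap : ∀ (x : E) (n : ℕ), ∃ y ∈ Dn, ‖x - y‖ < 1 / ((n : ℝ) + 1) := by
    intro x n
    obtain ⟨y, hy, hy'⟩ := Metric.mem_closure_iff.1 (hD x) (1 / ((n : ℝ) + 1)) (by positivity)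
    exact ⟨y, hy, by rwa [← dist_eq_norm]⟩
  choose ap ap1 ap2 using hap
  have hk : ∀ p : Finset E × ℕ, ∃ k, (∀ u v, (M k).d u v ≤ ‖emb k u - emb k v‖) ∧
      ∀ x, ∃ u, x ∈ p.1 → emb k u = ap x p.2 := by
    intro p
    obtain ⟨k, k1, k2⟩ := h2 (p.1.image fun x => ap x p.2) (by
      intro y hy
      obtain ⟨x, -, rfl⟩ := Finset.mem_image.1 hy
      exact ap1 _ _)
    refine ⟨k, k1, fun x => ?_⟩
    by_cases hx : x ∈ p.1
    · obtain ⟨u, hu⟩ := k2 _ (Finset.mem_image_of_mem _ hx)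
      exact ⟨u, fun _ => hu⟩
    · exact ⟨(M k).v0, fun h => absurd h hx⟩
  choose kk k1 u k2 using hk
  obtain ⟨Λ, hΛ1, hΛ2⟩ := exists_glim (atTop : Filter (Finset E × ℕ))
  let B0 : (ℕ → ∀ k, (M k).V → ℝ) →ₗ[ℝ] (E → ℝ) := LinearMap.pi fun x => Λ ∘ₗ
    { toFun := fun z p => z 0 (kk p) (u p x)
      map_add' := fun _ _ => rfl
      map_smul' := fun _ _ => rfl }
  have hB0 : ∀ z x, B0 z x = Λ fun p => z 0 (kk p) (u p x) := fun _ _ => rfl
  let B : (ℕ → ∀ k, (M k).V → ℝ) →ₗ[ℝ] (E → ℝ) :=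
    B0 - (LinearMap.pi fun _ : E => LinearMap.proj (0 : E)) ∘ₗ B0
  have hB : ∀ z x, B z x = B0 z x - B0 z 0 := fun _ _ => rfl
  have ev1 : ∀ x : E, ∀ᶠ p : Finset E × ℕ in atTop, x ∈ p.1 := fun x =>
    (eventually_ge_atTop (({x}, 0) : Finset E × ℕ)).mono fun p hp =>
      hp.1 (Finset.mem_singleton_self x)
  have ev2 : ∀ ε : ℝ, 0 < ε → ∀ᶠ p : Finset E × ℕ in atTop, 1 / ((p.2 : ℝ) + 1) < ε := by
    intro ε hε
    obtain ⟨n, hn⟩ := exists_nat_one_div_lt hε
    refine (eventually_ge_atTop ((∅, n) : Finset E × ℕ)).mono fun p hp => lt_of_le_of_lt ?_ hn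
    have : (n : ℝ) ≤ p.2 := by exact_mod_cast hp.2
    exact one_div_le_one_div_of_le (by positivity) (by linarith)
  refine giso_pel (gLip E) (gSum M) (spl _) (gSum_spl M) A B J' P (C := 48) (by norm_num)
    ?_ ?_ ?_ ?_
  · rintro f a ⟨a0, a1, a2⟩
    refine ⟨⟨by positivity, fun n k => ⟨by change f _ = 0; rw [h0, a1], fun x y => ?_⟩⟩, ?_⟩
    · refine (a2 _ _).trans ?_
      have := (M k).d_nonneg x y
      nlinarith [mul_le_mul_of_nonneg_left (h1 k x y) a0]
    · have key : ∀ x, B0 (A f) x = f x := by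
        intro x
        rw [hB0]
        apply hΛ1
        rw [Metric.tendsto_nhds]
        intro ε hε
        filter_upwards [ev1 x, ev2 (ε / (a + 1)) (by positivity)] with p hp hp'
        change dist (f (emb _ (u p x))) (f x) < ε
        rw [k2 p x hp, Real.dist_eq]
        refine (a2 _ _).trans_lt ?_
        rw [norm_sub_rev]
        have h3 := (ap2 x p.2).trans hp'
        rw [lt_div_iff₀ (by positivity)] at h3
        nlinarith [norm_nonneg (x - ap x p.2)]
      funext x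
      rw [hB, key, key, a1, sub_zero]
  · rintro z a ⟨a0, a1⟩
    refine ⟨by positivity, sub_self _, fun x y => ?_⟩
    rw [hB, hB, sub_sub_sub_cancel_right, hB0, hB0, ← map_sub]
    have key : |Λ ((fun p => z 0 (kk p) (u p x)) - fun p => z 0 (kk p) (u p y))| ≤
        a * ‖x - y‖ := by
      refine le_of_forall_pos_le_add fun ε hε => hΛ2 _ _ ?_
      filter_upwards [ev1 x, ev1 y, ev2 (ε / (2 * (a + 1))) (by positivity)] with p hx hy hp
      refine ((a1 0 (kk p)).2 _ _).trans ?_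
      have h3 := k1 p (u p x) (u p y)
      rw [k2 p x hx, k2 p y hy] at h3
      have h4 := norm_sub_le_norm_sub_add_norm_sub (ap x p.2) x (ap y p.2)
      have h5 := norm_sub_le_norm_sub_add_norm_sub x y (ap y p.2)
      rw [norm_sub_rev (ap x p.2) x] at h4
      have h6 := (ap2 x p.2).trans hp
      have h7 := (ap2 y p.2).trans hp
      have h8 : (M (kk p)).d (u p x) (u p y) ≤ ‖x - y‖ + ε / (a + 1) := by
        have : ε / (a + 1) = ε / (2 * (a + 1)) + ε / (2 * (a + 1)) := by field_simp; ring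
        linarith
      have h9 : a * (ε / (a + 1)) ≤ ε := by
        rw [← mul_div_assoc, div_le_iff₀ (by positivity)]; nlinarith
      nlinarith [mul_le_mul_of_nonneg_left h8 a0]
    nlinarith [norm_nonneg (x - y)]
  · rintro z a ⟨a0, a1⟩
    refine ⟨⟨by positivity, j0 _, j1 _ a a0 (fun p => (a1 p.1 p.2).1) fun p => (a1 p.1 p.2).2⟩, ?_⟩
    funext n k v
    change pr (μ (n, k) v) (J _) = _
    rw [m2]
    change z n k v - z n k (M k).v0 = _
    rw [(a1 n k).1, sub_zero]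
  · rintro f a ⟨a0, a1, a2⟩
    refine ⟨by positivity, fun n k => ⟨?_, fun x y => ?_⟩⟩
    · change pr (μ (n, k) (M k).v0) f = 0
      rw [m0 (n, k)]; simp
    · refine (m1 f a a0 a2 (n, k) x y).trans ?_
      have := (M k).d_nonneg x y
      nlinarith [mul_nonneg a0 this]

theorem exists_sep (hE : ¬ FiniteDimensional ℝ E) : ∃ S : Set E, S.Infinite ∧
    (S.Pairwise fun x y => 2 ≤ ‖x - y‖) ∧ ∃ A : Set E, Dense A ∧ #A ≤ #S := by
  obtain ⟨S, hS⟩ := zorn_subset {S : Set E | S.Pairwise fun x y => 2 ≤ ‖x - y‖} (by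
    intro C hC hch
    refine ⟨⋃₀ C, ?_, fun s hs => Set.subset_sUnion_of_mem hs⟩
    exact (Set.pairwise_sUnion hch.directedOn).2 fun s hs => hC hs)
  have hmax : ∀ x, ∃ y ∈ S, ‖x - y‖ < 2 := by
    intro x
    by_contra h
    push Not at h
    have h1 : insert x S ∈ {S : Set E | S.Pairwise fun x y => 2 ≤ ‖x - y‖} := by
      refine hS.prop.insert fun y hy _ => ⟨h y hy, ?_⟩
      rw [norm_sub_rev]; exact h y hy
    have h2 : x ∈ S := hS.le_of_ge h1 (Set.subset_insert x S) (Set.mem_insert x S)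
    have := h x h2
    simp at this
    linarith
  have : Nontrivial E := by
    by_contra h
    rw [not_nontrivial_iff_subsingleton] at h
    exact hE inferInstance
  have hinf : S.Infinite := by
    intro hf
    obtain ⟨R, hR⟩ := hf.isBounded.exists_norm_le
    obtain ⟨x, hx⟩ := exists_norm_eq E (le_max_right (R + 2) 0)
    obtain ⟨y, hy, hy'⟩ := hmax x
    have := norm_sub_norm_le x y
    linarith [hR y hy, le_max_left (R + 2) 0]
  refine ⟨S, hinf, hS.prop, Set.range fun p : ℕ × S => (1 / ((p.1 : ℝ) + 1)) • (p.2 : E), ?_, ?_⟩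
  · intro x
    rw [Metric.mem_closure_iff]
    intro ε hε
    obtain ⟨n, hn⟩ := exists_nat_one_div_lt (half_pos hε)
    obtain ⟨y, hy, hy'⟩ := hmax (((n : ℝ) + 1) • x)
    refine ⟨_, ⟨(n, ⟨y, hy⟩), rfl⟩, ?_⟩
    have h1 : x - (1 / ((n : ℝ) + 1)) • y = (1 / ((n : ℝ) + 1)) • (((n : ℝ) + 1) • x - y) := by
      rw [smul_sub, smul_smul, one_div_mul_cancel (by positivity), one_smul]
    rw [dist_eq_norm, h1, norm_smul, Real.norm_eq_abs, abs_of_pos (by positivity)]
    have : 0 < 1 / ((n : ℝ) + 1) := by positivity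
    nlinarith
  · refine mk_range_le.trans ?_
    have := hinf.to_subtype
    rw [mk_prod, lift_id, lift_id, mk_nat, aleph0_mul_eq (aleph0_le_mk S)]

open Classical in
/-- a finite subset with the origin as a finite pointed space -/
noncomputable def fmOf {E : Type} [NormedAddCommGroup E] (s : Finset E) : FM where
  V := ↥(insert (0 : E) s)
  fin := inferInstance
  d u v := ‖(u : E) - v‖
  pos u v h := norm_pos_iff.2 (sub_ne_zero.2 fun e => h (Subtype.ext e))
  self v := by simp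
  v0 := ⟨0, Finset.mem_insert_self _ _⟩

theorem mk_finset_le {α β : Type} [Infinite β] (h : #α ≤ #β) : #(Finset α) ≤ #β := by
  obtain ⟨e⟩ := (Cardinal.le_def _ _).1 h
  rw [← mk_finset_of_infinite β]
  exact mk_le_of_injective (Finset.map_injective e)

theorem giso_half (hE : ¬ FiniteDimensional ℝ E) {ι : Type} (M : ι → FM) (S A : Set E)
    (hS : S.Infinite) (hS' : S.Pairwise fun x y => 2 ≤ ‖x - y‖) (hA : Dense A) (h1 : #A ≤ #S)
    (h2 : #ι ≤ #S) :
    GIso (gLip E) (gSum (Sum.elim (fun s : Finset A => fmOf (s.map (Embedding.subtype _))) M)) := by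
  classical
  have := hS.to_subtype
  have hc : #(ℕ × (Finset A ⊕ ι)) ≤ #S := by
    rw [mk_prod, mk_sum, lift_id, lift_id, lift_id, lift_id, mk_nat]
    have h3 : #(Finset A) + #ι ≤ #S :=
      (add_le_add (mk_finset_le h1) h2).trans (add_eq_self (aleph0_le_mk S)).le
    exact (mul_le_mul_right h3 _).trans (aleph0_mul_eq (aleph0_le_mk S)).le
  obtain ⟨c⟩ := (Cardinal.le_def _ _).1 hc
  refine giso_lip_sum hE _ (fun p => (c p : E))
    (fun k l h => hS' (c k).2 (c l).2 fun e => h (c.injective (Subtype.ext e)))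
    (fun k => match k with
      | Sum.inl _ => fun v => v.1
      | Sum.inr _ => fun _ => 0) ?_ ?_ A hA ?_
  · rintro (k | k) <;> rfl
  · rintro (k | k) u v
    · exact le_rfl
    · simpa using (M k).d_nonneg u v
  · intro s hs
    refine ⟨Sum.inl (s.subtype (· ∈ A)), fun u v => le_rfl, fun y hy => ⟨⟨y, ?_⟩, rfl⟩⟩
    exact Finset.mem_insert_of_mem
      (Finset.mem_map.2 ⟨⟨y, hs hy⟩, Finset.mem_subtype.2 hy, rfl⟩)

theorem gSum_swap {ι κ : Type} (M : ι → FM) (N : κ → FM) :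
    GIso (gSum (Sum.elim M N)) (gSum (Sum.elim N M)) := by
  let T : ∀ {ι κ : Type} (M : ι → FM) (N : κ → FM),
      (ℕ → ∀ k, (Sum.elim M N k).V → ℝ) →ₗ[ℝ] (ℕ → ∀ k, (Sum.elim N M k).V → ℝ) := fun M N =>
    { toFun := fun z n k => match k with
        | Sum.inl k => z n (Sum.inr k)
        | Sum.inr k => z n (Sum.inl k)
      map_add' := fun _ _ => by funext n k; rcases k with k | k <;> rfl
      map_smul' := fun _ _ => by funext n k; rcases k with k | k <;> rfl }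
  refine ⟨T M N, T N M, 1, zero_le_one, ?_, ?_⟩
  · rintro z a ⟨a0, a1⟩
    rw [one_mul]
    refine ⟨⟨a0, ?_⟩, ?_⟩
    · rintro n (k | k)
      · exact a1 n (Sum.inr k)
      · exact a1 n (Sum.inl k)
    · funext n k; rcases k with k | k <;> rfl
  · rintro z a ⟨a0, a1⟩
    rw [one_mul]
    refine ⟨⟨a0, ?_⟩, ?_⟩
    · rintro n (k | k)
      · exact a1 n (Sum.inr k)
      · exact a1 n (Sum.inl k)
    · funext n k; rcases k with k | k <;> rfl

theorem giso_lip {F : Type} [NormedAddCommGroup F] [NormedSpace ℝ F]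
    (hE : ¬ FiniteDimensional ℝ E) (hF : ¬ FiniteDimensional ℝ F)
    (h1 : ∀ D : Set E, Dense D → ∃ D' : Set F, Dense D' ∧ #D' ≤ #D)
    (h2 : ∀ D' : Set F, Dense D' → ∃ D : Set E, Dense D ∧ #D ≤ #D') :
    GIso (gLip E) (gLip F) := by
  obtain ⟨S, s1, s2, A0, a1, a2⟩ := exists_sep hE
  obtain ⟨T, t1, t2, B0, b1, b2⟩ := exists_sep hF
  obtain ⟨A, B, hA, hB, c1, c2, c3, c4⟩ : ∃ (A : Set E) (B : Set F), Dense A ∧ Dense B ∧
      #A ≤ #S ∧ #B ≤ #S ∧ #A ≤ #T ∧ #B ≤ #T := by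
    rcases le_total #S #T with h | h
    · obtain ⟨B, hB, hB'⟩ := h1 A0 a1
      exact ⟨A0, B, a1, hB, a2, hB'.trans a2, a2.trans h, (hB'.trans a2).trans h⟩
    · obtain ⟨A, hA, hA'⟩ := h2 B0 b1
      exact ⟨A, B0, hA, b1, (hA'.trans b2).trans h, b2.trans h, hA'.trans b2, b2⟩
  have := s1.to_subtype
  have := t1.to_subtype
  exact ((giso_half hE _ S A s1 s2 hA c1 (mk_finset_le c2)).trans (gSum_swap _ _)).trans
    (giso_half hF _ T B t1 t2 hB c4 (mk_finset_le c3)).symm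

end Pool.Agent.H585Z.LF
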